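import Mathlib

/-!
# Moment operators of random quantum channels: definitions

Conventions of problem MP_a4cf75_mp.  The environment has orthonormal basis `Fin e`, the system
has orthonormal basis `Fin d`, and `M_d ^ {⊗ t}` is described through its orthonormal basis
(Hilbert-Schmidt inner product) of tensor products of matrix units
`E_{i_1 j_1} ⊗ ... ⊗ E_{i_t j_t}`, indexed by `Fin t → Fin d × Fin d`.
-/

open MeasureTheory Matrix TopologicalSpace
open scoped Kronecker

namespace Pool.Agent.Helper49_Channels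

/-- The Borel sigma-algebra on the unitary group `U(n)`. -/
noncomputable instance instMeasurableSpaceUnitary (n : Type) [Fintype n] [DecidableEq n] :
    MeasurableSpace (Matrix.unitaryGroup n ℂ) := borel _

instance instBorelSpaceUnitary (n : Type) [Fintype n] [DecidableEq n] :
    BorelSpace (Matrix.unitaryGroup n ℂ) := ⟨rfl⟩

/-- `U(n)` is compact: it is a closed subset of the (compact) set of matrices all of whose
entries have modulus at most one. -/
instance instCompactSpaceUnitary (n : Type) [Fintype n] [DecidableEq n] :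
    CompactSpace (Matrix.unitaryGroup n ℂ) := by
  suffices h : IsCompact ((Matrix.unitaryGroup n ℂ : Submonoid (Matrix n n ℂ)) :
      Set (Matrix n n ℂ)) from isCompact_iff_compactSpace.mp h
  have hcl : IsClosed ((Matrix.unitaryGroup n ℂ : Submonoid (Matrix n n ℂ)) :
      Set (Matrix n n ℂ)) := by
    simpa using (isClosed_unitary (R := Matrix n n ℂ))
  have hK : IsCompact (Set.pi Set.univ (fun _ : n => Set.pi Set.univ
      (fun _ : n => Metric.closedBall (0 : ℂ) 1)) : Set (n → n → ℂ)) :=
    isCompact_univ_pi fun _ => isCompact_univ_pi fun _ => isCompact_closedBall _ _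
  refine IsCompact.of_isClosed_subset hK hcl ?_
  intro A hA i _ j _
  have := entry_norm_bound_of_unitary (𝕜 := ℂ) (U := A) hA i j
  simpa using this

/-- The Haar probability measure on `U(n)`. -/
noncomputable def haarProb (n : Type) [Fintype n] [DecidableEq n] :
    Measure (Matrix.unitaryGroup n ℂ) :=
  Measure.haarMeasure (⊤ : PositiveCompacts (Matrix.unitaryGroup n ℂ))

/-- Partial trace over the environment, `Tr_E`. -/
def partialTrace {d e : ℕ} (M : Matrix (Fin d × Fin e) (Fin d × Fin e) ℂ) :
    Matrix (Fin d) (Fin d) ℂ :=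
  Matrix.of fun i j => ∑ m, M (i, m) (j, m)

/-- The projector `|0><0|` onto the basis vector number `0` of the environment. -/
def envZero (e : ℕ) : Matrix (Fin e) (Fin e) ℂ :=
  Matrix.of fun m m' => if m.val = 0 ∧ m'.val = 0 then 1 else 0

/-- The channel `X ↦ Tr_E [V (X ⊗ |0><0|) V†]` on `M_d`. -/
def channel {d e : ℕ} (V : Matrix (Fin d × Fin e) (Fin d × Fin e) ℂ) :
    Matrix (Fin d) (Fin d) ℂ →ₗ[ℂ] Matrix (Fin d) (Fin d) ℂ where
  toFun X := partialTrace (V * (X ⊗ₖ envZero e) * Vᴴ)
  map_add' X Y := by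
    ext i j
    simp [partialTrace, add_kronecker, Matrix.mul_add, Matrix.add_mul, Finset.sum_add_distrib]
  map_smul' c X := by
    ext i j
    simp [partialTrace, smul_kronecker, Finset.mul_sum]

/-- The channel `X ↦ U X U†` on `M_d`. -/
def unitaryConj {d : ℕ} (U : Matrix (Fin d) (Fin d) ℂ) :
    Matrix (Fin d) (Fin d) ℂ →ₗ[ℂ] Matrix (Fin d) (Fin d) ℂ where
  toFun X := U * X * Uᴴ
  map_add' X Y := by simp [Matrix.mul_add, Matrix.add_mul]
  map_smul' c X := by simp

/-- The matrix of `Φ ^ {⊗ t}` acting on `M_d ^ {⊗ t}`, in the Hilbert-Schmidt orthonormal basis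
of tensor products of matrix units: the entry in row `a = ((i_s, j_s))_s` and column
`b = ((k_s, l_s))_s` is `∏ s, ⟨E_{i_s j_s}, Φ (E_{k_s l_s})⟩`. -/
def tensorPow {d : ℕ} (t : ℕ) (Φ : Matrix (Fin d) (Fin d) ℂ →ₗ[ℂ] Matrix (Fin d) (Fin d) ℂ) :
    Matrix (Fin t → Fin d × Fin d) (Fin t → Fin d × Fin d) ℂ :=
  Matrix.of fun a b => ∏ s, Φ (Matrix.single (b s).1 (b s).2 1) (a s).1 (a s).2

/-- The `t`-th order moment operator of the ensemble cHaar`(d, e)`: the average of
`Φ ^ {⊗ t}`, `Φ X = Tr_E [V (X ⊗ |0><0|) V†]`, over Haar-distributed `V ∈ U(d e)`. -/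
noncomputable def momentCHaar (t d e : ℕ) :
    Matrix (Fin t → Fin d × Fin d) (Fin t → Fin d × Fin d) ℂ :=
  Matrix.of fun a b => ∫ V, tensorPow t (channel (d := d) (e := e) V.1) a b
    ∂(haarProb (Fin d × Fin e))

/-- The `t`-th order moment operator of the Haar ensemble: the average of `Φ ^ {⊗ t}`,
`Φ X = U X U†`, over Haar-distributed `U ∈ U(d)`. -/
noncomputable def momentHaar (t d : ℕ) :
    Matrix (Fin t → Fin d × Fin d) (Fin t → Fin d × Fin d) ℂ :=
  Matrix.of fun a b => ∫ U, tensorPow t (unitaryConj (d := d) U.1) a b ∂(haarProb (Fin d))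

/-- The squared Hilbert-Schmidt norm `Tr (M† M)` of an operator given by its matrix in an
orthonormal basis. -/
noncomputable def hsSq {ι : Type} [Fintype ι] (M : Matrix ι ι ℂ) : ℝ :=
  ∑ a, ∑ b, ‖M a b‖ ^ 2

/-- `N_{t,k}(d, e)`: the squared Hilbert-Schmidt norm of the `k`-th power of the moment operator
of cHaar`(d, e)`. -/
noncomputable def N (t k d e : ℕ) : ℝ := hsSq (momentCHaar t d e ^ k)

end Pool.Agent.Helper49_Channels
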