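import Pool.Agent.Helper49_Channels.Defs

/-!
# The Depolarize ensemble of problem MP_a4cf75_mp
-/

open Matrix

namespace Pool.Agent.Helper49_Channels

/-- The completely depolarizing channel `X ↦ Tr(X) I / d` on `M_d`. -/
noncomputable def depolarize (d : ℕ) :
    Matrix (Fin d) (Fin d) ℂ →ₗ[ℂ] Matrix (Fin d) (Fin d) ℂ where
  toFun X := (X.trace / d) • (1 : Matrix (Fin d) (Fin d) ℂ)
  map_add' X Y := by rw [Matrix.trace_add, add_div, add_smul]
  map_smul' c X := by
    rw [Matrix.trace_smul, smul_eq_mul, mul_div_assoc, mul_smul]
    rfl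

/-- The `t`-th order moment operator of the Depolarize ensemble, which is the single channel
`depolarize d` with probability one. -/
noncomputable def momentDep (t d : ℕ) :
    Matrix (Fin t → Fin d × Fin d) (Fin t → Fin d × Fin d) ℂ :=
  tensorPow t (depolarize d)

end Pool.Agent.Helper49_Channels
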