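import Pool.Agent.Helper49_Channels.Defs

open MeasureTheory Matrix TopologicalSpace
open scoped Kronecker ComplexConjugate

namespace Pool.Agent.Helper49_Channels

variable {n : Type} [Fintype n] [DecidableEq n]

instance instIsProbabilityMeasureHaarProb : IsProbabilityMeasure (haarProb n) := by
  refine ⟨?_⟩
  have h := Measure.haarMeasure_self (K₀ := (⊤ : PositiveCompacts (Matrix.unitaryGroup n ℂ)))
  simpa [haarProb] using h

instance instIsHaarMeasureHaarProb : (haarProb n).IsHaarMeasure := by
  unfold haarProb; infer_instance

theorem continuous_entry (i j : n) :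
    Continuous (fun V : Matrix.unitaryGroup n ℂ => V.1 i j) := by
  have : Continuous (fun V : Matrix.unitaryGroup n ℂ => V.1) := continuous_subtype_val
  exact this.matrix_elem i j

theorem integrable_of_continuous {E : Type*} [NormedAddCommGroup E]
    {f : Matrix.unitaryGroup n ℂ → E}
    (hf : Continuous f) : Integrable f (haarProb n) :=
  hf.integrable_of_hasCompactSupport (HasCompactSupport.of_compactSpace f)

/-- Left invariance of the Haar integral. -/
theorem integral_left (f : Matrix.unitaryGroup n ℂ → ℂ) (W : Matrix.unitaryGroup n ℂ) :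
    ∫ V, f (W * V) ∂(haarProb n) = ∫ V, f V ∂(haarProb n) :=
  integral_mul_left_eq_self f W

/-- The columns of a unitary matrix are orthonormal. -/
theorem col_orthonormal (V : Matrix.unitaryGroup n ℂ) (β δ : n) :
    ∑ α, V.1 α β * conj (V.1 α δ) = if β = δ then 1 else 0 := by
  have h := Matrix.UnitaryGroup.star_mul_self V
  have h2 := congrFun (congrFun h δ) β
  simp only [Matrix.mul_apply, Matrix.star_apply, Matrix.one_apply] at h2
  rw [eq_comm] at h2
  have : (if β = δ then (1:ℂ) else 0) = if δ = β then 1 else 0 := by
    simp only [eq_comm]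
  rw [this, h2]
  refine Finset.sum_congr rfl fun α _ => ?_
  rw [mul_comm]; rfl

end Pool.Agent.Helper49_Channels
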