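import Pool.Agent.Helper49_Channels.SecondMoment

open MeasureTheory Matrix TopologicalSpace
open scoped Kronecker ComplexConjugate

namespace Pool.Agent.Helper49_Channels

theorem envZero_eq {e : ℕ} (he : 0 < e) :
    envZero e = Matrix.single (⟨0, he⟩ : Fin e) ⟨0, he⟩ 1 := by
  ext m m'
  simp only [envZero, Matrix.of_apply, Matrix.single_apply, Fin.ext_iff, eq_comm]

theorem channel_single {d e : ℕ} (he : 0 < e) (V : Matrix (Fin d × Fin e) (Fin d × Fin e) ℂ)
    (k l i j : Fin d) :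
    channel V (Matrix.single k l 1) i j =
      ∑ m : Fin e, V (i, m) (k, ⟨0, he⟩) * conj (V (j, m) (l, ⟨0, he⟩)) := by
  show partialTrace (V * (Matrix.single k l (1:ℂ) ⊗ₖ envZero e) * Vᴴ) i j = _
  rw [envZero_eq he, Matrix.single_kronecker_single]
  unfold partialTrace
  simp only [Matrix.of_apply]
  refine Finset.sum_congr rfl fun m _ => ?_
  rw [Matrix.mul_apply]
  simp only [Matrix.mul_apply, Matrix.single_apply, Matrix.conjTranspose_apply]
  rw [Finset.sum_eq_single (l, ⟨0, he⟩)]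
  · rw [Finset.sum_eq_single (k, ⟨0, he⟩)]
    · simp
    · intro b _ hb
      rw [if_neg]
      · simp
      · intro h; exact hb h.1.symm
    · simp
  · intro b _ hb
    rw [Finset.sum_eq_zero]
    · simp
    · intro c _
      rw [if_neg]
      · simp
      · intro h; exact hb h.2.symm
  · simp

/-- Components of the identity operator on `C^d ⊗ C^d`. -/
noncomputable def vI {d : ℕ} (a : Fin 2 → Fin d × Fin d) : ℝ :=
  if (a 0).1 = (a 0).2 ∧ (a 1).1 = (a 1).2 then 1 else 0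

/-- Components of the flip operator on `C^d ⊗ C^d`. -/
noncomputable def vF {d : ℕ} (a : Fin 2 → Fin d × Fin d) : ℝ :=
  if (a 0).1 = (a 1).2 ∧ (a 1).1 = (a 0).2 then 1 else 0

theorem momentCHaar_two {d e : ℕ} (hd : 2 ≤ d) (he : 0 < e) (a b : Fin 2 → Fin d × Fin d) :
    momentCHaar 2 d e a b =
      (((vI b - vF b / (d * e : ℝ)) / ((d * e : ℝ) ^ 2 - 1) * (e : ℝ) ^ 2 * vI a +
        (vF b - vI b / (d * e : ℝ)) / ((d * e : ℝ) ^ 2 - 1) * (e : ℝ) * vF a : ℝ) : ℂ) := by
  have hcard : Fintype.card (Fin d × Fin e) = d * e := by simp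
  have h2 : 2 ≤ Fintype.card (Fin d × Fin e) := by
    rw [hcard]; exact le_trans hd (Nat.le_mul_of_pos_right d he)
  have h1 : momentCHaar 2 d e a b = ∑ m : Fin e, ∑ m' : Fin e,
      mom ((a 0).1, m) ((a 1).1, m') ((a 0).2, m) ((a 1).2, m')
        ((b 0).1, (⟨0, he⟩ : Fin e)) ((b 1).1, ⟨0, he⟩) ((b 0).2, ⟨0, he⟩) ((b 1).2, ⟨0, he⟩) := by
    unfold momentCHaar tensorPow
    simp only [Matrix.of_apply, Fin.prod_univ_two, channel_single he, Finset.sum_mul_sum]
    have hint : ∀ m m' : Fin e, Integrable (fun V : Matrix.unitaryGroup (Fin d × Fin e) ℂ =>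
        V.1 ((a 0).1, m) ((b 0).1, ⟨0, he⟩) * conj (V.1 ((a 0).2, m) ((b 0).2, ⟨0, he⟩)) *
        (V.1 ((a 1).1, m') ((b 1).1, ⟨0, he⟩) * conj (V.1 ((a 1).2, m') ((b 1).2, ⟨0, he⟩))))
        (haarProb (Fin d × Fin e)) := by
      intro m m'
      apply integrable_of_continuous
      exact ((continuous_entry _ _).mul (Complex.continuous_conj.comp (continuous_entry _ _))).mul
        ((continuous_entry _ _).mul (Complex.continuous_conj.comp (continuous_entry _ _)))
    rw [integral_finsetSum _ (fun m _ => integrable_finsetSum _ fun m' _ => hint m m')]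
    refine Finset.sum_congr rfl fun m _ => ?_
    rw [integral_finsetSum _ (fun m' _ => hint m m')]
    refine Finset.sum_congr rfl fun m' _ => ?_
    unfold mom
    refine integral_congr_ae (Filter.Eventually.of_forall fun V => ?_)
    simp only
    ring
  rw [h1]
  simp only [mom_eq h2, hcard, Prod.mk.injEq, and_true]
  have eI : ((if (b 0).1 = (b 0).2 then (1:ℂ) else 0) * if (b 1).1 = (b 1).2 then 1 else 0) =
      (vI b : ℂ) := by
    unfold vI; split_ifs <;> simp_all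
  have eF : ((if (b 0).1 = (b 1).2 then (1:ℂ) else 0) * if (b 1).1 = (b 0).2 then 1 else 0) =
      (vF b : ℂ) := by
    unfold vF; split_ifs <;> simp_all
  rw [eI, eF]
  have sI : ∑ m : Fin e, ∑ m' : Fin e, (if (a 0).1 = (a 0).2 ∧ (a 1).1 = (a 1).2
      then (1:ℂ) else 0) = (e:ℂ)^2 * (vI a : ℂ) := by
    unfold vI
    simp only [Finset.sum_const, Finset.card_univ, Fintype.card_fin, nsmul_eq_mul]
    split_ifs
    · push_cast; ring
    · simp
  have sF : ∑ m : Fin e, ∑ m' : Fin e, (if ((a 0).1 = (a 1).2 ∧ m = m') ∧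
      ((a 1).1 = (a 0).2 ∧ m' = m) then (1:ℂ) else 0) = (e:ℂ) * (vF a : ℂ) := by
    unfold vF
    by_cases h : (a 0).1 = (a 1).2 ∧ (a 1).1 = (a 0).2
    · have : ∀ m m' : Fin e, (if ((a 0).1 = (a 1).2 ∧ m = m') ∧
          ((a 1).1 = (a 0).2 ∧ m' = m) then (1:ℂ) else 0) = if m = m' then 1 else 0 := by
        intro m m'
        by_cases hm : m = m'
        · subst hm; simp [h.1, h.2]
        · simp [hm]
      simp only [this]
      simp [h]
    · rw [if_neg h]
      have : ∀ m m' : Fin e, (if ((a 0).1 = (a 1).2 ∧ m = m') ∧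
          ((a 1).1 = (a 0).2 ∧ m' = m) then (1:ℂ) else 0) = 0 := by
        intro m m'
        rw [if_neg]
        intro hh; exact h ⟨hh.1.1, hh.2.1⟩
      simp [this]
  simp only [Finset.sum_add_distrib, ← Finset.mul_sum]
  rw [sI, sF]
  push_cast
  ring

/-- The traceless part of the flip. -/
noncomputable def vG {d : ℕ} (a : Fin 2 → Fin d × Fin d) : ℝ := vF a - vI a / d

theorem sum_arrow {α : Type} [Fintype α] (f : (Fin 2 → α) → ℝ) :
    ∑ a, f a = ∑ x : α, ∑ y : α, f ![x, y] := by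
  rw [← (finTwoArrowEquiv α).symm.sum_comp f, Fintype.sum_prod_type]
  rfl

theorem vI_cons {d : ℕ} (x y : Fin d × Fin d) :
    vI ![x, y] = (if x.1 = x.2 then 1 else 0) * (if y.1 = y.2 then 1 else 0) := by
  show (if x.1 = x.2 ∧ y.1 = y.2 then (1:ℝ) else 0) = _
  by_cases h1 : x.1 = x.2 <;> by_cases h2 : y.1 = y.2 <;> simp [h1, h2]

theorem vF_cons {d : ℕ} (x y : Fin d × Fin d) :
    vF ![x, y] = (if x.1 = y.2 then 1 else 0) * (if y.1 = x.2 then 1 else 0) := by
  show (if x.1 = y.2 ∧ y.1 = x.2 then (1:ℝ) else 0) = _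
  by_cases h1 : x.1 = y.2 <;> by_cases h2 : y.1 = x.2 <;> simp [h1, h2]

theorem sum_II (d : ℕ) : ∑ a : Fin 2 → Fin d × Fin d, vI a * vI a = (d : ℝ) ^ 2 := by
  rw [sum_arrow]
  simp only [Fintype.sum_prod_type, vI_cons]
  have : ∀ (i j k l : Fin d), ((if i = j then (1:ℝ) else 0) * (if k = l then 1 else 0)) *
      ((if i = j then (1:ℝ) else 0) * (if k = l then 1 else 0)) =
        (if i = j then 1 else 0) * (if k = l then 1 else 0) := by
    intro i j k l
    by_cases h1 : i = j <;> by_cases h2 : k = l <;> simp [h1, h2]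
  simp only [this, ← Finset.mul_sum, ← Finset.sum_mul]
  simp
  ring

theorem sum_FF (d : ℕ) : ∑ a : Fin 2 → Fin d × Fin d, vF a * vF a = (d : ℝ) ^ 2 := by
  rw [sum_arrow]
  simp only [Fintype.sum_prod_type, vF_cons]
  have : ∀ (i j k l : Fin d), ((if i = l then (1:ℝ) else 0) * (if k = j then 1 else 0)) *
      ((if i = l then (1:ℝ) else 0) * (if k = j then 1 else 0)) =
        (if k = j then 1 else 0) * (if i = l then 1 else 0) := by
    intro i j k l
    by_cases h1 : i = l <;> by_cases h2 : k = j <;> simp [h1, h2]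
  simp only [this, ← Finset.mul_sum]
  simp
  ring

theorem sum_IF (d : ℕ) : ∑ a : Fin 2 → Fin d × Fin d, vI a * vF a = (d : ℝ) := by
  rw [sum_arrow]
  simp only [Fintype.sum_prod_type, vI_cons, vF_cons]
  have : ∀ (i j k l : Fin d), ((if i = j then (1:ℝ) else 0) * (if k = l then 1 else 0)) *
      ((if i = l then (1:ℝ) else 0) * (if k = j then 1 else 0)) =
        (if i = j then (if j = k then (if k = l then 1 else 0) else 0) else 0) := by
    intro i j k l
    by_cases h1 : i = j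
    · subst h1
      by_cases h2 : k = l
      · subst h2
        by_cases h3 : i = k
        · simp [h3]
        · simp [h3]
      · simp [h2]
    · simp [h1]
  simp only [this]
  simp

theorem sum_IG {d : ℕ} (hd : 0 < d) : ∑ a : Fin 2 → Fin d × Fin d, vI a * vG a = 0 := by
  have hd' : (d : ℝ) ≠ 0 := by exact_mod_cast hd.ne'
  unfold vG
  simp only [mul_sub, Finset.sum_sub_distrib, sum_IF]
  have : ∑ a : Fin 2 → Fin d × Fin d, vI a * (vI a / d) = (d:ℝ) := by
    simp only [← mul_div_assoc, ← Finset.sum_div, sum_II]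
    field_simp
  rw [this]; ring

theorem sum_GG {d : ℕ} (hd : 0 < d) :
    ∑ a : Fin 2 → Fin d × Fin d, vG a * vG a = (d : ℝ) ^ 2 - 1 := by
  have hd' : (d : ℝ) ≠ 0 := by exact_mod_cast hd.ne'
  have : ∀ a : Fin 2 → Fin d × Fin d, vG a * vG a =
      vF a * vF a - 2 / d * (vI a * vF a) + 1 / d ^ 2 * (vI a * vI a) := by
    intro a; unfold vG; ring
  simp only [this, Finset.sum_add_distrib, Finset.sum_sub_distrib, ← Finset.mul_sum, sum_II,
    sum_FF, sum_IF]
  field_simp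
  ring

theorem sum_quad {d : ℕ} (hd : 0 < d) (α β γ δ : ℝ) :
    ∑ a : Fin 2 → Fin d × Fin d, (α * vI a + β * vG a) * (γ * vI a + δ * vG a) =
      α * γ * (d : ℝ) ^ 2 + β * δ * ((d : ℝ) ^ 2 - 1) := by
  have : ∀ a : Fin 2 → Fin d × Fin d, (α * vI a + β * vG a) * (γ * vI a + δ * vG a) =
      (α * γ) * (vI a * vI a) + (α * δ + β * γ) * (vI a * vG a) + (β * δ) * (vG a * vG a) := by
    intro a; ring
  simp only [this, Finset.sum_add_distrib, ← Finset.mul_sum, sum_II, sum_IG hd, sum_GG hd]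
  ring

/-- The subleading eigenvalue of the second moment operator. -/
noncomputable def lam (d e : ℕ) : ℝ := e * ((d:ℝ) ^ 2 - 1) / ((d * e : ℝ) ^ 2 - 1)

/-- The coefficient in `T(I) = I + kap * G`. -/
noncomputable def kap (d e : ℕ) : ℝ := ((d * e : ℝ) - d) / ((d * e : ℝ) ^ 2 - 1)

/-- The real form of the second moment operator. -/
noncomputable def realT (d : ℕ) (κ μ : ℝ) :
    Matrix (Fin 2 → Fin d × Fin d) (Fin 2 → Fin d × Fin d) ℝ :=
  Matrix.of fun a b => 1 / (d:ℝ) ^ 2 * (vI a + κ * vG a) * vI b + μ / ((d:ℝ) ^ 2 - 1) * vG a * vG b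

theorem denom_pos {d e : ℕ} (hd : 2 ≤ d) (he : 0 < e) : (0:ℝ) < (d * e : ℝ) ^ 2 - 1 := by
  have h1 : (2:ℝ) ≤ d := by exact_mod_cast hd
  have h2 : (1:ℝ) ≤ e := by exact_mod_cast he
  have : (2:ℝ) ≤ d * e := by nlinarith
  nlinarith

theorem momentCHaar_two' {d e : ℕ} (hd : 2 ≤ d) (he : 0 < e) :
    momentCHaar 2 d e = (realT d (kap d e) (lam d e)).map (fun x : ℝ => (x : ℂ)) := by
  ext a b
  rw [momentCHaar_two hd he, Matrix.map_apply]
  congr 1
  unfold realT kap lam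
  simp only [Matrix.of_apply]
  have hD := (denom_pos hd he).ne'
  have hd1 : (d:ℝ) ≠ 0 := by
    have : (0:ℝ) < d := by exact_mod_cast (by omega : 0 < d)
    exact this.ne'
  have he1 : (e:ℝ) ≠ 0 := by
    have : (0:ℝ) < e := by exact_mod_cast he
    exact this.ne'
  have hd2 : (d:ℝ) ^ 2 - 1 ≠ 0 := by
    have h1 : (2:ℝ) ≤ d := by exact_mod_cast hd
    nlinarith
  have hF : vF a = vG a + vI a / d := by unfold vG; ring
  have hF' : vF b = vG b + vI b / d := by unfold vG; ring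
  rw [hF, hF']
  have hD' : (d:ℝ) ^ 2 * (e:ℝ) ^ 2 - 1 ≠ 0 := by
    rw [← mul_pow]; exact hD
  field_simp
  ring

theorem realT_mul {d : ℕ} (hd : 2 ≤ d) (κ μ κ' μ' : ℝ) :
    realT d κ μ * realT d κ' μ' = realT d (κ + μ * κ') (μ * μ') := by
  ext a b
  have hd1 : (d:ℝ) ≠ 0 := by
    have : (0:ℝ) < d := by exact_mod_cast (by omega : 0 < d)
    exact this.ne'
  have hd2 : (d:ℝ) ^ 2 - 1 ≠ 0 := by
    have h1 : (2:ℝ) ≤ d := by exact_mod_cast hd
    nlinarith
  rw [Matrix.mul_apply]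
  have : ∀ c, realT d κ μ a c * realT d κ' μ' c b =
      ((1 / (d:ℝ) ^ 2 * (vI a + κ * vG a)) * vI c + (μ / ((d:ℝ) ^ 2 - 1) * vG a) * vG c) *
      ((1 / (d:ℝ) ^ 2 * vI b) * vI c +
        (1 / (d:ℝ) ^ 2 * κ' * vI b + μ' / ((d:ℝ) ^ 2 - 1) * vG b) * vG c) := by
    intro c
    unfold realT
    simp only [Matrix.of_apply]
    ring
  simp only [this]
  rw [sum_quad (by omega)]
  unfold realT
  simp only [Matrix.of_apply]
  field_simp
  ring

theorem realT_pow {d : ℕ} (hd : 2 ≤ d) (κ μ : ℝ) (k : ℕ) :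
    realT d κ μ ^ (k + 1) = realT d (κ * ∑ j ∈ Finset.range (k + 1), μ ^ j) (μ ^ (k + 1)) := by
  induction k with
  | zero => simp
  | succ k ih =>
    rw [pow_succ, ih, realT_mul hd, Finset.sum_range_succ _ (k + 1)]
    congr 1
    ring

theorem hsSq_map {ι : Type} [Fintype ι] (M : Matrix ι ι ℝ) :
    hsSq (M.map (fun x : ℝ => (x : ℂ))) = ∑ a, ∑ b, M a b * M a b := by
  unfold hsSq
  refine Finset.sum_congr rfl fun a _ => Finset.sum_congr rfl fun b _ => ?_
  rw [Matrix.map_apply, Complex.norm_real, Real.norm_eq_abs, sq_abs]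
  ring

theorem realT_hs {d : ℕ} (hd : 2 ≤ d) (κ μ : ℝ) :
    ∑ a, ∑ b, realT d κ μ a b * realT d κ μ a b =
      1 + κ ^ 2 * (((d:ℝ) ^ 2 - 1) / (d:ℝ) ^ 2) + μ ^ 2 := by
  have hd1 : (d:ℝ) ≠ 0 := by
    have : (0:ℝ) < d := by exact_mod_cast (by omega : 0 < d)
    exact this.ne'
  have hd2 : (d:ℝ) ^ 2 - 1 ≠ 0 := by
    have h1 : (2:ℝ) ≤ d := by exact_mod_cast hd
    nlinarith
  have : ∀ a, ∑ b, realT d κ μ a b * realT d κ μ a b =
      (1 / (d:ℝ)) ^ 2 * ((1 * vI a + κ * vG a) * (1 * vI a + κ * vG a)) +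
        (μ ^ 2 / ((d:ℝ) ^ 2 - 1)) * ((0 * vI a + 1 * vG a) * (0 * vI a + 1 * vG a)) := by
    intro a
    have h1 : ∀ b, realT d κ μ a b * realT d κ μ a b =
        ((1 / (d:ℝ) ^ 2 * (vI a + κ * vG a)) * vI b + (μ / ((d:ℝ) ^ 2 - 1) * vG a) * vG b) *
        ((1 / (d:ℝ) ^ 2 * (vI a + κ * vG a)) * vI b + (μ / ((d:ℝ) ^ 2 - 1) * vG a) * vG b) := by
      intro b
      unfold realT
      simp only [Matrix.of_apply]
    simp only [h1]
    rw [sum_quad (by omega)]
    field_simp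
    ring
  simp only [this, Finset.sum_add_distrib, ← Finset.mul_sum]
  rw [sum_quad (by omega), sum_quad (by omega)]
  field_simp
  ring

theorem N_two {d e : ℕ} (hd : 2 ≤ d) (he : 0 < e) (k : ℕ) :
    N 2 (k + 1) d e =
      1 + (kap d e * ∑ j ∈ Finset.range (k + 1), lam d e ^ j) ^ 2 *
        (((d:ℝ) ^ 2 - 1) / (d:ℝ) ^ 2) + (lam d e ^ (k + 1)) ^ 2 := by
  unfold N
  rw [momentCHaar_two' hd he]
  have : (realT d (kap d e) (lam d e)).map (fun x : ℝ => (x : ℂ)) ^ (k + 1) =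
      (realT d (kap d e) (lam d e) ^ (k + 1)).map (fun x : ℝ => (x : ℂ)) := by
    have := (map_pow (Complex.ofRealHom.mapMatrix) (realT d (kap d e) (lam d e)) (k + 1)).symm
    exact this
  rw [this, hsSq_map, realT_pow hd, realT_hs hd]

end Pool.Agent.Helper49_Channels
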