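import Pool.Agent.Helper49_Channels.Haar

/-!
# Haar calculus on `U(n)` (towards Q1 of MP_a4cf75_mp)

Entrywise derivatives of matrix curves, one-parameter groups, right invariance of the Haar
measure and the vanishing of Haar integrals of derivatives along one-parameter groups.
-/

open MeasureTheory Matrix TopologicalSpace
open scoped Kronecker ComplexConjugate ComplexOrder

namespace Pool.Agent.Helper49_Channels

variable {n : Type} [Fintype n] [DecidableEq n]

instance instIsMulRightInvariantHaarProb : (haarProb n).IsMulRightInvariant := by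
  refine ⟨fun g => ?_⟩
  have h := Measure.map_right_mul_eq_modularCharacterFun_smul (haarProb n) g
  have hm : Measurable (fun x : Matrix.unitaryGroup n ℂ => x * g) :=
    (continuous_id.mul continuous_const).measurable
  have h1 : (Measure.map (· * g) (haarProb n)) Set.univ = 1 := by
    rw [Measure.map_apply hm MeasurableSet.univ]; simp
  rw [h] at h1
  have h2 : (Measure.modularCharacterFun g : ENNReal) = 1 := by
    simpa [Measure.smul_apply] using h1
  have h3 : Measure.modularCharacterFun g = 1 := by exact_mod_cast h2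
  rw [h, h3, one_smul]

/-- Right invariance of the Haar integral. -/
theorem integral_right (f : Matrix.unitaryGroup n ℂ → ℂ) (W : Matrix.unitaryGroup n ℂ) :
    ∫ V, f (V * W) ∂(haarProb n) = ∫ V, f V ∂(haarProb n) :=
  integral_mul_right_eq_self f W

/-- Entrywise derivative of a matrix-valued curve. -/
def MDeriv {a b : Type*} (F : ℝ → Matrix a b ℂ) (F' : Matrix a b ℂ) (x : ℝ) : Prop :=
  ∀ i j, HasDerivAt (fun θ => F θ i j) (F' i j) x

theorem hasDerivAt_shift {f : ℝ → ℂ} {f' : ℂ} (x : ℝ) (h : HasDerivAt f f' 0) :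
    HasDerivAt (fun s => f (s - x)) f' x := by
  have h3 : HasDerivAt f f' (x - x) := by simpa using h
  exact h3.comp_sub_const x x

section MDeriv

variable {a b c e : Type*}

theorem MDeriv.const (A : Matrix a b ℂ) (x : ℝ) : MDeriv (fun _ => A) 0 x :=
  fun _ _ => hasDerivAt_const _ _

theorem MDeriv.add {F G : ℝ → Matrix a b ℂ} {F' G' : Matrix a b ℂ} {x : ℝ}
    (hF : MDeriv F F' x) (hG : MDeriv G G' x) : MDeriv (fun θ => F θ + G θ) (F' + G') x :=
  fun i j => (hF i j).add (hG i j)

theorem MDeriv.sub {F G : ℝ → Matrix a b ℂ} {F' G' : Matrix a b ℂ} {x : ℝ}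
    (hF : MDeriv F F' x) (hG : MDeriv G G' x) : MDeriv (fun θ => F θ - G θ) (F' - G') x :=
  fun i j => (hF i j).sub (hG i j)

theorem MDeriv.mul [Fintype b] {F : ℝ → Matrix a b ℂ} {G : ℝ → Matrix b c ℂ}
    {F' : Matrix a b ℂ} {G' : Matrix b c ℂ} {x : ℝ}
    (hF : MDeriv F F' x) (hG : MDeriv G G' x) :
    MDeriv (fun θ => F θ * G θ) (F' * G x + F x * G') x := by
  intro i j
  have h : HasDerivAt (fun θ => ∑ k, F θ i k * G θ k j)
      (∑ k, (F' i k * G x k j + F x i k * G' k j)) x :=
    HasDerivAt.fun_sum fun k _ => (hF i k).mul (hG k j)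
  simpa [Matrix.mul_apply, Matrix.add_apply, Finset.sum_add_distrib] using h

theorem MDeriv.mul_const [Fintype b] {F : ℝ → Matrix a b ℂ} {F' : Matrix a b ℂ} {x : ℝ}
    (hF : MDeriv F F' x) (B : Matrix b c ℂ) : MDeriv (fun θ => F θ * B) (F' * B) x := by
  simpa using hF.mul (MDeriv.const B x)

theorem MDeriv.const_mul [Fintype b] {G : ℝ → Matrix b c ℂ} {G' : Matrix b c ℂ} {x : ℝ}
    (A : Matrix a b ℂ) (hG : MDeriv G G' x) : MDeriv (fun θ => A * G θ) (A * G') x := by
  simpa using (MDeriv.const A x).mul hG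

theorem MDeriv.conjTranspose {F : ℝ → Matrix a b ℂ} {F' : Matrix a b ℂ} {x : ℝ}
    (hF : MDeriv F F' x) : MDeriv (fun θ => (F θ)ᴴ) F'ᴴ x := by
  intro i j
  exact (hF j i).star

theorem MDeriv.kronecker {F : ℝ → Matrix a b ℂ} {G : ℝ → Matrix c e ℂ}
    {F' : Matrix a b ℂ} {G' : Matrix c e ℂ} {x : ℝ}
    (hF : MDeriv F F' x) (hG : MDeriv G G' x) :
    MDeriv (fun θ => F θ ⊗ₖ G θ) (F' ⊗ₖ G x + F x ⊗ₖ G') x := by
  intro i j
  exact (hF i.1 j.1).mul (hG i.2 j.2)

theorem MDeriv.trace [Fintype a] {F : ℝ → Matrix a a ℂ} {F' : Matrix a a ℂ} {x : ℝ}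
    (hF : MDeriv F F' x) : HasDerivAt (fun θ => (F θ).trace) F'.trace x := by
  simpa [Matrix.trace] using HasDerivAt.fun_sum (u := Finset.univ) fun k _ => hF k k

theorem MDeriv.unique {F : ℝ → Matrix a b ℂ} {F' G' : Matrix a b ℂ} {x : ℝ}
    (hF : MDeriv F F' x) (hG : MDeriv F G' x) : F' = G' := by
  ext i j
  exact (hF i j).unique (hG i j)

theorem MDeriv.eq_const {F : ℝ → Matrix a b ℂ} (hF : ∀ x, MDeriv F 0 x) (x y : ℝ) :
    F x = F y := by
  ext i j
  exact is_const_of_deriv_eq_zero (f := fun θ => F θ i j)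
    (fun x => (hF x i j).differentiableAt) (fun x => (hF x i j).deriv) x y

theorem MDeriv.congr {F G : ℝ → Matrix a b ℂ} {F' : Matrix a b ℂ} {x : ℝ}
    (hF : MDeriv F F' x) (h : ∀ θ, G θ = F θ) : MDeriv G F' x := by
  have : G = F := funext h
  rwa [this]

/-- The derivative at `x` is the derivative at `0` of the shifted curve. -/
theorem MDeriv.of_shift {F : ℝ → Matrix a b ℂ} {F' : Matrix a b ℂ} {x : ℝ}
    (hF : MDeriv (fun s => F (x + s)) F' 0) : MDeriv F F' x := by
  intro i j
  simpa using hasDerivAt_shift x (hF i j)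

end MDeriv

/-- Differentiation of a Haar integral with parameter. -/
theorem hasDerivAt_haar_integral {f f' : ℝ → Matrix.unitaryGroup n ℂ → ℂ} (x : ℝ)
    (hf : ∀ θ u, HasDerivAt (fun θ => f θ u) (f' θ u) θ)
    (hc : ∀ θ, Continuous (f θ))
    (hc' : Continuous (fun p : ℝ × Matrix.unitaryGroup n ℂ => f' p.1 p.2)) :
    HasDerivAt (fun θ => ∫ u, f θ u ∂(haarProb n)) (∫ u, f' x u ∂(haarProb n)) x := by
  have hK : IsCompact (Set.Icc (x - 1) (x + 1) ×ˢ
      (Set.univ : Set (Matrix.unitaryGroup n ℂ))) := isCompact_Icc.prod isCompact_univ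
  obtain ⟨C, hC⟩ := hK.exists_bound_of_continuousOn hc'.continuousOn
  refine (hasDerivAt_integral_of_dominated_loc_of_deriv_le (F := f) (F' := f')
    (bound := fun _ => C) (s := Set.Icc (x - 1) (x + 1))
    (Icc_mem_nhds (by linarith) (by linarith)) ?_ ?_ ?_ ?_ ?_ ?_).2
  · exact Filter.Eventually.of_forall fun θ => (hc θ).aestronglyMeasurable
  · exact integrable_of_continuous (hc x)
  · exact (hc'.comp (Continuous.prodMk continuous_const continuous_id)).aestronglyMeasurable
  · exact Filter.Eventually.of_forall fun u θ hθ => hC (θ, u) ⟨hθ, Set.mem_univ _⟩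
  · exact integrable_const C
  · exact Filter.Eventually.of_forall fun u θ _ => hf θ u

/-- A one-parameter group of unitary matrices with generator `X`. -/
structure UCurve (X : Matrix n n ℂ) where
  w : ℝ → Matrix.unitaryGroup n ℂ
  zero : w 0 = 1
  add : ∀ s t, w (s + t) = w s * w t
  deriv : ∀ x, MDeriv (fun θ => (w θ).1) (X * (w x).1) x
  cont : Continuous w

theorem UCurve.deriv_zero {X : Matrix n n ℂ} (c : UCurve X) :
    MDeriv (fun θ => (c.w θ).1) X 0 := by
  simpa [c.zero] using c.deriv 0

/-- Haar integrals of derivatives along left translations vanish. -/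
theorem integral_deriv_left {X : Matrix n n ℂ} (c : UCurve X)
    {f h : Matrix.unitaryGroup n ℂ → ℂ} (hf : Continuous f) (hh : Continuous h)
    (hd : ∀ v, HasDerivAt (fun θ : ℝ => f (c.w θ * v)) (h v) 0) :
    ∫ v, h v ∂(haarProb n) = 0 := by
  have hder : ∀ θ v, HasDerivAt (fun θ : ℝ => f (c.w θ * v)) (h (c.w θ * v)) θ := by
    intro θ v
    have h4 := hasDerivAt_shift θ (hd (c.w θ * v))
    refine h4.congr_of_eventuallyEq (Filter.Eventually.of_forall fun s => ?_)
    simp only
    rw [← mul_assoc, ← c.add]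
    simp
  have h1 := hasDerivAt_haar_integral (n := n) (f := fun θ v => f (c.w θ * v))
    (f' := fun θ v => h (c.w θ * v)) 0 hder
    (fun θ => hf.comp (continuous_const.mul continuous_id))
    (hh.comp ((c.cont.comp continuous_fst).mul continuous_snd))
  have h2 : (fun θ => ∫ u, f (c.w θ * u) ∂(haarProb n)) = fun _ => ∫ u, f u ∂(haarProb n) := by
    funext θ
    exact integral_left f (c.w θ)
  rw [h2] at h1
  have h3 := h1.unique (hasDerivAt_const (0:ℝ) (∫ u, f u ∂(haarProb n)))
  simpa [c.zero] using h3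

/-- Haar integrals of derivatives along right translations vanish. -/
theorem integral_deriv_right {X : Matrix n n ℂ} (c : UCurve X)
    {f h : Matrix.unitaryGroup n ℂ → ℂ} (hf : Continuous f) (hh : Continuous h)
    (hd : ∀ v, HasDerivAt (fun θ : ℝ => f (v * c.w θ)) (h v) 0) :
    ∫ v, h v ∂(haarProb n) = 0 := by
  have hder : ∀ θ v, HasDerivAt (fun θ : ℝ => f (v * c.w θ)) (h (v * c.w θ)) θ := by
    intro θ v
    have h4 := hasDerivAt_shift θ (hd (v * c.w θ))
    refine h4.congr_of_eventuallyEq (Filter.Eventually.of_forall fun s => ?_)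
    simp only
    rw [mul_assoc, ← c.add]
    simp
  have h1 := hasDerivAt_haar_integral (n := n) (f := fun θ v => f (v * c.w θ))
    (f' := fun θ v => h (v * c.w θ)) 0 hder
    (fun θ => hf.comp (continuous_id.mul continuous_const))
    (hh.comp (continuous_snd.mul (c.cont.comp continuous_fst)))
  have h2 : (fun θ => ∫ u, f (u * c.w θ) ∂(haarProb n)) = fun _ => ∫ u, f u ∂(haarProb n) := by
    funext θ
    exact integral_right f (c.w θ)
  rw [h2] at h1
  have h3 := h1.unique (hasDerivAt_const (0:ℝ) (∫ u, f u ∂(haarProb n)))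
  simpa [c.zero] using h3

/-- The curve `θ ↦ V diag(exp (θ c)) V†`. -/
noncomputable def specCurve (V : Matrix.unitaryGroup n ℂ) (c : n → ℂ) (θ : ℝ) : Matrix n n ℂ :=
  V.1 * diagonal (fun i => Complex.exp (θ * c i)) * V.1ᴴ

theorem specCurve_zero (V : Matrix.unitaryGroup n ℂ) (c : n → ℂ) : specCurve V c 0 = 1 := by
  have h : V.1 * V.1ᴴ = 1 := by
    simpa [Matrix.star_eq_conjTranspose] using Matrix.mem_unitaryGroup_iff.mp V.2
  simp [specCurve, h]

theorem unitary_mul_conjTranspose (V : Matrix.unitaryGroup n ℂ) : V.1 * V.1ᴴ = 1 := by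
  simpa [Matrix.star_eq_conjTranspose] using Matrix.mem_unitaryGroup_iff.mp V.2

theorem unitary_conjTranspose_mul (V : Matrix.unitaryGroup n ℂ) : V.1ᴴ * V.1 = 1 := by
  simpa [Matrix.star_eq_conjTranspose] using Matrix.mem_unitaryGroup_iff'.mp V.2

theorem specCurve_add (V : Matrix.unitaryGroup n ℂ) (c : n → ℂ) (s t : ℝ) :
    specCurve V c (s + t) = specCurve V c s * specCurve V c t := by
  have h := unitary_conjTranspose_mul V
  unfold specCurve
  calc V.1 * diagonal (fun i => Complex.exp ((s + t : ℝ) * c i)) * V.1ᴴ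
      = V.1 * (diagonal (fun i => Complex.exp (s * c i)) *
          diagonal (fun i => Complex.exp (t * c i))) * V.1ᴴ := by
        rw [diagonal_mul_diagonal]
        congr 3
        funext i
        rw [← Complex.exp_add]
        congr 1
        push_cast
        ring
    _ = V.1 * diagonal (fun i => Complex.exp (s * c i)) * (V.1ᴴ * V.1) *
          diagonal (fun i => Complex.exp (t * c i)) * V.1ᴴ := by
        rw [h]; simp only [Matrix.mul_one, Matrix.mul_assoc]
    _ = _ := by simp only [Matrix.mul_assoc]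

theorem specCurve_deriv (V : Matrix.unitaryGroup n ℂ) (c : n → ℂ) (x : ℝ) :
    MDeriv (specCurve V c) ((V.1 * diagonal c * V.1ᴴ) * specCurve V c x) x := by
  have h := unitary_conjTranspose_mul V
  have hd : MDeriv (fun θ : ℝ => diagonal (fun i => Complex.exp (θ * c i)))
      (diagonal c * diagonal (fun i => Complex.exp (x * c i))) x := by
    intro i j
    by_cases hij : i = j
    · subst hij
      simp only [diagonal_apply_eq, diagonal_mul_diagonal]
      have h1 : HasDerivAt (fun θ : ℝ => (θ : ℂ) * c i) (1 * c i) x :=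
        (Complex.ofRealCLM.hasDerivAt (x := x)).mul_const (c i)
      have h2 := h1.cexp
      simpa [mul_comm] using h2
    · simp only [diagonal_mul_diagonal, diagonal_apply_ne _ hij]
      exact hasDerivAt_const _ _
  have h2 := (hd.const_mul V.1).mul_const V.1ᴴ
  have h3 : V.1 * (diagonal c * diagonal (fun i => Complex.exp (x * c i))) * V.1ᴴ =
      (V.1 * diagonal c * V.1ᴴ) * specCurve V c x := by
    unfold specCurve
    calc V.1 * (diagonal c * diagonal (fun i => Complex.exp (x * c i))) * V.1ᴴ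
        = V.1 * diagonal c * (V.1ᴴ * V.1) * diagonal (fun i => Complex.exp (x * c i)) * V.1ᴴ := by
          rw [h]; simp only [Matrix.mul_one, Matrix.mul_assoc]
      _ = _ := by simp only [Matrix.mul_assoc]
  rw [h3] at h2
  exact h2

theorem specCurve_conjTranspose (V : Matrix.unitaryGroup n ℂ) (c : n → ℂ) (θ : ℝ) :
    (specCurve V c θ)ᴴ = specCurve V (fun i => conj (c i)) θ := by
  unfold specCurve
  rw [conjTranspose_mul, conjTranspose_mul, conjTranspose_conjTranspose,
    diagonal_conjTranspose, Matrix.mul_assoc]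
  congr 3
  funext i
  simp only [Pi.star_apply, RCLike.star_def, ← Complex.exp_conj, map_mul, Complex.conj_ofReal]

theorem specCurve_continuous (V : Matrix.unitaryGroup n ℂ) (c : n → ℂ) :
    Continuous (specCurve V c) := by
  refine continuous_matrix fun i j => ?_
  exact continuous_iff_continuousAt.mpr fun x => (specCurve_deriv V c x i j).continuousAt

theorem exists_spectral {H : Matrix n n ℂ} (hH : H.IsHermitian) :
    ∃ (V : Matrix.unitaryGroup n ℂ) (l : n → ℝ),
      H = V.1 * diagonal (fun i => (l i : ℂ)) * V.1ᴴ ∧ (H.PosDef → ∀ i, 0 < l i) := by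
  refine ⟨hH.eigenvectorUnitary, hH.eigenvalues, ?_, fun hp i => hp.eigenvalues_pos i⟩
  have h := hH.spectral_theorem
  simpa [Unitary.conjStarAlgAut_apply, Function.comp_def, Matrix.star_eq_conjTranspose] using h

/-- Positive definite matrices lie on one-parameter groups of positive matrices. -/
theorem exists_logCurve {M : Matrix n n ℂ} (hM : M.PosDef) :
    ∃ (V : Matrix.unitaryGroup n ℂ) (c : n → ℝ), specCurve V (fun i => (c i : ℂ)) 1 = M := by
  obtain ⟨V, l, hVl, hl⟩ := exists_spectral hM.1
  have hl := hl hM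
  refine ⟨V, fun i => Real.log (l i), ?_⟩
  rw [hVl]
  unfold specCurve
  congr 3
  funext i
  simp only [Complex.ofReal_one, one_mul]
  rw [← Complex.ofReal_exp, Real.exp_log (hl i)]

/-- Hermitian invertible square roots of positive definite matrices. -/
theorem exists_sqrt {M : Matrix n n ℂ} (hM : M.PosDef) :
    ∃ P Q : Matrix n n ℂ, Pᴴ = P ∧ P * P = M ∧ P * Q = 1 ∧ Q * P = 1 ∧ Qᴴ = Q := by
  obtain ⟨V, c, hc⟩ := exists_logCurve hM
  have hH : ∀ θ : ℝ, (specCurve V (fun i => (c i : ℂ)) θ)ᴴ =
      specCurve V (fun i => (c i : ℂ)) θ := by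
    intro θ
    rw [specCurve_conjTranspose]
    simp
  refine ⟨specCurve V (fun i => (c i : ℂ)) (1/2), specCurve V (fun i => (c i : ℂ)) (-(1/2)),
    hH _, ?_, ?_, ?_, hH _⟩
  · rw [← specCurve_add, ← hc]; norm_num
  · rw [← specCurve_add]; simp [specCurve_zero]
  · rw [← specCurve_add]; simp [specCurve_zero]

/-- Every skew-Hermitian matrix generates a one-parameter group of unitary matrices. -/
theorem exists_ucurve {X : Matrix n n ℂ} (hX : Xᴴ = -X) : Nonempty (UCurve X) := by
  have hH : (-Complex.I • X).IsHermitian := by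
    unfold Matrix.IsHermitian
    rw [conjTranspose_smul, hX]
    simp
  obtain ⟨V, l, hVl, -⟩ := exists_spectral hH
  set c : n → ℂ := fun i => Complex.I * (l i : ℂ) with hc
  have hXc : V.1 * diagonal c * V.1ᴴ = X := by
    have h1 : diagonal c = Complex.I • diagonal (fun i => (l i : ℂ)) := by
      ext i j
      by_cases hij : i = j
      · subst hij; simp [hc]
      · simp [diagonal_apply_ne _ hij]
    rw [h1, Matrix.mul_smul, Matrix.smul_mul, ← hVl, smul_smul]
    simp
  have hstar : ∀ θ : ℝ, (specCurve V c θ)ᴴ = specCurve V c (-θ) := by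
    intro θ
    rw [specCurve_conjTranspose]
    unfold specCurve
    congr 3
    funext i
    congr 1
    simp [hc]
  have hmem : ∀ θ : ℝ, specCurve V c θ ∈ Matrix.unitaryGroup n ℂ := by
    intro θ
    rw [Matrix.mem_unitaryGroup_iff, Matrix.star_eq_conjTranspose, hstar, ← specCurve_add]
    simp [specCurve_zero]
  refine ⟨⟨fun θ => ⟨specCurve V c θ, hmem θ⟩, ?_, ?_, ?_, ?_⟩⟩
  · exact Subtype.ext (specCurve_zero V c)
  · intro s t
    exact Subtype.ext (specCurve_add V c s t)
  · intro x
    have := specCurve_deriv V c x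
    rwa [hXc] at this
  · exact (specCurve_continuous V c).subtype_mk _

/-- A linear map vanishing on skew-Hermitian matrices (with rows and columns supported in
`s`) vanishes on all matrices supported in `s`. -/
theorem eq_zero_of_skew {V : Type*} [AddCommGroup V] [Module ℂ V]
    (I : Matrix n n ℂ →ₗ[ℂ] V) (P : Matrix n n ℂ → Prop)
    (hP1 : ∀ X Y, P X → P Y → P (X + Y)) (hP2 : ∀ (c : ℂ) X, P X → P (c • X))
    (hP3 : ∀ X, P X → P Xᴴ)
    (h : ∀ X, Xᴴ = -X → P X → I X = 0) (X : Matrix n n ℂ) (hX : P X) : I X = 0 := by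
  set A : Matrix n n ℂ := (1/2 : ℂ) • (X + (-1 : ℂ) • Xᴴ) with hA
  set B : Matrix n n ℂ := (-Complex.I / 2) • (X + Xᴴ) with hB
  have hAs : Aᴴ = -A := by
    rw [hA]
    simp only [conjTranspose_smul, conjTranspose_add, conjTranspose_conjTranspose]
    ext i j
    simp
    ring
  have hBs : Bᴴ = -B := by
    rw [hB]
    simp only [conjTranspose_smul, conjTranspose_add, conjTranspose_conjTranspose]
    ext i j
    simp
    ring
  have hsum : X = A + Complex.I • B := by
    rw [hA, hB]
    ext i j
    simp only [Matrix.add_apply, Matrix.smul_apply, smul_eq_mul, conjTranspose_apply]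
    have := Complex.I_mul_I
    linear_combination (1/2 : ℂ) * (X i j + star (X j i)) * this
  have hPA : P A := hP2 _ _ (hP1 _ _ hX (hP2 _ _ (hP3 _ hX)))
  have hPB : P B := hP2 _ _ (hP1 _ _ hX (hP3 _ hX))
  clear_value A B
  rw [hsum, map_add I, map_smul I, h A hAs hPA, h B hBs hPB]
  simp

end Pool.Agent.Helper49_Channels
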