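import Pool.Agent.Helper49_Channels.Q1Star2
import Pool.Agent.Helper49_Channels.MomentTwo

/-!
# Reduction of Q1 of MP_a4cf75_mp to a moment inequality
-/

open MeasureTheory Matrix TopologicalSpace
open scoped Kronecker ComplexConjugate ComplexOrder

namespace Pool.Agent.Helper49_Channels

set_option linter.unusedSectionVars false

variable {d : ℕ}

section tpow

variable {X : Type} [Fintype X] [DecidableEq X]

/-- Entrywise tensor power of a matrix. -/
def tpow (t : ℕ) (C : Matrix X X ℂ) : Matrix (Fin t → X) (Fin t → X) ℂ :=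
  Matrix.of fun a b => ∏ s, C (a s) (b s)

theorem tpow_mul (t : ℕ) (C D : Matrix X X ℂ) : tpow t (C * D) = tpow t C * tpow t D := by
  ext a b
  simp only [tpow, Matrix.of_apply, Matrix.mul_apply]
  rw [Finset.prod_univ_sum, Fintype.piFinset_univ]
  simp only [Finset.prod_mul_distrib]

theorem tpow_conjTranspose (t : ℕ) (C : Matrix X X ℂ) : (tpow t C)ᴴ = tpow t Cᴴ := by
  ext a b
  simp only [tpow, Matrix.of_apply, conjTranspose_apply, star_prod]

theorem tpow_one (t : ℕ) : tpow t (1 : Matrix X X ℂ) = 1 := by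
  ext a b
  simp only [tpow, Matrix.of_apply, Matrix.one_apply]
  by_cases h : a = b
  · subst h; simp
  · rw [if_neg h]
    obtain ⟨s, hs⟩ := Function.ne_iff.mp h
    exact Finset.prod_eq_zero (Finset.mem_univ s) (if_neg hs)

theorem tpow_trace (t : ℕ) (C : Matrix X X ℂ) : (tpow t C).trace = C.trace ^ t := by
  simp only [tpow, Matrix.trace, diag_apply, of_apply]
  rw [Fintype.sum_pow]

theorem tpow_continuous {Y : Type*} [TopologicalSpace Y] (t : ℕ) {C : Y → Matrix X X ℂ}
    (hC : Continuous C) : Continuous fun y => tpow t (C y) := by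
  refine continuous_matrix fun a b => ?_
  show Continuous fun y => ∏ s, C y (a s) (b s)
  exact continuous_finsetProd _ fun s _ => hC.matrix_elem _ _

end tpow

/-- The matrix of `X ↦ ∑ m, K m X (K m)†` in the basis of matrix units. -/
def Cm {E : Type} [Fintype E] (K : E → Matrix (Fin d) (Fin d) ℂ) :
    Matrix (Fin d × Fin d) (Fin d × Fin d) ℂ :=
  Matrix.of fun a b => ∑ m, K m a.1 b.1 * conj (K m a.2 b.2)

theorem Cm_mul {E F : Type} [Fintype E] [Fintype F] (K : E → Matrix (Fin d) (Fin d) ℂ)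
    (L : F → Matrix (Fin d) (Fin d) ℂ) :
    Cm (fun p : E × F => K p.1 * L p.2) = Cm K * Cm L := by
  ext a b
  simp only [Cm, Matrix.of_apply, Matrix.mul_apply, Fintype.sum_prod_type, map_sum, map_mul,
    Finset.sum_mul_sum]
  have h1 : ∀ (x : E) (y : F),
      ∑ i, ∑ j, K x a.1 i * L y i b.1 * (conj (K x a.2 j) * conj (L y j b.2)) =
      ∑ i, ∑ j, K x a.1 i * conj (K x a.2 j) * (L y i b.1 * conj (L y j b.2)) := by
    intro x y
    refine Finset.sum_congr rfl fun i _ => Finset.sum_congr rfl fun j _ => ?_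
    ring
  simp only [h1]
  calc ∑ x, ∑ y, ∑ i, ∑ j, K x a.1 i * conj (K x a.2 j) * (L y i b.1 * conj (L y j b.2))
      = ∑ x, ∑ i, ∑ j, ∑ y, K x a.1 i * conj (K x a.2 j) * (L y i b.1 * conj (L y j b.2)) := by
        refine Finset.sum_congr rfl fun x _ => ?_
        rw [Finset.sum_comm]
        refine Finset.sum_congr rfl fun i _ => ?_
        rw [Finset.sum_comm]
    _ = ∑ i, ∑ j, ∑ x, ∑ y, K x a.1 i * conj (K x a.2 j) * (L y i b.1 * conj (L y j b.2)) := by
        rw [Finset.sum_comm]
        refine Finset.sum_congr rfl fun i _ => ?_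
        rw [Finset.sum_comm]

theorem Cm_conjTranspose {E : Type} [Fintype E] (K : E → Matrix (Fin d) (Fin d) ℂ) :
    (Cm K)ᴴ = Cm fun m => (K m)ᴴ := by
  ext a b
  simp only [Cm, Matrix.of_apply, conjTranspose_apply, star_sum]
  refine Finset.sum_congr rfl fun m _ => ?_
  rw [star_mul']
  rfl

theorem Cm_trace {E : Type} [Fintype E] (K : E → Matrix (Fin d) (Fin d) ℂ) :
    (Cm K).trace = ((∑ m, ‖(K m).trace‖ ^ 2 : ℝ) : ℂ) := by
  simp only [Cm, Matrix.trace, diag_apply, of_apply, Fintype.sum_prod_type]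
  push_cast
  have h1 : ∀ m, ((‖∑ i, K m i i‖ : ℝ) : ℂ) ^ 2 = ∑ i, ∑ j, K m i i * conj (K m j j) := by
    intro m
    rw [← Complex.mul_conj', map_sum, Finset.sum_mul_sum]
  simp only [h1]
  calc ∑ i, ∑ j, ∑ m, K m i i * conj (K m j j) = ∑ i, ∑ m, ∑ j, K m i i * conj (K m j j) := by
        refine Finset.sum_congr rfl fun i _ => ?_
        rw [Finset.sum_comm]
    _ = ∑ m, ∑ i, ∑ j, K m i i * conj (K m j j) := by rw [Finset.sum_comm]

theorem Cm_one : Cm (fun _ : Unit => (1 : Matrix (Fin d) (Fin d) ℂ)) = 1 := by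
  ext a b
  simp only [Cm, Matrix.of_apply, Finset.univ_unique, Finset.sum_singleton, Matrix.one_apply]
  by_cases h1 : a.1 = b.1
  · by_cases h2 : a.2 = b.2
    · have : a = b := Prod.ext h1 h2
      simp [this]
    · have : a ≠ b := fun h => h2 (by rw [h])
      simp [h2, this]
  · have : a ≠ b := fun h => h1 (by rw [h])
    simp [h1, this]

theorem Cm_continuous {Y : Type*} [TopologicalSpace Y] {E : Type} [Fintype E]
    {K : Y → E → Matrix (Fin d) (Fin d) ℂ} (hK : ∀ m, Continuous fun y => K y m) :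
    Continuous fun y => Cm (K y) := by
  refine continuous_matrix fun a b => ?_
  refine continuous_finsetSum _ fun m _ => ?_
  exact ((hK m).matrix_elem _ _).mul (Complex.continuous_conj.comp ((hK m).matrix_elem _ _))

section gint

variable {n κ : Type} [Fintype n] [DecidableEq n] [Fintype κ] [DecidableEq κ]

/-- Entrywise Haar integral of a matrix-valued function on `U(n)`. -/
noncomputable def gint (F : Matrix.unitaryGroup n ℂ → Matrix κ κ ℂ) : Matrix κ κ ℂ :=
  Matrix.of fun x y => ∫ u, F u x y ∂(haarProb n)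

variable {F : Matrix.unitaryGroup n ℂ → Matrix κ κ ℂ}

theorem gint_mul_left (hF : Continuous F) (A : Matrix κ κ ℂ) :
    gint (fun u => A * F u) = A * gint F := by
  ext x y
  simp only [gint, of_apply, Matrix.mul_apply]
  rw [integral_finsetSum _ fun c _ =>
    (integrable_of_continuous (hF.matrix_elem c y)).const_mul _]
  simp only [integral_const_mul]

theorem gint_mul_right (hF : Continuous F) (A : Matrix κ κ ℂ) :
    gint (fun u => F u * A) = gint F * A := by
  ext x y
  simp only [gint, of_apply, Matrix.mul_apply]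
  rw [integral_finsetSum _ fun c _ =>
    (integrable_of_continuous (hF.matrix_elem x c)).mul_const _]
  simp only [integral_mul_const]

theorem gint_left (F : Matrix.unitaryGroup n ℂ → Matrix κ κ ℂ)
    (w : Matrix.unitaryGroup n ℂ) : gint (fun u => F (w * u)) = gint F := by
  ext x y
  exact integral_left (fun u => F u x y) w

theorem gint_const (A : Matrix κ κ ℂ) : gint (n := n) (fun _ => A) = A := by
  ext x y
  simp [gint]

theorem gint_trace (hF : Continuous F) :
    (gint F).trace = ∫ u, (F u).trace ∂(haarProb n) := by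
  simp only [gint, Matrix.trace, diag_apply, of_apply]
  rw [integral_finsetSum _ fun x _ => integrable_of_continuous (hF.matrix_elem x x)]

theorem gint_conjTranspose (F : Matrix.unitaryGroup n ℂ → Matrix κ κ ℂ) :
    (gint F)ᴴ = gint fun u => (F u)ᴴ := by
  ext x y
  simp only [gint, of_apply, conjTranspose_apply]
  exact (integral_conj (f := fun u => F u y x) (μ := haarProb n)).symm

/-- Convexity of the squared Hilbert-Schmidt norm. -/
theorem hsSq_gint_le (hF : Continuous F) : hsSq (gint F) ≤ ∫ u, hsSq (F u) ∂(haarProb n) := by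
  unfold hsSq
  have hc : ∀ x y, Continuous fun u => ‖F u x y‖ ^ 2 := fun x y =>
    ((hF.matrix_elem x y).norm).pow 2
  rw [integral_finsetSum _ fun x _ => integrable_finsetSum _ fun y _ =>
    integrable_of_continuous (hc x y)]
  refine Finset.sum_le_sum fun x _ => ?_
  rw [integral_finsetSum _ fun y _ => integrable_of_continuous (hc x y)]
  refine Finset.sum_le_sum fun y _ => ?_
  have hconv : ConvexOn ℝ Set.univ (fun z : ℂ => ‖z‖ ^ 2) :=
    (convexOn_univ_norm).pow (fun _ _ => norm_nonneg _) 2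
  exact hconv.map_integral_le (continuous_norm.pow 2).continuousOn isClosed_univ
    (Filter.Eventually.of_forall fun _ => Set.mem_univ _)
    (integrable_of_continuous (hF.matrix_elem x y)) (integrable_of_continuous (hc x y))

theorem hsSq_trace (A : Matrix κ κ ℂ) : (A * Aᴴ).trace = ((hsSq A : ℝ) : ℂ) := by
  unfold hsSq
  simp only [Matrix.trace, Matrix.diag_apply, Matrix.mul_apply, conjTranspose_apply]
  push_cast
  refine Finset.sum_congr rfl fun i _ => Finset.sum_congr rfl fun j _ => ?_
  have := Complex.mul_conj' (A i j)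
  rw [← this]; rfl

end gint

/-- The Haar moment operator. -/
noncomputable def T0 (t d : ℕ) : Matrix (Fin t → Fin d × Fin d) (Fin t → Fin d × Fin d) ℂ :=
  gint fun u : Matrix.unitaryGroup (Fin d) ℂ => tpow t (Cm fun _ : Unit => u.1)

theorem T0_integrand_continuous (t d : ℕ) :
    Continuous fun u : Matrix.unitaryGroup (Fin d) ℂ => tpow t (Cm fun _ : Unit => u.1) :=
  tpow_continuous t (Cm_continuous fun _ => continuous_val)

/-- The squared Hilbert-Schmidt norm of a Haar-averaged channel. -/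
theorem hsSq_T0_mul (t : ℕ) {E : Type} [Fintype E] (K : E → Matrix (Fin d) (Fin d) ℂ) :
    hsSq (T0 t d * tpow t (Cm K)) =
      ∫ u, (∑ p : E × E, ‖(u.1 * (K p.1 * (K p.2)ᴴ)).trace‖ ^ 2) ^ t ∂(haarProb (Fin d)) := by
  have hmulC : ∀ u v : Matrix.unitaryGroup (Fin d) ℂ,
      tpow t (Cm fun _ : Unit => u.1) * tpow t (Cm fun _ : Unit => v.1) =
        tpow t (Cm fun _ : Unit => (u * v).1) := by
    intro u v
    rw [← tpow_mul, ← Cm_mul]
    congr 1
  have h1 : (T0 t d)ᴴ * T0 t d = T0 t d := by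
    have hl : ∀ v : Matrix.unitaryGroup (Fin d) ℂ,
        tpow t (Cm fun _ : Unit => v.1) * T0 t d = T0 t d := by
      intro v
      unfold T0
      rw [← gint_mul_left (T0_integrand_continuous t d)]
      simp only [hmulC]
      exact gint_left (fun u : Matrix.unitaryGroup (Fin d) ℂ =>
        tpow t (Cm fun _ : Unit => u.1)) v
    have h2 : (T0 t d)ᴴ = gint fun u : Matrix.unitaryGroup (Fin d) ℂ =>
        tpow t (Cm fun _ : Unit => (u⁻¹).1) := by
      unfold T0
      rw [gint_conjTranspose]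
      congr 1
      funext u
      rw [tpow_conjTranspose, Cm_conjTranspose]
      rfl
    rw [h2, ← gint_mul_right]
    · simp only [hl]
      exact gint_const _
    · exact tpow_continuous t (Cm_continuous fun _ => continuous_val.comp continuous_inv)
  have h2 : ((hsSq (T0 t d * tpow t (Cm K)) : ℝ) : ℂ) =
      (T0 t d * (tpow t (Cm K) * (tpow t (Cm K))ᴴ)).trace := by
    rw [← hsSq_trace, conjTranspose_mul]
    calc (T0 t d * tpow t (Cm K) * ((tpow t (Cm K))ᴴ * (T0 t d)ᴴ)).trace
        = ((T0 t d)ᴴ * (T0 t d * tpow t (Cm K) * (tpow t (Cm K))ᴴ)).trace := by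
          rw [← Matrix.mul_assoc, Matrix.trace_mul_comm]
      _ = ((T0 t d)ᴴ * T0 t d * (tpow t (Cm K) * (tpow t (Cm K))ᴴ)).trace := by
          simp only [Matrix.mul_assoc]
      _ = _ := by rw [h1]
  have h3 : tpow t (Cm K) * (tpow t (Cm K))ᴴ =
      tpow t (Cm fun p : E × E => K p.1 * (K p.2)ᴴ) := by
    rw [tpow_conjTranspose, ← tpow_mul, Cm_conjTranspose, ← Cm_mul]
  have hc := T0_integrand_continuous t d
  have h4 : ((hsSq (T0 t d * tpow t (Cm K)) : ℝ) : ℂ) =
      ((∫ u, (∑ p : E × E, ‖(u.1 * (K p.1 * (K p.2)ᴴ)).trace‖ ^ 2) ^ t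
        ∂(haarProb (Fin d)) : ℝ) : ℂ) := by
    rw [h2, h3]
    unfold T0
    rw [← gint_mul_right hc, gint_trace (hc.matrix_mul continuous_const),
      ← integral_complex_ofReal]
    refine integral_congr_ae (Filter.Eventually.of_forall fun u => ?_)
    simp only
    rw [← tpow_mul, ← Cm_mul, tpow_trace, Cm_trace]
    simp only [Fintype.sum_prod_type, Finset.univ_unique, Finset.sum_singleton]
    push_cast
    rfl
  exact_mod_cast h4

/-- The Haar moment operator has squared norm `E |Tr u|^{2t}`. -/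
theorem hsSq_T0 (t d : ℕ) : hsSq (T0 t d) = Dmom d t := by
  have h := hsSq_T0_mul (d := d) t (fun _ : Unit => (1 : Matrix (Fin d) (Fin d) ℂ))
  rw [Cm_one, tpow_one, Matrix.mul_one] at h
  rw [h]
  unfold Dmom
  refine integral_congr_ae (Filter.Eventually.of_forall fun u => ?_)
  simp [pow_mul]

/-- Jensen's inequality combined with `star_ineq`. -/
theorem jensen_star (hd : 1 ≤ d) (t : ℕ) {F : Type} [Fintype F]
    (A : F → Matrix (Fin d) (Fin d) ℂ) (hA : ∑ c, hsSq (A c) = d) :
    ∫ u, (∑ c, ‖(u.1 * A c).trace‖ ^ 2) ^ t ∂(haarProb (Fin d)) ≤ Dmom d t := by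
  have hd0 : (0 : ℝ) < d := by exact_mod_cast hd
  set p : F → ℝ := fun c => hsSq (A c) / d with hp
  have hn : ∀ c, 0 ≤ hsSq (A c) := fun c =>
    Finset.sum_nonneg fun _ _ => Finset.sum_nonneg fun _ _ => by positivity
  have hp0 : ∀ c, 0 ≤ p c := fun c => div_nonneg (hn c) hd0.le
  have hp1 : ∑ c, p c = 1 := by
    rw [hp, ← Finset.sum_div, hA, div_self hd0.ne']
  have hz : ∀ c, p c = 0 → ∀ u : Matrix.unitaryGroup (Fin d) ℂ, ‖(u.1 * A c).trace‖ ^ 2 = 0 := by
    intro c hc u
    have h1 : hsSq (A c) = 0 := by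
      have := (div_eq_zero_iff.mp hc).resolve_right hd0.ne'
      exact this
    have h2 : A c = 0 := by
      ext i j
      unfold hsSq at h1
      have h3 := (Finset.sum_eq_zero_iff_of_nonneg (fun i _ =>
        Finset.sum_nonneg fun j _ => by positivity)).mp h1 i (Finset.mem_univ i)
      have h4 := (Finset.sum_eq_zero_iff_of_nonneg (fun j _ => by positivity)).mp h3 j
        (Finset.mem_univ j)
      simpa using h4
    rw [h2]
    simp
  have hpt : ∀ u : Matrix.unitaryGroup (Fin d) ℂ,
      (∑ c, ‖(u.1 * A c).trace‖ ^ 2) ^ t ≤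
        ∑ c, p c * (‖(u.1 * A c).trace‖ ^ (2 * t) / p c ^ t) := by
    intro u
    have h1 : ∑ c, ‖(u.1 * A c).trace‖ ^ 2 =
        ∑ c, p c * (‖(u.1 * A c).trace‖ ^ 2 / p c) := by
      refine Finset.sum_congr rfl fun c _ => ?_
      by_cases hc : p c = 0
      · rw [hz c hc u, hc]; simp
      · field_simp
    rw [h1]
    refine (Real.pow_arith_mean_le_arith_mean_pow Finset.univ p
      (fun c => ‖(u.1 * A c).trace‖ ^ 2 / p c) (fun c _ => hp0 c) hp1
      (fun c _ => div_nonneg (by positivity) (hp0 c)) t).trans (le_of_eq ?_)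
    refine Finset.sum_congr rfl fun c _ => ?_
    rw [div_pow, ← pow_mul]
  have hci : ∀ c, Integrable (fun u : Matrix.unitaryGroup (Fin d) ℂ =>
      p c * (‖(u.1 * A c).trace‖ ^ (2 * t) / p c ^ t)) (haarProb (Fin d)) := fun c =>
    integrable_of_continuous (continuous_const.mul ((continuous_trace_pow t (A c)).div_const _))
  have h5 : ∫ u, (∑ c, ‖(u.1 * A c).trace‖ ^ 2) ^ t ∂(haarProb (Fin d)) ≤
      ∫ u, ∑ c, p c * (‖(u.1 * A c).trace‖ ^ (2 * t) / p c ^ t) ∂(haarProb (Fin d)) := by
    refine integral_mono ?_ (integrable_finsetSum _ fun c _ => hci c) hpt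
    refine integrable_of_continuous ?_
    refine Continuous.pow (continuous_finsetSum _ fun c _ => ?_) t
    exact ((continuous_val.matrix_mul continuous_const).matrix_trace.norm).pow 2
  refine h5.trans ?_
  rw [integral_finsetSum _ fun c _ => hci c]
  calc ∑ c, ∫ u, p c * (‖(u.1 * A c).trace‖ ^ (2 * t) / p c ^ t) ∂(haarProb (Fin d))
      ≤ ∑ c, p c * Dmom d t := by
        refine Finset.sum_le_sum fun c _ => ?_
        rw [integral_const_mul, integral_div]
        refine mul_le_mul_of_nonneg_left ?_ (hp0 c)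
        rcases (hp0 c).eq_or_lt with h0 | h0
        · rcases Nat.eq_zero_or_pos t with rfl | ht
          · simp [Dmom]
          · rw [← h0, zero_pow (by omega), div_zero]
            exact Dmom_nonneg d t
        · rw [div_le_iff₀ (by positivity)]
          exact star_ineq hd t (A c)
    _ = Dmom d t := by rw [← Finset.sum_mul, hp1, one_mul]

/-- The norms of the products `K m (K m')†` of Kraus operators. -/
theorem kraus_norm {E : Type} [Fintype E] (K : E → Matrix (Fin d) (Fin d) ℂ)
    (hK : ∑ m, (K m)ᴴ * K m = 1) :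
    ∑ p : E × E, hsSq (K p.1 * (K p.2)ᴴ) = d := by
  have h : ((∑ p : E × E, hsSq (K p.1 * (K p.2)ᴴ) : ℝ) : ℂ) = (d : ℂ) := by
    push_cast
    simp only [← hsSq_eq_trace, Fintype.sum_prod_type, conjTranspose_mul,
      conjTranspose_conjTranspose]
    have h1 : ∀ m m', (K m * (K m')ᴴ * (K m' * (K m)ᴴ)).trace =
        ((K m)ᴴ * K m * ((K m')ᴴ * K m')).trace := by
      intro m m'
      calc (K m * (K m')ᴴ * (K m' * (K m)ᴴ)).trace
          = ((K m * (K m')ᴴ * K m') * (K m)ᴴ).trace := by simp only [Matrix.mul_assoc]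
        _ = ((K m)ᴴ * (K m * (K m')ᴴ * K m')).trace := Matrix.trace_mul_comm _ _
        _ = _ := by simp only [Matrix.mul_assoc]
    simp only [h1]
    have h2 : ∑ x, ∑ y, ((K x)ᴴ * K x * ((K y)ᴴ * K y)).trace =
        ((∑ x, (K x)ᴴ * K x) * (∑ y, (K y)ᴴ * K y)).trace := by
      rw [Finset.sum_mul_sum, Matrix.trace_sum]
      refine Finset.sum_congr rfl fun x _ => ?_
      rw [Matrix.trace_sum]
    rw [h2, hK, Matrix.mul_one, Matrix.trace_one, Fintype.card_fin]
  exact_mod_cast h

theorem hsSq_T0_mul_le (hd : 1 ≤ d) (t : ℕ) {E : Type} [Fintype E]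
    (K : E → Matrix (Fin d) (Fin d) ℂ) (hK : ∑ m, (K m)ᴴ * K m = 1) :
    hsSq (T0 t d * tpow t (Cm K)) ≤ Dmom d t := by
  rw [hsSq_T0_mul]
  exact jensen_star hd t _ (kraus_norm K hK)

end Pool.Agent.Helper49_Channels
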