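import Pool.Agent.Helper49_Channels.Q1HW

/-!
# Gaussian elimination on `v M v†` (towards Q1 of MP_a4cf75_mp)
-/

open MeasureTheory Matrix TopologicalSpace
open scoped Kronecker ComplexConjugate ComplexOrder

namespace Pool.Agent.Helper49_Channels

set_option linter.unusedSectionVars false

variable {d : ℕ}

open PRep (E)

theorem mul_E_apply (A : Matrix (Fin d) (Fin d) ℂ) (k l a b : Fin d) :
    (A * E k l) a b = if b = l then A a k else 0 := by
  rw [Matrix.mul_apply]
  by_cases h : b = l
  · subst h
    simp [E, single_apply]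
  · rw [if_neg h]
    refine Finset.sum_eq_zero fun c _ => ?_
    simp [E, single_apply, Ne.symm h]

theorem E_mul_apply (A : Matrix (Fin d) (Fin d) ℂ) (k l a b : Fin d) :
    (E k l * A) a b = if a = k then A l b else 0 := by
  rw [Matrix.mul_apply]
  by_cases h : a = k
  · subst h
    simp [E, single_apply]
  · rw [if_neg h]
    refine Finset.sum_eq_zero fun c _ => ?_
    simp [E, single_apply, Ne.symm h]

theorem mul_E_mul_apply (A B : Matrix (Fin d) (Fin d) ℂ) (k l a b : Fin d) :
    (A * E k l * B) a b = A a k * B l b := by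
  rw [Matrix.mul_apply]
  simp [mul_E_apply]

/-- One step of Gaussian elimination (with pivot `k`). -/
noncomputable def elim (k : Fin d) (m : Matrix (Fin d) (Fin d) ℂ) : Matrix (Fin d) (Fin d) ℂ :=
  Matrix.of fun a b => m a b - m a k * m k b * (m k k)⁻¹ + if a = k ∧ b = k then m k k else 0

/-- Row and column number `a`, `a < k`, of `m` are diagonal. -/
def Iso (k : ℕ) (m : Matrix (Fin d) (Fin d) ℂ) : Prop :=
  ∀ a b : Fin d, a ≠ b → ((a : ℕ) < k ∨ (b : ℕ) < k) → m a b = 0

/-- The column vector used in the elimination step. -/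
noncomputable def ycol (k : Fin d) (m : Matrix (Fin d) (Fin d) ℂ) : Matrix (Fin d) (Fin d) ℂ :=
  Matrix.of fun a b => if b = k ∧ a ≠ k then m a k * (m k k)⁻¹ else 0

theorem elim_eq {k : Fin d} {m : Matrix (Fin d) (Fin d) ℂ} (hm : m.IsHermitian)
    (h0 : m k k ≠ 0) :
    elim k m = (1 - ycol k m) * m * (1 - ycol k m)ᴴ := by
  have hre : conj (m k k) = m k k := hm.apply k k
  have h1 : ∀ a b, ((1 - ycol k m) * m) a b =
      m a b - if a = k then 0 else m a k * (m k k)⁻¹ * m k b := by
    intro a b
    rw [Matrix.sub_mul, Matrix.one_mul, Matrix.sub_apply, Matrix.mul_apply]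
    simp only [ycol, of_apply]
    congr 1
    by_cases ha : a = k
    · simp [ha]
    · simp [ha]
  ext a b
  rw [conjTranspose_sub, conjTranspose_one, Matrix.mul_sub, Matrix.mul_one, Matrix.sub_apply, h1,
    Matrix.mul_apply]
  have h2 : ∀ c, ((1 - ycol k m) * m) a c * (ycol k m)ᴴ c b =
      if c = k then (if b = k then 0 else
        (m a k - if a = k then 0 else m a k * (m k k)⁻¹ * m k k) * (m k b * (m k k)⁻¹)) else 0 := by
    intro c
    rw [h1, conjTranspose_apply]
    simp only [ycol, of_apply]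
    by_cases hc : c = k
    · subst hc
      by_cases hb : b = c
      · simp [hb]
      · simp only [true_and, ne_eq, hb, not_false_eq_true, if_true, if_false]
        congr 1
        rw [star_mul', star_inv₀]
        have : star (m b c) = m c b := hm.apply c b
        rw [this]
        have : star (m c c) = m c c := hm.apply c c
        rw [this]
    · simp [hc]
  simp only [h2, Finset.sum_ite_eq', Finset.mem_univ, if_true, elim, of_apply]
  by_cases ha : a = k
  · subst ha
    by_cases hb : b = a
    · subst hb; field_simp; simp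
    · simp only [if_true, hb, and_false, if_false]
      field_simp
      ring
  · by_cases hb : b = k
    · subst hb
      simp only [ha, false_and, if_false, if_true]
      field_simp
      ring
    · simp only [ha, hb, false_and, if_false]
      field_simp
      ring

theorem ycol_sq (k : Fin d) (m : Matrix (Fin d) (Fin d) ℂ) : ycol k m * ycol k m = 0 := by
  ext a b
  simp only [Matrix.mul_apply, ycol, of_apply, Matrix.zero_apply]
  refine Finset.sum_eq_zero fun c _ => ?_
  by_cases hc : c = k
  · simp [hc]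
  · simp [hc]

theorem ycol_unit (k : Fin d) (m : Matrix (Fin d) (Fin d) ℂ) :
    (1 + ycol k m) * (1 - ycol k m) = 1 := by
  simp only [Matrix.add_mul, Matrix.mul_sub, Matrix.one_mul, Matrix.mul_one, ycol_sq]
  abel

theorem ycol_unit' (k : Fin d) (m : Matrix (Fin d) (Fin d) ℂ) :
    (1 - ycol k m) * (1 + ycol k m) = 1 := by
  simp only [Matrix.sub_mul, Matrix.mul_add, Matrix.one_mul, Matrix.mul_one, ycol_sq]
  abel

theorem elim_conj {k : Fin d} {m : Matrix (Fin d) (Fin d) ℂ} (hm : m.IsHermitian)
    (h0 : m k k ≠ 0) : m = (1 + ycol k m) * elim k m * (1 + ycol k m)ᴴ := by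
  rw [elim_eq hm h0]
  have h1 := ycol_unit k m
  have h2 : (1 - ycol k m)ᴴ * (1 + ycol k m)ᴴ = 1 := by
    rw [← conjTranspose_mul, h1, conjTranspose_one]
  calc m = ((1 + ycol k m) * (1 - ycol k m)) * m * ((1 - ycol k m)ᴴ * (1 + ycol k m)ᴴ) := by
        rw [h1, h2]; simp
    _ = _ := by simp only [Matrix.mul_assoc]

theorem posDef_diag_ne {m : Matrix (Fin d) (Fin d) ℂ} (hm : m.PosDef) (k : Fin d) :
    m k k ≠ 0 := (hm.diag_pos (i := k)).ne'

theorem elim_posDef {k : Fin d} {m : Matrix (Fin d) (Fin d) ℂ} (hm : m.PosDef) :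
    (elim k m).PosDef := by
  rw [elim_eq hm.1 (posDef_diag_ne hm k)]
  refine hm.mul_mul_conjTranspose_same ?_
  have hu : IsUnit (1 - ycol k m) :=
    ⟨⟨1 - ycol k m, 1 + ycol k m, ycol_unit' k m, ycol_unit k m⟩, rfl⟩
  exact Matrix.vecMul_injective_of_isUnit hu

theorem elim_iso {k : Fin d} {m : Matrix (Fin d) (Fin d) ℂ} (hm : Iso k m)
    (h0 : m k k ≠ 0) : Iso (k + 1) (elim k m) := by
  intro a b hab h
  simp only [elim, of_apply]
  have hk : ¬(a = k ∧ b = k) := fun ⟨h1, h2⟩ => hab (h1.trans h2.symm)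
  rw [if_neg hk, add_zero]
  by_cases ha : a = k
  · subst ha; field_simp; ring
  by_cases hb : b = k
  · subst hb; field_simp; ring
  have hav : (a : ℕ) ≠ k := fun h => ha (Fin.ext h)
  have hbv : (b : ℕ) ≠ k := fun h => hb (Fin.ext h)
  have h' : (a : ℕ) < k ∨ (b : ℕ) < k := by omega
  rw [hm a b hab h']
  rcases h' with h' | h'
  · rw [hm a k ha (Or.inl h')]; ring
  · rw [hm k b (Ne.symm hb) (Or.inr h')]; ring

/-- A unitary fixing the first `k` basis vectors. -/
def Fixes (k : ℕ) (w : Matrix (Fin d) (Fin d) ℂ) : Prop :=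
  ∀ a b : Fin d, ((a : ℕ) < k ∨ (b : ℕ) < k) → w a b = (1 : Matrix (Fin d) (Fin d) ℂ) a b

theorem elim_equivariant {k : Fin d} {m w : Matrix (Fin d) (Fin d) ℂ}
    (hw : Fixes (k + 1) w) : elim k (w * m * wᴴ) = w * elim k m * wᴴ := by
  have hrow : ∀ b, w k b = (1 : Matrix (Fin d) (Fin d) ℂ) k b := fun b => hw k b (by simp)
  have hcol : ∀ a, w a k = (1 : Matrix (Fin d) (Fin d) ℂ) a k := fun a => hw a k (by simp)
  have hkk : (w * m * wᴴ) k k = m k k := by
    simp [Matrix.mul_apply, conjTranspose_apply, hrow, one_apply]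
  have hak : ∀ a, (w * m * wᴴ) a k = (w * m) a k := by
    intro a
    rw [Matrix.mul_apply]
    simp [conjTranspose_apply, hrow, one_apply]
  have hkb : ∀ b, (w * m * wᴴ) k b = (m * wᴴ) k b := by
    intro b
    rw [Matrix.mul_assoc, Matrix.mul_apply]
    simp [hrow, one_apply]
  have helim : elim k m = m - (m k k)⁻¹ • (m * E k k * m) + (m k k) • E k k := by
    ext a b
    have h1 : (m * E k k * m) a b = m a k * m k b := mul_E_mul_apply m m k k a b
    simp only [elim, of_apply, Matrix.add_apply, Matrix.sub_apply, Matrix.smul_apply, h1,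
      smul_eq_mul, E, single_apply]
    by_cases h : a = k ∧ b = k
    · rw [if_pos h, if_pos ⟨h.1.symm, h.2.symm⟩]; ring
    · rw [if_neg h, if_neg (fun h' => h ⟨h'.1.symm, h'.2.symm⟩)]; ring
  have hwE : w * E k k * wᴴ = E k k := by
    ext a b
    rw [mul_E_mul_apply, conjTranspose_apply, hcol, hcol]
    by_cases ha : a = k
    · subst ha
      by_cases hb : b = a
      · subst hb; simp [E]
      · simp [E, one_apply, hb, Ne.symm hb]
    · simp [E, one_apply, ha, Ne.symm ha]
  rw [helim]
  ext a b
  simp only [elim, of_apply, hkk, hak, hkb]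
  rw [Matrix.mul_add, Matrix.mul_sub, Matrix.add_mul, Matrix.sub_mul, Matrix.mul_smul,
    Matrix.mul_smul, Matrix.smul_mul, Matrix.smul_mul, hwE]
  have h2 : (w * (m * E k k * m) * wᴴ) a b = (w * m) a k * (m * wᴴ) k b := by
    have : w * (m * E k k * m) * wᴴ = (w * m) * E k k * (m * wᴴ) := by
      simp only [Matrix.mul_assoc]
    rw [this, mul_E_mul_apply]
  simp only [Matrix.add_apply, Matrix.sub_apply, Matrix.smul_apply, h2, smul_eq_mul, E,
    single_apply]
  by_cases h : a = k ∧ b = k
  · rw [if_pos h, if_pos ⟨h.1.symm, h.2.symm⟩]; ring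
  · rw [if_neg h, if_neg (fun h' => h ⟨h'.1.symm, h'.2.symm⟩)]; ring

/-- The successive stages of the elimination of `v M v†`. -/
noncomputable def lev (M : Matrix (Fin d) (Fin d) ℂ) :
    ℕ → Matrix.unitaryGroup (Fin d) ℂ → Matrix (Fin d) (Fin d) ℂ
  | 0, v => v.1 * M * v.1ᴴ
  | k + 1, v => if h : k < d then elim ⟨k, h⟩ (lev M k v) else lev M k v

theorem lev_succ (M : Matrix (Fin d) (Fin d) ℂ) (k : Fin d) (v : Matrix.unitaryGroup (Fin d) ℂ) :
    lev M ((k : ℕ) + 1) v = elim k (lev M k v) := by
  simp [lev]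

theorem lev_posDef {M : Matrix (Fin d) (Fin d) ℂ} (hM : M.PosDef) (k : ℕ)
    (v : Matrix.unitaryGroup (Fin d) ℂ) : (lev M k v).PosDef := by
  induction k with
  | zero =>
    refine hM.mul_mul_conjTranspose_same ?_
    have hu : IsUnit v.1 :=
      ⟨⟨v.1, v.1ᴴ, unitary_mul_conjTranspose v, unitary_conjTranspose_mul v⟩, rfl⟩
    exact Matrix.vecMul_injective_of_isUnit hu
  | succ k ih =>
    by_cases h : k < d
    · simp only [lev, dif_pos h]; exact elim_posDef ih
    · simp only [lev, dif_neg h]; exact ih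

theorem lev_iso {M : Matrix (Fin d) (Fin d) ℂ} (hM : M.PosDef) (k : ℕ) (hk : k ≤ d)
    (v : Matrix.unitaryGroup (Fin d) ℂ) : Iso k (lev M k v) := by
  induction k with
  | zero => intro a b _ h; omega
  | succ k ih =>
    have h : k < d := hk
    simp only [lev, dif_pos h]
    exact elim_iso (k := ⟨k, h⟩) (ih h.le) (posDef_diag_ne (lev_posDef hM k v) _)

theorem lev_continuous {M : Matrix (Fin d) (Fin d) ℂ} (hM : M.PosDef) (k : ℕ) :
    Continuous (lev M k) := by
  induction k with
  | zero =>
    have h1 : Continuous (fun v : Matrix.unitaryGroup (Fin d) ℂ => v.1) := continuous_subtype_val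
    exact (h1.matrix_mul continuous_const).matrix_mul h1.matrix_conjTranspose
  | succ k ih =>
    by_cases h : k < d
    · have : lev M (k + 1) = fun v => elim ⟨k, h⟩ (lev M k v) := by
        funext v; simp only [lev, dif_pos h]
      rw [this]
      refine continuous_matrix fun a b => ?_
      simp only [elim, of_apply]
      have hc : ∀ a b, Continuous fun v => lev M k v a b := fun a b => ih.matrix_elem a b
      refine ((hc a b).sub (((hc a _).mul (hc _ b)).mul
        ((hc _ _).inv₀ fun v => posDef_diag_ne (lev_posDef hM k v) _))).add ?_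
      by_cases hab : a = ⟨k, h⟩ ∧ b = ⟨k, h⟩
      · simp only [if_pos hab]; exact hc _ _
      · simp only [if_neg hab]; exact continuous_const
    · have : lev M (k + 1) = lev M k := by
        funext v; simp only [lev, dif_neg h]
      rw [this]; exact ih

theorem lev_equivariant {M : Matrix (Fin d) (Fin d) ℂ} (k : ℕ)
    (w v : Matrix.unitaryGroup (Fin d) ℂ) (hw : Fixes k w.1) :
    lev M k (w * v) = w.1 * lev M k v * w.1ᴴ := by
  induction k with
  | zero =>
    simp only [lev]
    have : (w * v).1 = w.1 * v.1 := rfl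
    rw [this, conjTranspose_mul]
    simp only [Matrix.mul_assoc]
  | succ k ih =>
    have hw' : Fixes k w.1 := fun a b h => hw a b (by omega)
    by_cases h : k < d
    · simp only [lev, dif_pos h]
      rw [ih hw']
      exact elim_equivariant (k := ⟨k, h⟩) hw
    · simp only [lev, dif_neg h]; exact ih hw'

end Pool.Agent.Helper49_Channels
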