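import Pool.Agent.Helper49_Channels.Q1Chan

/-!
# The upper bound `‖T_cHaar^k‖² ≤ ‖T_Haar‖²` (Q1 of MP_a4cf75_mp)
-/

open MeasureTheory Matrix TopologicalSpace
open scoped Kronecker ComplexConjugate ComplexOrder

namespace Pool.Agent.Helper49_Channels

set_option linter.unusedSectionVars false

variable {d e : ℕ}

/-- The Kraus operators of the channel defined by `V`. -/
def KV (he : 0 < e) (V : Matrix (Fin d × Fin e) (Fin d × Fin e) ℂ) (m : Fin e) :
    Matrix (Fin d) (Fin d) ℂ :=
  Matrix.of fun i k => V (i, m) (k, ⟨0, he⟩)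

theorem KV_continuous (he : 0 < e) (m : Fin e) :
    Continuous fun V : Matrix.unitaryGroup (Fin d × Fin e) ℂ => KV he V.1 m :=
  continuous_matrix fun _ _ => continuous_entry _ _

theorem KV_kraus (he : 0 < e) (V : Matrix.unitaryGroup (Fin d × Fin e) ℂ) :
    ∑ m, (KV he V.1 m)ᴴ * KV he V.1 m = 1 := by
  ext k l
  have h := col_orthonormal V ((l, ⟨0, he⟩) : Fin d × Fin e) (k, ⟨0, he⟩)
  rw [Fintype.sum_prod_type, Finset.sum_comm] at h
  simp only [Matrix.sum_apply, Matrix.mul_apply, conjTranspose_apply, KV, of_apply]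
  have h1 : ∀ m : Fin e, ∑ x : Fin d, star (V.1 (x, m) (k, ⟨0, he⟩)) * V.1 (x, m) (l, ⟨0, he⟩) =
      ∑ x : Fin d, V.1 (x, m) (l, ⟨0, he⟩) * conj (V.1 (x, m) (k, ⟨0, he⟩)) := by
    intro m
    refine Finset.sum_congr rfl fun x _ => ?_
    rw [mul_comm]; rfl
  simp only [h1]
  rw [h, Matrix.one_apply]
  by_cases hkl : k = l
  · simp [hkl]
  · rw [if_neg hkl, if_neg]
    intro h2
    exact hkl (Prod.mk.inj h2).1.symm

/-- The moment operator of cHaar. -/
noncomputable def TC (t d : ℕ) {e : ℕ} (he : 0 < e) :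
    Matrix (Fin t → Fin d × Fin d) (Fin t → Fin d × Fin d) ℂ :=
  gint fun V : Matrix.unitaryGroup (Fin d × Fin e) ℂ => tpow t (Cm (KV he V.1))

theorem TC_integrand_continuous (t : ℕ) (he : 0 < e) :
    Continuous fun V : Matrix.unitaryGroup (Fin d × Fin e) ℂ => tpow t (Cm (KV he V.1)) :=
  tpow_continuous t (Cm_continuous fun m => KV_continuous he m)

theorem momentCHaar_eq (t d : ℕ) {e : ℕ} (he : 0 < e) : momentCHaar t d e = TC t d he := by
  ext a b
  simp only [momentCHaar, tensorPow, TC, gint, of_apply, tpow, Cm, KV]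
  refine integral_congr_ae (Filter.Eventually.of_forall fun V => ?_)
  simp only
  refine Finset.prod_congr rfl fun s _ => ?_
  rw [channel_single he]

theorem momentHaar_eq (t d : ℕ) : momentHaar t d = T0 t d := by
  ext a b
  simp only [momentHaar, tensorPow, T0, gint, of_apply, tpow, Cm, Finset.univ_unique,
    Finset.sum_singleton]
  refine integral_congr_ae (Filter.Eventually.of_forall fun U => ?_)
  simp only
  refine Finset.prod_congr rfl fun s _ => ?_
  show (U.1 * Matrix.single (b s).1 (b s).2 (1 : ℂ) * U.1ᴴ :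
    Matrix (Fin d) (Fin d) ℂ) (a s).1 (a s).2 = _
  rw [Matrix.mul_apply]
  rw [Finset.sum_eq_single (b s).2]
  · rw [Matrix.mul_apply, Finset.sum_eq_single (b s).1]
    · simp
    · intro c _ hc
      rw [Matrix.single_apply, if_neg (fun h => hc h.1.symm), mul_zero]
    · simp
  · intro c _ hc
    rw [Matrix.mul_apply, Finset.sum_eq_zero, zero_mul]
    intro x _
    rw [Matrix.single_apply, if_neg (fun h => hc h.2.symm), mul_zero]
  · simp

/-- `u ⊗ 1` as a unitary matrix. -/
def uTensorOne (e : ℕ) (u : Matrix.unitaryGroup (Fin d) ℂ) :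
    Matrix.unitaryGroup (Fin d × Fin e) ℂ :=
  ⟨u.1 ⊗ₖ (1 : Matrix (Fin e) (Fin e) ℂ), by
    rw [Matrix.mem_unitaryGroup_iff, Matrix.star_eq_conjTranspose, conjTranspose_kronecker,
      ← mul_kronecker_mul, unitary_mul_conjTranspose, conjTranspose_one, Matrix.mul_one,
      one_kronecker_one]⟩

theorem KV_uTensorOne (he : 0 < e) (u : Matrix.unitaryGroup (Fin d) ℂ)
    (V : Matrix.unitaryGroup (Fin d × Fin e) ℂ) (m : Fin e) :
    KV he (uTensorOne e u * V).1 m = u.1 * KV he V.1 m := by
  ext i k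
  have h : (uTensorOne e u * V).1 = (u.1 ⊗ₖ (1 : Matrix (Fin e) (Fin e) ℂ)) * V.1 := rfl
  simp only [KV, of_apply, h, Matrix.mul_apply, Fintype.sum_prod_type, kroneckerMap_apply,
    Matrix.one_apply]
  refine Finset.sum_congr rfl fun x _ => ?_
  rw [Finset.sum_eq_single m]
  · simp
  · intro y _ hy
    rw [if_neg (Ne.symm hy)]
    simp
  · simp

theorem tpow_u_mul_TC (t : ℕ) (he : 0 < e) (u : Matrix.unitaryGroup (Fin d) ℂ) :
    tpow t (Cm fun _ : Unit => u.1) * TC t d he = TC t d he := by
  have h := gint_left (fun V : Matrix.unitaryGroup (Fin d × Fin e) ℂ =>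
    tpow t (Cm (KV he V.1))) (uTensorOne e u)
  unfold TC
  rw [← gint_mul_left (TC_integrand_continuous t he), ← h]
  congr 1
  funext V
  rw [← tpow_mul, ← Cm_mul]
  congr 1
  ext a b
  simp only [Cm, of_apply, Fintype.sum_prod_type, Finset.univ_unique, Finset.sum_singleton,
    KV_uTensorOne]

theorem T0_mul_TC (t : ℕ) (he : 0 < e) : T0 t d * TC t d he = TC t d he := by
  conv_lhs => unfold T0
  rw [← gint_mul_right (T0_integrand_continuous t d)]
  simp only [tpow_u_mul_TC]
  exact gint_const _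

theorem T0_TC_pow_le (hd : 1 ≤ d) (t : ℕ) (he : 0 < e) (j : ℕ) :
    ∀ {E : Type} [Fintype E] (K : E → Matrix (Fin d) (Fin d) ℂ), ∑ m, (K m)ᴴ * K m = 1 →
      hsSq (T0 t d * TC t d he ^ j * tpow t (Cm K)) ≤ Dmom d t := by
  induction j with
  | zero =>
    intro E _ K hK
    rw [pow_zero, Matrix.mul_one]
    exact hsSq_T0_mul_le hd t K hK
  | succ j ih =>
    intro E _ K hK
    have hc := TC_integrand_continuous (d := d) t he
    have h1 : T0 t d * TC t d he ^ (j + 1) * tpow t (Cm K) =
        gint fun V : Matrix.unitaryGroup (Fin d × Fin e) ℂ =>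
          T0 t d * TC t d he ^ j * tpow t (Cm fun p : Fin e × E => KV he V.1 p.1 * K p.2) := by
      have h2 : ∀ V : Matrix.unitaryGroup (Fin d × Fin e) ℂ,
          T0 t d * TC t d he ^ j * tpow t (Cm fun p : Fin e × E => KV he V.1 p.1 * K p.2) =
          T0 t d * TC t d he ^ j * tpow t (Cm (KV he V.1)) * tpow t (Cm K) := by
        intro V
        rw [Cm_mul, tpow_mul, ← Matrix.mul_assoc]
      simp only [h2]
      rw [gint_mul_right (continuous_const.matrix_mul hc), gint_mul_left hc]
      rw [pow_succ, ← Matrix.mul_assoc]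
      rfl
    rw [h1]
    have hcont : Continuous fun V : Matrix.unitaryGroup (Fin d × Fin e) ℂ =>
        T0 t d * TC t d he ^ j * tpow t (Cm fun p : Fin e × E => KV he V.1 p.1 * K p.2) :=
      continuous_const.matrix_mul (tpow_continuous t (Cm_continuous fun p =>
        (KV_continuous he p.1).matrix_mul continuous_const))
    refine (hsSq_gint_le hcont).trans ?_
    have h3 : ∫ V, hsSq (T0 t d * TC t d he ^ j *
        tpow t (Cm fun p : Fin e × E => KV he V.1 p.1 * K p.2)) ∂(haarProb (Fin d × Fin e)) ≤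
        ∫ _, Dmom d t ∂(haarProb (Fin d × Fin e)) := by
      refine integral_mono ?_ (integrable_const _) fun V => ?_
      · refine integrable_of_continuous ?_
        unfold hsSq
        refine continuous_finsetSum _ fun x _ => continuous_finsetSum _ fun y _ => ?_
        exact ((hcont.matrix_elem x y).norm).pow 2
      · refine ih (fun p : Fin e × E => KV he V.1 p.1 * K p.2) ?_
        rw [Fintype.sum_prod_type, Finset.sum_comm]
        have h4 : ∀ y : E, ∑ x : Fin e, (KV he V.1 x * K y)ᴴ * (KV he V.1 x * K y) =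
            (K y)ᴴ * K y := by
          intro y
          calc ∑ x : Fin e, (KV he V.1 x * K y)ᴴ * (KV he V.1 x * K y)
              = ∑ x : Fin e, (K y)ᴴ * ((KV he V.1 x)ᴴ * KV he V.1 x) * K y := by
                refine Finset.sum_congr rfl fun x _ => ?_
                rw [conjTranspose_mul]
                simp only [Matrix.mul_assoc]
            _ = (K y)ᴴ * K y := by
                rw [← Finset.sum_mul, ← Finset.mul_sum, KV_kraus, Matrix.mul_one]
        simp only [h4, hK]
    refine h3.trans (le_of_eq ?_)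
    simp

/-- The upper bound. -/
theorem N_le_hsSq_momentHaar (t k d e : ℕ) (hk : 1 ≤ k) (hd : 1 ≤ d) (he : 1 ≤ e) :
    N t k d e ≤ hsSq (momentHaar t d) := by
  have he0 : 0 < e := he
  unfold N
  rw [momentCHaar_eq t d he0, momentHaar_eq, hsSq_T0]
  have h := T0_TC_pow_le hd t he0 k (fun _ : Unit => (1 : Matrix (Fin d) (Fin d) ℂ)) (by simp)
  rw [Cm_one, tpow_one, Matrix.mul_one] at h
  obtain ⟨j, rfl⟩ : ∃ j, k = j + 1 := ⟨k - 1, by omega⟩
  have h2 : T0 t d * TC t d he0 ^ (j + 1) = TC t d he0 ^ (j + 1) := by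
    rw [pow_succ', ← Matrix.mul_assoc, T0_mul_TC]
  rwa [h2] at h

end Pool.Agent.Helper49_Channels
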