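import Pool.Agent.Helper49_Channels.Q1Rep

/-!
# Highest weight vectors (towards Q1 of MP_a4cf75_mp)
-/

open MeasureTheory Matrix TopologicalSpace
open scoped Kronecker ComplexConjugate ComplexOrder

namespace Pool.Agent.Helper49_Channels

set_option linter.unusedSectionVars false

section Vec

variable {ι : Type} [Fintype ι] [DecidableEq ι]

theorem star_mulVec_dot (A : Matrix ι ι ℂ) (ξ η : ι → ℂ) :
    star (A *ᵥ ξ) ⬝ᵥ η = star ξ ⬝ᵥ (Aᴴ *ᵥ η) := by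
  rw [star_mulVec, ← dotProduct_mulVec]

/-- The squared norm of a vector. -/
noncomputable def nsq (ξ : ι → ℂ) : ℝ := ∑ i, ‖ξ i‖ ^ 2

theorem dot_self (ξ : ι → ℂ) : star ξ ⬝ᵥ ξ = (nsq ξ : ℂ) := by
  simp only [nsq, dotProduct, Pi.star_apply, RCLike.star_def, Complex.ofReal_sum]
  refine Finset.sum_congr rfl fun i _ => ?_
  rw [Complex.conj_mul']
  push_cast
  rfl

theorem nsq_nonneg (ξ : ι → ℂ) : 0 ≤ nsq ξ := Finset.sum_nonneg fun i _ => by positivity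

theorem nsq_pos {ξ : ι → ℂ} (h : ξ ≠ 0) : 0 < nsq ξ := by
  obtain ⟨i, hi⟩ := Function.ne_iff.mp h
  refine Finset.sum_pos' (fun i _ => by positivity) ⟨i, Finset.mem_univ i, ?_⟩
  have : 0 < ‖ξ i‖ := norm_pos_iff.mpr hi
  positivity

/-- Joint eigenvectors of a commuting list of matrices. -/
theorem exists_joint (L : List (Matrix ι ι ℂ)) :
    ∀ (K : Submodule ℂ (ι → ℂ)), K ≠ ⊥ → (∀ A ∈ L, ∀ B ∈ L, A * B = B * A) →
      (∀ A ∈ L, ∀ ξ ∈ K, A *ᵥ ξ ∈ K) →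
      ∃ ξ ∈ K, ξ ≠ 0 ∧ ∀ A ∈ L, ∃ a : ℂ, A *ᵥ ξ = a • ξ := by
  induction L with
  | nil =>
    intro K hK _ _
    obtain ⟨ξ, hξ, h0⟩ := K.ne_bot_iff.mp hK
    exact ⟨ξ, hξ, h0, by simp⟩
  | cons A L ih =>
    intro K hK hcomm hinv
    have hAK : ∀ ξ ∈ K, A.toLin' ξ ∈ K := fun ξ hξ => by
      simpa using hinv A (by simp) ξ hξ
    have : Nontrivial K := (Submodule.nontrivial_iff_ne_bot).mpr hK
    obtain ⟨a, ha⟩ := Module.End.exists_eigenvalue (A.toLin'.restrict hAK)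
    obtain ⟨⟨η, hηK⟩, hη⟩ := ha.exists_hasEigenvector
    have hη1 : A *ᵥ η = a • η := by
      have := congrArg Subtype.val hη.apply_eq_smul
      simpa [LinearMap.restrict_apply] using this
    have hη0 : η ≠ 0 := by
      intro h
      exact hη.2 (Subtype.ext h)
    set K' : Submodule ℂ (ι → ℂ) := K ⊓ LinearMap.ker (A.toLin' - a • LinearMap.id) with hK'
    have memK' : ∀ ξ, ξ ∈ K' ↔ ξ ∈ K ∧ A *ᵥ ξ = a • ξ := by
      intro ξ
      rw [hK', Submodule.mem_inf, LinearMap.mem_ker]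
      simp [sub_eq_zero]
    have hK'ne : K' ≠ ⊥ := by
      rw [Submodule.ne_bot_iff]
      exact ⟨η, (memK' η).mpr ⟨hηK, hη1⟩, hη0⟩
    obtain ⟨ξ, hξ, hξ0, hall⟩ := ih K' hK'ne
      (fun B hB C hC => hcomm B (by simp [hB]) C (by simp [hC])) (by
        intro B hB ξ hξ
        rw [memK'] at hξ ⊢
        refine ⟨hinv B (by simp [hB]) ξ hξ.1, ?_⟩
        rw [mulVec_mulVec, hcomm A (by simp) B (by simp [hB]), ← mulVec_mulVec, hξ.2,
          mulVec_smul])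
    rw [memK'] at hξ
    refine ⟨ξ, hξ.1, hξ0, fun B hB => ?_⟩
    rcases List.mem_cons.mp hB with rfl | hB
    · exact ⟨a, hξ.2⟩
    · exact hall B hB

theorem hermitian_eigen_real {A : Matrix ι ι ℂ} (hA : Aᴴ = A) {ξ : ι → ℂ} (hξ : ξ ≠ 0) {a : ℂ}
    (h : A *ᵥ ξ = a • ξ) : a = (a.re : ℂ) := by
  have h1 : star ξ ⬝ᵥ (A *ᵥ ξ) = a * (nsq ξ : ℂ) := by
    rw [h, dotProduct_smul, dot_self, smul_eq_mul]
  have h2 : star (A *ᵥ ξ) ⬝ᵥ ξ = conj a * (nsq ξ : ℂ) := by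
    rw [h, star_smul, smul_dotProduct, dot_self, smul_eq_mul]
    rfl
  rw [star_mulVec_dot, hA, h1] at h2
  have h3 : (nsq ξ : ℂ) ≠ 0 := by
    exact_mod_cast (nsq_pos hξ).ne'
  have h4 := mul_right_cancel₀ h3 h2
  exact (Complex.conj_eq_iff_re.mp h4.symm).symm

end Vec

namespace PRep

variable {d : ℕ} {ι : Type} [Fintype ι] [DecidableEq ι] (R : PRep d ι)

/-- `E a b`: the matrix unit. -/
abbrev E (a b : Fin d) : Matrix (Fin d) (Fin d) ℂ := single a b 1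

theorem E_star (a b : Fin d) : (E a b)ᴴ = E b a := by
  simp [E, conjTranspose_single]

/-- `ξ` is a highest weight vector of weight `ν`. -/
structure HW (ξ : ι → ℂ) (ν : Fin d → ℝ) : Prop where
  ne : ξ ≠ 0
  raise : ∀ a b, a < b → R.dp (E a b) *ᵥ ξ = 0
  weight : ∀ a, R.dp (E a a) *ᵥ ξ = (ν a : ℂ) • ξ

theorem HW.antitone {ξ : ι → ℂ} {ν : Fin d → ℝ} (h : R.HW ξ ν) : Antitone ν := by
  intro a b hab
  rcases eq_or_lt_of_le hab with rfl | hab
  · exact le_rfl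
  have h1 : R.dp (E a b) *ᵥ (R.dp (E b a) *ᵥ ξ) = ((ν a - ν b : ℝ) : ℂ) • ξ := by
    have h2 := R.dp_comm (E a b) (E b a)
    have h3 : E a b * E b a - E b a * E a b = E a a - E b b := by
      simp [E]
    rw [h3, map_sub, sub_eq_iff_eq_add] at h2
    rw [mulVec_mulVec, h2, add_mulVec, sub_mulVec, ← mulVec_mulVec, h.raise a b hab,
      mulVec_zero, add_zero, h.weight, h.weight, ← sub_smul]
    push_cast
    rfl
  have h4 : (nsq (R.dp (E b a) *ᵥ ξ) : ℂ) = ((ν a - ν b) * nsq ξ : ℝ) := by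
    rw [← dot_self, star_mulVec_dot, ← R.dp_star, E_star, h1, dotProduct_smul, dot_self,
      smul_eq_mul]
    push_cast
    rfl
  have h5 : nsq (R.dp (E b a) *ᵥ ξ) = (ν a - ν b) * nsq ξ := by exact_mod_cast h4
  have h6 := nsq_nonneg (R.dp (E b a) *ᵥ ξ)
  have h7 := nsq_pos h.ne
  rw [h5] at h6
  by_contra hcon
  push Not at hcon
  nlinarith

/-- Existence of highest weight vectors, jointly diagonalizing two further operators. -/
theorem exists_hw (K : Submodule ℂ (ι → ℂ)) (hK : K ≠ ⊥)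
    (hinv : ∀ X, ∀ ξ ∈ K, R.dp X *ᵥ ξ ∈ K) (A B : Matrix ι ι ℂ)
    (hAB : A * B = B * A) (hA : ∀ X, A * R.dp X = R.dp X * A)
    (hB : ∀ X, B * R.dp X = R.dp X * B)
    (hAK : ∀ ξ ∈ K, A *ᵥ ξ ∈ K) (hBK : ∀ ξ ∈ K, B *ᵥ ξ ∈ K) :
    ∃ ξ ∈ K, ∃ (ν : Fin d → ℝ) (κ μ : ℂ), R.HW ξ ν ∧ A *ᵥ ξ = κ • ξ ∧ B *ᵥ ξ = μ • ξ := by
  classical
  set r : Fin d → ℂ := fun a => -((a : ℕ) : ℂ) with hr
  set Dg : Matrix (Fin d) (Fin d) ℂ := diagonal r with hDg
  have hDgH : (R.dp Dg)ᴴ = R.dp Dg := by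
    rw [← R.dp_star]
    congr 1
    rw [hDg, diagonal_conjTranspose]
    congr 1
    funext a
    simp [hr]
  -- the set of eigenvalues of `dp Dg` on `K`
  set S : Set ℝ := {x | ∃ ξ ∈ K, ξ ≠ 0 ∧ R.dp Dg *ᵥ ξ = (x : ℂ) • ξ} with hS
  have hSne : S.Nonempty := by
    obtain ⟨ξ, hξ, hξ0, h1⟩ := exists_joint [R.dp Dg] K hK (by simp)
      (by intro C hC ξ hξ; rw [List.mem_singleton] at hC; subst hC; exact hinv Dg ξ hξ)
    obtain ⟨a, ha⟩ := h1 (R.dp Dg) (by simp)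
    have := hermitian_eigen_real hDgH hξ0 ha
    exact ⟨a.re, ξ, hξ, hξ0, by rw [← this]; exact ha⟩
  have hSfin : S.Finite := by
    have h1 := Module.End.finite_hasEigenvalue (R.dp Dg).toLin'
    have h2 : S ⊆ (fun x : ℝ => (x : ℂ)) ⁻¹'
        {μ | Module.End.HasEigenvalue (R.dp Dg).toLin' μ} := by
      rintro x ⟨ξ, _, hξ0, h⟩
      have h3 : (R.dp Dg).toLin' ξ = (x : ℂ) • ξ := by simpa using h
      exact Module.End.hasEigenvalue_of_hasEigenvector (x := ξ)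
        ⟨Module.End.mem_eigenspace_iff.mpr h3, hξ0⟩
    exact (h1.preimage (Complex.ofReal_injective.injOn)).subset h2
  obtain ⟨x, hxS, hxmax⟩ := Set.exists_max_image S id hSfin hSne
  obtain ⟨η, hηK, hη0, hη⟩ := hxS
  set K' : Submodule ℂ (ι → ℂ) := K ⊓ LinearMap.ker ((R.dp Dg).toLin' - (x : ℂ) • LinearMap.id)
    with hK'
  have memK' : ∀ ξ, ξ ∈ K' ↔ ξ ∈ K ∧ R.dp Dg *ᵥ ξ = (x : ℂ) • ξ := by
    intro ξ
    rw [hK', Submodule.mem_inf, LinearMap.mem_ker]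
    simp [sub_eq_zero]
  have hK'ne : K' ≠ ⊥ := by
    rw [Submodule.ne_bot_iff]
    exact ⟨η, (memK' η).mpr ⟨hηK, hη⟩, hη0⟩
  have hraise : ∀ ξ ∈ K', ∀ a b : Fin d, a < b → R.dp (E a b) *ᵥ ξ = 0 := by
    intro ξ hξ a b hab
    rw [memK'] at hξ
    by_contra hne
    have hc : Dg * E a b - E a b * Dg = (r a - r b) • E a b := by
      ext i j
      simp only [hDg, E, Matrix.sub_apply, diagonal_mul, mul_diagonal, Matrix.smul_apply,
        single_apply, smul_eq_mul]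
      split_ifs with h
      · rw [← h.1, ← h.2]; ring
      · ring
    have h1 : R.dp Dg *ᵥ (R.dp (E a b) *ᵥ ξ) =
        ((x + ((b : ℕ) - (a : ℕ)) : ℝ) : ℂ) • (R.dp (E a b) *ᵥ ξ) := by
      have h2 := R.dp_comm Dg (E a b)
      rw [hc, map_smul, sub_eq_iff_eq_add] at h2
      rw [mulVec_mulVec, h2, add_mulVec, smul_mulVec, ← mulVec_mulVec, hξ.2, mulVec_smul,
        ← add_smul]
      congr 1
      simp [hr]
      ring
    have h3 : x + ((b : ℕ) - (a : ℕ)) ∈ S := ⟨_, hinv _ ξ hξ.1, hne, h1⟩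
    have h4 := hxmax _ h3
    simp only [id] at h4
    have h5 : ((a : ℕ) : ℝ) < ((b : ℕ) : ℝ) := by exact_mod_cast hab
    linarith
  have hdiag : ∀ a b : Fin d, R.dp (E a a) * R.dp (E b b) = R.dp (E b b) * R.dp (E a a) := by
    intro a b
    have h2 := R.dp_comm (E a a) (E b b)
    have h3 : E a a * E b b - E b b * E a a = 0 := by
      by_cases h : a = b
      · subst h; simp
      · simp [E, h, Ne.symm h]
    rw [h3, map_zero, sub_eq_zero] at h2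
    exact h2
  have hDgdiag : ∀ a : Fin d, R.dp Dg * R.dp (E a a) = R.dp (E a a) * R.dp Dg := by
    intro a
    have h2 := R.dp_comm Dg (E a a)
    have h3 : Dg * E a a - E a a * Dg = 0 := by
      ext i j
      simp only [hDg, E, Matrix.sub_apply, diagonal_mul, mul_diagonal, single_apply,
        Matrix.zero_apply]
      split_ifs with h
      · rw [← h.1, ← h.2]; ring
      · ring
    rw [h3, map_zero, sub_eq_zero] at h2
    exact h2
  obtain ⟨ξ, hξ, hξ0, hall⟩ := exists_joint (A :: B :: List.ofFn fun a : Fin d => R.dp (E a a))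
    K' hK'ne (by
      intro C hC D' hD
      simp only [List.mem_cons, List.mem_ofFn] at hC hD
      rcases hC with rfl | rfl | ⟨a, rfl⟩ <;> rcases hD with rfl | rfl | ⟨b, rfl⟩
      · rfl
      · exact hAB
      · exact hA _
      · exact hAB.symm
      · rfl
      · exact hB _
      · exact (hA _).symm
      · exact (hB _).symm
      · exact hdiag a b) (by
      intro C hC ξ hξ
      rw [memK'] at hξ ⊢
      simp only [List.mem_cons, List.mem_ofFn] at hC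
      rcases hC with rfl | rfl | ⟨a, rfl⟩
      · refine ⟨hAK ξ hξ.1, ?_⟩
        rw [mulVec_mulVec, ← hA, ← mulVec_mulVec, hξ.2, mulVec_smul]
      · refine ⟨hBK ξ hξ.1, ?_⟩
        rw [mulVec_mulVec, ← hB, ← mulVec_mulVec, hξ.2, mulVec_smul]
      · refine ⟨hinv _ ξ hξ.1, ?_⟩
        rw [mulVec_mulVec, hDgdiag, ← mulVec_mulVec, hξ.2, mulVec_smul])
  obtain ⟨κ, hκ⟩ := hall A (by simp)
  obtain ⟨μ, hμ⟩ := hall B (by simp)
  have hν : ∀ a : Fin d, ∃ x : ℝ, R.dp (E a a) *ᵥ ξ = (x : ℂ) • ξ := by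
    intro a
    obtain ⟨z, hz⟩ := hall (R.dp (E a a)) (by simp [List.mem_ofFn])
    have hH : (R.dp (E a a))ᴴ = R.dp (E a a) := by rw [← R.dp_star, E_star]
    exact ⟨z.re, by rw [← hermitian_eigen_real hH hξ0 hz]; exact hz⟩
  choose ν hν using hν
  exact ⟨ξ, ((memK' ξ).mp hξ).1, ν, κ, μ, ⟨hξ0, hraise ξ hξ, hν⟩, hκ, hμ⟩

end PRep

theorem powRep_weight_nonneg {d s : ℕ} {ξ : (Fin s → Fin d) → ℂ} {ν : Fin d → ℝ}
    (h : (powRep d s).HW ξ ν) (a : Fin d) : 0 ≤ ν a := by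
  obtain ⟨w, hw⟩ := Function.ne_iff.mp h.ne
  have h1 := congrFun (h.weight a) w
  rw [powRep_dp_single, mulVec_diagonal] at h1
  have h2 : ((Finset.univ.filter fun i => w i = a).card : ℂ) = (ν a : ℂ) := by
    have h3 : ξ w ≠ 0 := hw
    exact mul_right_cancel₀ h3 (by simpa using h1)
  have h3 : ((Finset.univ.filter fun i => w i = a).card : ℝ) = ν a := by exact_mod_cast h2
  rw [← h3]
  positivity

end Pool.Agent.Helper49_Channels
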