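import Pool.Agent.Helper49_Channels.Q1Rec

/-!
# The key inequality (towards Q1 of MP_a4cf75_mp)
-/

open MeasureTheory Matrix TopologicalSpace
open scoped Kronecker ComplexConjugate ComplexOrder

namespace Pool.Agent.Helper49_Channels

set_option linter.unusedSectionVars false

variable {d : ℕ} {ι : Type} [Fintype ι] [DecidableEq ι]

open PRep (E E_star)

/-- `Sop` is positive semidefinite when `conj (Tr u) ^ p` is the conjugate of the character. -/
theorem Sop_nonneg (R : PRep d ι) (p : ℕ)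
    (htr : ∀ u : Matrix.unitaryGroup (Fin d) ℂ, (R.tp u.1).trace = u.1.trace ^ p)
    (η : ι → ℂ) : ∃ r : ℝ, 0 ≤ r ∧ star η ⬝ᵥ (Sop R p *ᵥ η) = (r : ℂ) := by
  set f : Matrix.unitaryGroup (Fin d) ℂ → ι → ι → ι → ℂ := fun u w x y =>
    (R.tp u.1 *ᵥ η) x * conj (R.tp u.1 y w) with hf
  set g : Matrix.unitaryGroup (Fin d) ℂ → ℂ := fun u =>
    conj (R.tp u.1).trace * (star η ⬝ᵥ (R.tp u.1 *ᵥ η)) with hg
  have hfc : ∀ w x y, Continuous fun u => f u w x y := by
    intro w x y
    have h1 : Continuous fun u : Matrix.unitaryGroup (Fin d) ℂ => (R.tp u.1 *ᵥ η) x :=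
      (continuous_apply x).comp ((tp_continuous R).matrix_mulVec continuous_const)
    exact h1.mul (Complex.continuous_conj.comp ((tp_continuous R).matrix_elem y w))
  set T : ι → ι → ι → ℂ := fun w x y => ∫ u, f u w x y ∂(haarProb (Fin d)) with hT
  have hsum : ∀ u' u, ∑ w, ∑ x, ∑ y, f u w x y * conj (f u' w x y) = g (u'⁻¹ * u) := by
    intro u' u
    have e1 : (u'⁻¹ * u).1 = u'.1ᴴ * u.1 := rfl
    have e2 : star η ⬝ᵥ (R.tp (u'.1ᴴ * u.1) *ᵥ η) = ∑ x, (R.tp u.1 *ᵥ η) x *
        conj ((R.tp u'.1 *ᵥ η) x) := by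
      rw [R.mul, R.star, ← mulVec_mulVec, ← star_mulVec_dot]
      simp only [dotProduct, Pi.star_apply]
      refine Finset.sum_congr rfl fun x _ => ?_
      rw [mul_comm]; rfl
    have e3 : conj (R.tp (u'.1ᴴ * u.1)).trace = ∑ w, ∑ y, conj (R.tp u.1 y w) *
        R.tp u'.1 y w := by
      rw [R.mul, R.star]
      simp only [Matrix.trace, diag_apply, Matrix.mul_apply, conjTranspose_apply, map_sum,
        map_mul]
      refine Finset.sum_congr rfl fun w _ => Finset.sum_congr rfl fun y _ => ?_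
      have : conj (star (R.tp u'.1 y w)) = R.tp u'.1 y w := star_star _
      rw [this]; ring
    simp only [hg, e1, e2, e3]
    rw [Finset.sum_mul]
    refine Finset.sum_congr rfl fun w _ => ?_
    rw [Finset.sum_mul_sum, Finset.sum_comm]
    refine Finset.sum_congr rfl fun x _ => Finset.sum_congr rfl fun y _ => ?_
    simp only [hf, map_mul, Complex.conj_conj]
    ring
  have hTT : ∀ w x y, T w x y * conj (T w x y) =
      ∫ u', T w x y * conj (f u' w x y) ∂(haarProb (Fin d)) := by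
    intro w x y
    rw [integral_const_mul]
    congr 1
    exact (integral_conj (f := fun u => f u w x y)).symm
  have hgc : Continuous g :=
    (Complex.continuous_conj.comp (tp_continuous R).matrix_trace).mul
      (continuous_dot (tp_continuous R) _ _)
  have hconjf : ∀ w x y, Continuous fun u' => T w x y * conj (f u' w x y) := fun w x y =>
    continuous_const.mul (Complex.continuous_conj.comp (hfc w x y))
  have hmain : ∑ w, ∑ x, ∑ y, T w x y * conj (T w x y) = ∫ u, g u ∂(haarProb (Fin d)) := by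
    have h1 : ∑ w, ∑ x, ∑ y, T w x y * conj (T w x y) =
        ∫ u', ∑ w, ∑ x, ∑ y, T w x y * conj (f u' w x y) ∂(haarProb (Fin d)) := by
      rw [integral_finsetSum _ fun w _ => integrable_of_continuous
        (continuous_finsetSum _ fun x _ => continuous_finsetSum _ fun y _ => hconjf w x y)]
      refine Finset.sum_congr rfl fun w _ => ?_
      rw [integral_finsetSum _ fun x _ => integrable_of_continuous
        (continuous_finsetSum _ fun y _ => hconjf w x y)]
      refine Finset.sum_congr rfl fun x _ => ?_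
      rw [integral_finsetSum _ fun y _ => integrable_of_continuous (hconjf w x y)]
      exact Finset.sum_congr rfl fun y _ => hTT w x y
    have h2 : ∀ u', ∑ w, ∑ x, ∑ y, T w x y * conj (f u' w x y) =
        ∫ u, g u ∂(haarProb (Fin d)) := by
      intro u'
      have hc : ∀ w x y, Continuous fun u => f u w x y * conj (f u' w x y) := fun w x y =>
        (hfc w x y).mul continuous_const
      calc ∑ w, ∑ x, ∑ y, T w x y * conj (f u' w x y)
          = ∑ w, ∑ x, ∑ y, ∫ u, f u w x y * conj (f u' w x y) ∂(haarProb (Fin d)) := by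
            refine Finset.sum_congr rfl fun w _ => Finset.sum_congr rfl fun x _ =>
              Finset.sum_congr rfl fun y _ => ?_
            rw [integral_mul_const]
        _ = ∫ u, ∑ w, ∑ x, ∑ y, f u w x y * conj (f u' w x y) ∂(haarProb (Fin d)) := by
            rw [integral_finsetSum _ fun w _ => integrable_of_continuous
              (continuous_finsetSum _ fun x _ => continuous_finsetSum _ fun y _ => hc w x y)]
            refine Finset.sum_congr rfl fun w _ => ?_
            rw [integral_finsetSum _ fun x _ => integrable_of_continuous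
              (continuous_finsetSum _ fun y _ => hc w x y)]
            refine Finset.sum_congr rfl fun x _ => ?_
            rw [integral_finsetSum _ fun y _ => integrable_of_continuous (hc w x y)]
        _ = ∫ u, g (u'⁻¹ * u) ∂(haarProb (Fin d)) := by
            simp only [hsum]
        _ = _ := integral_left g u'⁻¹
    rw [h1]
    simp only [h2]
    simp
  refine ⟨∑ w, ∑ x, ∑ y, ‖T w x y‖ ^ 2, by positivity, ?_⟩
  have h3 : ((∑ w, ∑ x, ∑ y, ‖T w x y‖ ^ 2 : ℝ) : ℂ) =
      ∑ w, ∑ x, ∑ y, T w x y * conj (T w x y) := by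
    push_cast
    refine Finset.sum_congr rfl fun w _ => Finset.sum_congr rfl fun x _ =>
      Finset.sum_congr rfl fun y _ => ?_
    rw [Complex.mul_conj']
  rw [h3, hmain]
  unfold Sop
  rw [mint_dot (Sop_integrand_continuous R p)]
  refine integral_congr_ae (Filter.Eventually.of_forall fun u => ?_)
  simp only [hg, htr u, smul_mulVec, dotProduct_smul, smul_eq_mul, map_pow]

/-- Partial trace over the second tensor factor. -/
def ptr (B : Matrix (ι × Fin d) (ι × Fin d) ℂ) : Matrix ι ι ℂ :=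
  Matrix.of fun x y => ∑ c, B (x, c) (y, c)

theorem ptr_trace (B : Matrix (ι × Fin d) (ι × Fin d) ℂ) : (ptr B).trace = B.trace := by
  simp [ptr, Matrix.trace, Fintype.sum_prod_type]

theorem ptr_mul_right (B : Matrix (ι × Fin d) (ι × Fin d) ℂ) (P : Matrix ι ι ℂ) :
    ptr (B * (P ⊗ₖ (1 : Matrix (Fin d) (Fin d) ℂ))) = ptr B * P := by
  ext x y
  simp only [ptr, of_apply, Matrix.mul_apply, Fintype.sum_prod_type, kroneckerMap_apply]
  rw [Finset.sum_comm]
  refine Finset.sum_congr rfl fun z _ => ?_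
  rw [Finset.sum_mul]
  refine Finset.sum_congr rfl fun c _ => ?_
  rw [Finset.sum_eq_single c]
  · simp
  · intro b _ hb; rw [one_apply_ne hb]; ring
  · simp

theorem ptr_mul_left (B : Matrix (ι × Fin d) (ι × Fin d) ℂ) (P : Matrix ι ι ℂ) :
    ptr ((P ⊗ₖ (1 : Matrix (Fin d) (Fin d) ℂ)) * B) = P * ptr B := by
  ext x y
  simp only [ptr, of_apply, Matrix.mul_apply, Fintype.sum_prod_type, kroneckerMap_apply]
  rw [Finset.sum_comm]
  refine Finset.sum_congr rfl fun z _ => ?_
  rw [Finset.mul_sum]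
  refine Finset.sum_congr rfl fun c _ => ?_
  rw [Finset.sum_eq_single c]
  · simp
  · intro b _ hb; rw [one_apply_ne hb.symm]; ring
  · simp

theorem ptr_cyclic (B : Matrix (ι × Fin d) (ι × Fin d) ℂ) (g : Matrix (Fin d) (Fin d) ℂ) :
    ptr (((1 : Matrix ι ι ℂ) ⊗ₖ g) * B) = ptr (B * ((1 : Matrix ι ι ℂ) ⊗ₖ g)) := by
  ext x y
  simp only [ptr, of_apply, Matrix.mul_apply, Fintype.sum_prod_type, kroneckerMap_apply]
  have h1 : ∀ c, ∑ z, ∑ b, (1 : Matrix ι ι ℂ) x z * g c b * B (z, b) (y, c) =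
      ∑ b, g c b * B (x, b) (y, c) := by
    intro c
    rw [Finset.sum_eq_single x]
    · simp
    · intro z _ hz
      refine Finset.sum_eq_zero fun b _ => ?_
      rw [one_apply_ne hz.symm]; ring
    · simp
  have h2 : ∀ c, ∑ z, ∑ b, B (x, c) (z, b) * ((1 : Matrix ι ι ℂ) z y * g b c) =
      ∑ b, B (x, c) (y, b) * g b c := by
    intro c
    rw [Finset.sum_eq_single y]
    · simp
    · intro z _ hz
      refine Finset.sum_eq_zero fun b _ => ?_
      rw [one_apply_ne hz]; ring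
    · simp
  simp only [h1, h2]
  rw [Finset.sum_comm]
  refine Finset.sum_congr rfl fun b _ => Finset.sum_congr rfl fun c _ => ?_
  ring

theorem ptr_dot (B : Matrix (ι × Fin d) (ι × Fin d) ℂ) (ξ : ι → ℂ) :
    star ξ ⬝ᵥ (ptr B *ᵥ ξ) = ∑ i, star (wv ξ i) ⬝ᵥ (B *ᵥ wv ξ i) := by
  have h1 : ∀ i : Fin d, star (wv ξ i) ⬝ᵥ (B *ᵥ wv ξ i) =
      ∑ x, star (ξ x) * ∑ y, B (x, i) (y, i) * ξ y := by
    intro i
    rw [dot_wv]
    simp only [dotProduct, Pi.star_apply, mulVec, Fintype.sum_prod_type]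
    refine Finset.sum_congr rfl fun x _ => ?_
    congr 1
    refine Finset.sum_congr rfl fun y _ => ?_
    rw [Finset.sum_eq_single i]
    · simp [wv]
    · intro c _ hc; simp [wv, hc]
    · simp
  simp only [h1]
  simp only [dotProduct, mulVec, ptr, of_apply, Pi.star_apply]
  rw [Finset.sum_comm]
  refine Finset.sum_congr rfl fun x _ => ?_
  rw [← Finset.mul_sum]
  congr 1
  rw [Finset.sum_comm]
  refine Finset.sum_congr rfl fun y _ => ?_
  rw [Finset.sum_mul]

theorem ptr_comm (R : PRep d ι) {B : Matrix (ι × Fin d) (ι × Fin d) ℂ}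
    (hB : ∀ u : Matrix.unitaryGroup (Fin d) ℂ, B * R.tensor.tp u.1 = R.tensor.tp u.1 * B)
    (u : Matrix.unitaryGroup (Fin d) ℂ) : ptr B * R.tp u.1 = R.tp u.1 * ptr B := by
  have h1 : R.tensor.tp u.1 = (R.tp u.1 ⊗ₖ (1 : Matrix (Fin d) (Fin d) ℂ)) *
      ((1 : Matrix ι ι ℂ) ⊗ₖ u.1) := by
    rw [← mul_kronecker_mul, Matrix.mul_one, Matrix.one_mul]; rfl
  have h2 : ((1 : Matrix ι ι ℂ) ⊗ₖ u.1) * ((1 : Matrix ι ι ℂ) ⊗ₖ u.1ᴴ) = 1 := by
    rw [← mul_kronecker_mul, Matrix.mul_one, unitary_mul_conjTranspose, one_kronecker_one]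
  have h3 : ((1 : Matrix ι ι ℂ) ⊗ₖ u.1ᴴ) * ((1 : Matrix ι ι ℂ) ⊗ₖ u.1) = 1 := by
    rw [← mul_kronecker_mul, Matrix.mul_one, unitary_conjTranspose_mul, one_kronecker_one]
  have h4 : B * (R.tp u.1 ⊗ₖ (1 : Matrix (Fin d) (Fin d) ℂ)) =
      (R.tp u.1 ⊗ₖ (1 : Matrix (Fin d) (Fin d) ℂ)) *
        (((1 : Matrix ι ι ℂ) ⊗ₖ u.1) * (B * ((1 : Matrix ι ι ℂ) ⊗ₖ u.1ᴴ))) := by
    have h5 : B * R.tensor.tp u.1 * ((1 : Matrix ι ι ℂ) ⊗ₖ u.1ᴴ) =
        R.tensor.tp u.1 * B * ((1 : Matrix ι ι ℂ) ⊗ₖ u.1ᴴ) := by rw [hB]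
    rw [h1] at h5
    calc B * (R.tp u.1 ⊗ₖ (1 : Matrix (Fin d) (Fin d) ℂ)) =
        B * ((R.tp u.1 ⊗ₖ (1 : Matrix (Fin d) (Fin d) ℂ)) *
          (((1 : Matrix ι ι ℂ) ⊗ₖ u.1) * ((1 : Matrix ι ι ℂ) ⊗ₖ u.1ᴴ))) := by
          rw [h2, Matrix.mul_one]
      _ = B * ((R.tp u.1 ⊗ₖ (1 : Matrix (Fin d) (Fin d) ℂ)) *
          ((1 : Matrix ι ι ℂ) ⊗ₖ u.1)) * ((1 : Matrix ι ι ℂ) ⊗ₖ u.1ᴴ) := by
          simp only [Matrix.mul_assoc]
      _ = _ := by rw [h5]; simp only [Matrix.mul_assoc]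
  have h6 := congrArg ptr h4
  rw [ptr_mul_right, ptr_mul_left, ptr_cyclic, Matrix.mul_assoc, h3, Matrix.mul_one] at h6
  exact h6

theorem trace_avg (T : PRep d ι) {C : Matrix ι ι ℂ}
    (hC : ∀ u : Matrix.unitaryGroup (Fin d) ℂ, C * T.tp u.1 = T.tp u.1 * C) (Y : Matrix ι ι ℂ) :
    (C * mint (fun v : Matrix.unitaryGroup (Fin d) ℂ => T.tp v.1 * Y * T.tp v.1ᴴ)).trace =
      (C * Y).trace := by
  have hc : Continuous fun v : Matrix.unitaryGroup (Fin d) ℂ => T.tp v.1 * Y * T.tp v.1ᴴ :=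
    ((tp_continuous T).matrix_mul continuous_const).matrix_mul
      (T.cont.comp continuous_val.matrix_conjTranspose)
  rw [← mint_mul_left hc, mint_trace (continuous_const.matrix_mul hc)]
  have h1 : ∀ v : Matrix.unitaryGroup (Fin d) ℂ,
      (C * (T.tp v.1 * Y * T.tp v.1ᴴ)).trace = (C * Y).trace := by
    intro v
    have h2 : T.tp v.1ᴴ * T.tp v.1 = 1 := by
      rw [← T.mul, unitary_conjTranspose_mul, T.one]
    calc (C * (T.tp v.1 * Y * T.tp v.1ᴴ)).trace = ((C * T.tp v.1 * Y) * T.tp v.1ᴴ).trace := by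
          simp only [Matrix.mul_assoc]
      _ = (T.tp v.1ᴴ * (C * T.tp v.1 * Y)).trace := Matrix.trace_mul_comm _ _
      _ = ((T.tp v.1ᴴ * T.tp v.1) * C * Y).trace := by
          rw [hC]; simp only [Matrix.mul_assoc]
      _ = (C * Y).trace := by rw [h2, Matrix.one_mul]
  simp only [h1]
  simp

end Pool.Agent.Helper49_Channels
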