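import Pool.Agent.Helper49_Channels.Q1Key

/-!
# The key inequality, part 2 (towards Q1 of MP_a4cf75_mp)
-/

open MeasureTheory Matrix TopologicalSpace
open scoped Kronecker ComplexConjugate ComplexOrder

namespace Pool.Agent.Helper49_Channels

set_option linter.unusedSectionVars false

variable {d : ℕ} {ι : Type} [Fintype ι] [DecidableEq ι]

open PRep (E E_star)

/-- The core: no negative eigenvalue. -/
theorem core (s : ℕ) {M : Matrix (Fin d) (Fin d) ℂ} (hM : M.PosDef) (htr : M.trace = d)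
    {ξ : (Fin s → Fin d) → ℂ} {ν : Fin d → ℝ} (h : (powRep d s).HW ξ ν) {κ μ : ℂ}
    (hκ : Sop (powRep d s) s *ᵥ ξ = κ • ξ) (hμ : Mop (powRep d s) M *ᵥ ξ = μ • ξ) :
    0 ≤ (∑ i, star (wv ξ i) ⬝ᵥ (((Mop (powRep d s) M ⊗ₖ (1 : Matrix (Fin d) (Fin d) ℂ) -
      Mop (powRep d s).tensor M) * Sop (powRep d s).tensor (s + 1)) *ᵥ wv ξ i)).re := by
  set R := powRep d s with hR
  set X1 : Matrix ((Fin s → Fin d) × Fin d) ((Fin s → Fin d) × Fin d) ℂ :=
    Mop R M ⊗ₖ (1 : Matrix (Fin d) (Fin d) ℂ) with hX1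
  set X2 := Mop R.tensor M with hX2
  set S := Sop R.tensor (s + 1) with hS
  have hX1c : ∀ u : Matrix.unitaryGroup (Fin d) ℂ, X1 * R.tensor.tp u.1 =
      R.tensor.tp u.1 * X1 := by
    intro u
    have e : R.tensor.tp u.1 = R.tp u.1 ⊗ₖ u.1 := rfl
    rw [e, hX1, ← mul_kronecker_mul, ← mul_kronecker_mul, Mop_comm, Matrix.one_mul,
      Matrix.mul_one]
  have hX2c : ∀ u : Matrix.unitaryGroup (Fin d) ℂ, X2 * R.tensor.tp u.1 =
      R.tensor.tp u.1 * X2 := fun u => Mop_comm R.tensor M u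
  -- `κ` is a nonnegative real
  obtain ⟨κr, hκ0, hκr⟩ : ∃ κr : ℝ, 0 ≤ κr ∧ κ = (κr : ℂ) := by
    obtain ⟨r, hr, hr'⟩ := Sop_nonneg R s (fun u => powRep_trace d s u.1) ξ
    rw [hκ, dotProduct_smul, dot_self, smul_eq_mul] at hr'
    have hn := nsq_pos h.ne
    refine ⟨r / nsq ξ, by positivity, ?_⟩
    push_cast
    rw [← hr', mul_div_assoc, div_self (by exact_mod_cast hn.ne'), mul_one]
  -- the diagonal elements of `X1` and `X2`
  have hd1 : ∀ i : Fin d, star (wv ξ i) ⬝ᵥ (X1 *ᵥ wv ξ i) = μ * (nsq ξ : ℂ) := by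
    intro i
    rw [dot_wv, hX1, kron_wv, hμ]
    simp only [one_apply_eq, mul_one]
    rw [show (fun x => (μ • ξ) x) = μ • ξ from rfl, dotProduct_smul, dot_self, smul_eq_mul]
  have hd2 : ∀ i : Fin d, star (wv ξ i) ⬝ᵥ (X2 *ᵥ wv ξ i) = Qc R ξ M 0 i := by
    intro i
    rw [hX2]
    unfold Mop
    rw [mint_dot (Mop_integrand_continuous R.tensor M)]
    unfold Qc
    refine integral_congr_ae (Filter.Eventually.of_forall fun v => ?_)
    have e : R.tensor.tp (v.1 * M * v.1ᴴ) = R.tp (v.1 * M * v.1ᴴ) ⊗ₖ (v.1 * M * v.1ᴴ) := rfl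
    simp only [e]
    rw [dot_wv, kron_wv]
    simp only [Phi, lev, dotProduct]
    rw [Finset.sum_mul]
    refine Finset.sum_congr rfl fun x _ => ?_
    ring
  have hsumQ : ∑ i, Qc R ξ M 0 i = (d : ℂ) * (μ * (nsq ξ : ℂ)) := by
    unfold Qc
    have hc : ∀ i : Fin d, Continuous fun v => Phi R ξ M v * lev M 0 v i i := fun i =>
      (phi_continuous R).mul ((lev_continuous hM 0).matrix_elem i i)
    rw [← integral_finsetSum _ fun i _ => integrable_of_continuous (hc i)]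
    have h1 : ∀ v, ∑ i, Phi R ξ M v * lev M 0 v i i = (d : ℂ) * Phi R ξ M v := by
      intro v
      rw [← Finset.mul_sum]
      have h2 : ∑ i, lev M 0 v i i = (d : ℂ) := by
        have : ∑ i, lev M 0 v i i = (v.1 * M * v.1ᴴ).trace := rfl
        rw [this, Matrix.trace_mul_comm, ← Matrix.mul_assoc, unitary_conjTranspose_mul,
          Matrix.one_mul, htr]
      rw [h2, mul_comm]
    simp only [h1]
    rw [integral_const_mul]
    congr 1
    have h3 := mint_dot (Mop_integrand_continuous R M) (star ξ) ξ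
    have h4 : mint (fun v : Matrix.unitaryGroup (Fin d) ℂ => R.tp (v.1 * M * v.1ᴴ)) =
        Mop R M := rfl
    rw [h4, hμ, dotProduct_smul, dot_self, smul_eq_mul] at h3
    rw [h3]; rfl
  -- the recursion for `X1 - X2`
  set Z : Fin d → ℂ := fun i => star (wv ξ i) ⬝ᵥ (((X1 - X2) * S) *ᵥ wv ξ i) with hZ
  have hX12 : ∀ u : Matrix.unitaryGroup (Fin d) ℂ, (X1 - X2) * R.tensor.tp u.1 =
      R.tensor.tp u.1 * (X1 - X2) := by
    intro u
    rw [Matrix.sub_mul, Matrix.mul_sub, hX1c, hX2c]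
  have hrec : ∀ i : Fin d, ((ν i : ℂ) + 1 + ((Finset.Ioi i).card : ℂ)) * Z i +
      ∑ b ∈ Finset.Iio i, Z b =
      ((s : ℂ) + 1) * κr * (μ * (nsq ξ : ℂ) - Qc R ξ M 0 i) := by
    intro i
    have h1 := recursion R s h hκ hX12 i
    rw [← hS] at h1
    rw [hZ]
    simp only
    rw [h1, sub_mulVec, dotProduct_sub, hd1, hd2, hκr]
  -- pass to real parts and natural-number indices
  set z : ℕ → ℝ := fun m => if hm : m < d then (Z ⟨m, hm⟩).re else 0 with hz
  set r : ℕ → ℝ := fun m => if hm : m < d then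
    ((s : ℝ) + 1) * κr * ((μ * (nsq ξ : ℂ)).re - (Qc R ξ M 0 ⟨m, hm⟩).re) else 0 with hr
  set q : ℕ → ℝ := fun m => if hm : m < d then ν ⟨m, hm⟩ + 1 + ((d - 1 - m : ℕ) : ℝ) else 0
    with hq
  have hzsum : ∑ m ∈ Finset.range d, z m = (∑ i, Z i).re := by
    rw [Complex.re_sum, Finset.sum_range]
    refine Finset.sum_congr rfl fun i _ => ?_
    simp [hz]
  have hfin : 0 ≤ ∑ m ∈ Finset.range d, z m := by
    refine cheb d z r q ?_ ?_ ?_ ?_ ?_
    · intro m hm
      simp only [hq, dif_pos hm]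
      have := powRep_weight_nonneg h ⟨m, hm⟩
      have h2 : (0:ℝ) ≤ ((d - 1 - m : ℕ) : ℝ) := by positivity
      linarith
    · intro m hm
      have hm' : m < d := by omega
      simp only [hq, dif_pos hm, dif_pos hm']
      have h1 : ν ⟨m + 1, hm⟩ ≤ ν ⟨m, hm'⟩ := h.antitone R (by
        rw [Fin.le_def]; simp)
      have h2 : ((d - 1 - m : ℕ) : ℝ) = ((d - 1 - (m + 1) : ℕ) : ℝ) + 1 := by
        have : d - 1 - m = d - 1 - (m + 1) + 1 := by omega
        rw [this]; push_cast; rfl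
      linarith
    · intro m hm
      have h1 := congrArg Complex.re (hrec ⟨m, hm⟩)
      have e1 : ((ν ⟨m, hm⟩ : ℂ) + 1 + ((Finset.Ioi (⟨m, hm⟩ : Fin d)).card : ℂ)) =
          ((ν ⟨m, hm⟩ + 1 + ((d - 1 - m : ℕ) : ℝ) : ℝ) : ℂ) := by
        rw [Fin.card_Ioi]
        push_cast
        rfl
      have e2 : ((s : ℂ) + 1) * κr * (μ * (nsq ξ : ℂ) - Qc R ξ M 0 ⟨m, hm⟩) =
          ((((s : ℝ) + 1) * κr : ℝ) : ℂ) * (μ * (nsq ξ : ℂ) - Qc R ξ M 0 ⟨m, hm⟩) := by
        push_cast; rfl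
      rw [e1, e2, Complex.add_re, Complex.re_ofReal_mul, Complex.re_ofReal_mul,
        Complex.sub_re, Complex.re_sum] at h1
      simp only [hq, hr, dif_pos hm]
      rw [← h1]
      have e3 : z m = (Z ⟨m, hm⟩).re := by simp only [hz, dif_pos hm]
      rw [e3]
      congr 1
      -- sum over `range m` versus `Iio`
      symm
      refine Finset.sum_nbij (fun b : Fin d => (b : ℕ)) ?_ ?_ ?_ ?_
      · intro b hb
        rw [Finset.mem_Iio, Fin.lt_def] at hb
        exact Finset.mem_range.mpr hb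
      · intro a _ b _ hab
        exact Fin.ext hab
      · intro n hn
        have hn' : n < m := Finset.mem_range.mp (Finset.mem_coe.mp hn)
        refine ⟨⟨n, hn'.trans hm⟩, ?_, rfl⟩
        rw [Finset.mem_coe, Finset.mem_Iio, Fin.lt_def]
        exact hn'
      · intro b _
        simp [hz]
    · intro m hm
      have hm' : m < d := by omega
      simp only [hr, dif_pos hm, dif_pos hm']
      have h1 : (Qc R ξ M 0 ⟨m + 1, hm⟩).re ≤ (Qc R ξ M 0 ⟨m, hm'⟩).re :=
        R_antitone R h hM (by rw [Fin.le_def]; simp)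
      have h2 : 0 ≤ ((s : ℝ) + 1) * κr := by positivity
      nlinarith
    · rw [Finset.sum_range]
      have h1 : ∀ i : Fin d, r i = ((s : ℝ) + 1) * κr *
          ((μ * (nsq ξ : ℂ)).re - (Qc R ξ M 0 i).re) := by
        intro i
        simp [hr]
      simp only [h1]
      have h3 : ∑ i, (Qc R ξ M 0 i).re = ((d : ℂ) * (μ * (nsq ξ : ℂ))).re := by
        rw [← hsumQ, Complex.re_sum]
      rw [← Finset.mul_sum, Finset.sum_sub_distrib, h3]
      simp only [Finset.sum_const, Finset.card_univ, Fintype.card_fin, nsmul_eq_mul]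
      have h2 : ((d : ℂ) * (μ * (nsq ξ : ℂ))).re = (d : ℝ) * (μ * (nsq ξ : ℂ)).re := by
        have : ((d : ℂ)) = ((d : ℝ) : ℂ) := by push_cast; rfl
        rw [this, Complex.re_ofReal_mul]
      rw [h2]; ring
  rw [hzsum] at hfin
  exact hfin

theorem commutes_add_conj {A B : Matrix ι ι ℂ} (h1 : A * B = B * A) (h2 : A * Bᴴ = Bᴴ * A) :
    (A + Aᴴ) * B = B * (A + Aᴴ) := by
  have h3 : Aᴴ * B = B * Aᴴ := by
    have := congrArg conjTranspose h2
    rw [conjTranspose_mul, conjTranspose_mul, conjTranspose_conjTranspose] at this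
    exact this.symm
  rw [Matrix.add_mul, Matrix.mul_add, h1, h3]

/-- The key inequality. -/
theorem key_ineq (s : ℕ) {M : Matrix (Fin d) (Fin d) ℂ} (hM : M.PosDef) (htr : M.trace = d) :
    0 ≤ (∫ u, (conj u.1.trace) ^ (s + 1) * ((u.1 * M).trace ^ s * (u.1 * (1 - M)).trace)
      ∂(haarProb (Fin d))).re := by
  set R := powRep d s with hR
  set X1 : Matrix ((Fin s → Fin d) × Fin d) ((Fin s → Fin d) × Fin d) ℂ :=
    Mop R M ⊗ₖ (1 : Matrix (Fin d) (Fin d) ℂ) with hX1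
  set X2 := Mop R.tensor M with hX2
  set S := Sop R.tensor (s + 1) with hS
  have hX1c : ∀ u : Matrix.unitaryGroup (Fin d) ℂ, X1 * R.tensor.tp u.1 =
      R.tensor.tp u.1 * X1 := by
    intro u
    have e : R.tensor.tp u.1 = R.tp u.1 ⊗ₖ u.1 := rfl
    rw [e, hX1, ← mul_kronecker_mul, ← mul_kronecker_mul, Mop_comm, Matrix.one_mul,
      Matrix.mul_one]
  have hX2c : ∀ u : Matrix.unitaryGroup (Fin d) ℂ, X2 * R.tensor.tp u.1 =
      R.tensor.tp u.1 * X2 := fun u => Mop_comm R.tensor M u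
  have hSc : ∀ u : Matrix.unitaryGroup (Fin d) ℂ, S * R.tensor.tp u.1 =
      R.tensor.tp u.1 * S := fun u => Sop_comm R.tensor (s + 1) u
  set B := (X1 - X2) * S with hB
  have hBc : ∀ u : Matrix.unitaryGroup (Fin d) ℂ, B * R.tensor.tp u.1 =
      R.tensor.tp u.1 * B := by
    intro u
    rw [hB, Matrix.mul_assoc, hSc, ← Matrix.mul_assoc, Matrix.sub_mul, hX1c, hX2c,
      ← Matrix.mul_sub, Matrix.mul_assoc]
  -- the integral is a trace
  have htrace : ∫ u, (conj u.1.trace) ^ (s + 1) * ((u.1 * M).trace ^ s *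
      (u.1 * (1 - M)).trace) ∂(haarProb (Fin d)) = (ptr B).trace := by
    have h1 : (S * (R.tp M ⊗ₖ (1 - M))).trace =
        ∫ u, (conj u.1.trace) ^ (s + 1) * ((u.1 * M).trace ^ s *
      (u.1 * (1 - M)).trace) ∂(haarProb (Fin d)) := by
      have hc := Sop_integrand_continuous R.tensor (s + 1)
      rw [hS]
      unfold Sop
      rw [← mint_mul_right hc, mint_trace (hc.matrix_mul continuous_const)]
      refine integral_congr_ae (Filter.Eventually.of_forall fun u => ?_)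
      simp only
      have e : R.tensor.tp u.1 = R.tp u.1 ⊗ₖ u.1 := rfl
      rw [e, Matrix.smul_mul, ← mul_kronecker_mul, Matrix.trace_smul, trace_kronecker,
        ← R.mul, powRep_trace, smul_eq_mul]
    rw [← h1, ptr_trace, hB, Matrix.trace_mul_comm (X1 - X2) S]
    have h2 : R.tp M ⊗ₖ (1 - M) = R.tp M ⊗ₖ (1 : Matrix (Fin d) (Fin d) ℂ) -
        R.tensor.tp M := by
      have e : R.tensor.tp M = R.tp M ⊗ₖ M := rfl
      rw [e]
      ext x y
      simp only [kroneckerMap_apply, Matrix.sub_apply, mul_sub]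
    rw [h2, Matrix.mul_sub, Matrix.trace_sub, Matrix.mul_sub, Matrix.trace_sub,
      ← trace_avg R.tensor hSc, ← trace_avg R.tensor hSc (R.tensor.tp M)]
    congr 3
    · rw [hX1]
      unfold Mop
      ext x y
      simp only [mint, of_apply, kroneckerMap_apply]
      rw [← integral_mul_const]
      refine integral_congr_ae (Filter.Eventually.of_forall fun v => ?_)
      simp only
      have e : R.tensor.tp v.1 = R.tp v.1 ⊗ₖ v.1 := rfl
      have e' : R.tensor.tp v.1ᴴ = R.tp v.1ᴴ ⊗ₖ v.1ᴴ := rfl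
      rw [e, e', ← mul_kronecker_mul, ← mul_kronecker_mul, Matrix.mul_one,
        unitary_mul_conjTranspose, ← R.mul, ← R.mul]
      rfl
    · rw [hX2]
      unfold Mop
      congr 1
      funext v
      rw [← R.tensor.mul, ← R.tensor.mul]
  rw [htrace]
  by_contra hneg
  push Not at hneg
  set Λ := ptr B with hΛ
  have hΛc : ∀ u : Matrix.unitaryGroup (Fin d) ℂ, Λ * R.tp u.1 = R.tp u.1 * Λ :=
    ptr_comm R hBc
  set G := Λ + Λᴴ with hG
  have hGc : ∀ u : Matrix.unitaryGroup (Fin d) ℂ, G * R.tp u.1 = R.tp u.1 * G := by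
    intro u
    refine commutes_add_conj (hΛc u) ?_
    rw [← R.star]
    exact hΛc u⁻¹
  have hGH : G.IsHermitian := by
    unfold Matrix.IsHermitian
    rw [hG, conjTranspose_add, conjTranspose_conjTranspose, add_comm]
  have hGtr : G.trace = ((2 * Λ.trace.re : ℝ) : ℂ) := by
    rw [hG, Matrix.trace_add, Matrix.trace_conjTranspose]
    have : star Λ.trace = conj Λ.trace := rfl
    rw [this, Complex.add_conj]
  -- a negative eigenvalue
  obtain ⟨i, hi⟩ : ∃ i, hGH.eigenvalues i < 0 := by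
    by_contra hcon
    push Not at hcon
    have h1 := hGH.trace_eq_sum_eigenvalues
    have h2 : ((2 * Λ.trace.re : ℝ) : ℂ) = ((∑ i, hGH.eigenvalues i : ℝ) : ℂ) := by
      rw [← hGtr, h1]
      push_cast
      rfl
    have h3 : 2 * Λ.trace.re = ∑ i, hGH.eigenvalues i := by exact_mod_cast h2
    have h4 : 0 ≤ ∑ i, hGH.eigenvalues i := Finset.sum_nonneg fun i _ => hcon i
    linarith
  set lam := hGH.eigenvalues i with hlam
  set K : Submodule ℂ ((Fin s → Fin d) → ℂ) :=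
    LinearMap.ker (G.toLin' - (lam : ℂ) • LinearMap.id) with hK
  have memK : ∀ ξ, ξ ∈ K ↔ G *ᵥ ξ = (lam : ℂ) • ξ := by
    intro ξ
    rw [hK, LinearMap.mem_ker]
    simp [sub_eq_zero]
  have hKne : K ≠ ⊥ := by
    rw [Submodule.ne_bot_iff]
    refine ⟨⇑(hGH.eigenvectorBasis i), (memK _).mpr ?_, ?_⟩
    · rw [hGH.mulVec_eigenvectorBasis i]
      rfl
    · intro h0
      have h1 := hGH.eigenvectorBasis.orthonormal.1 i
      have h2 : hGH.eigenvectorBasis i = 0 := by
        ext x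
        exact congrFun h0 x
      rw [h2, norm_zero] at h1
      exact zero_ne_one h1
  have stab : ∀ C : Matrix (Fin s → Fin d) (Fin s → Fin d) ℂ, G * C = C * G →
      ∀ ξ ∈ K, C *ᵥ ξ ∈ K := by
    intro C hC ξ hξ
    rw [memK] at hξ ⊢
    rw [mulVec_mulVec, hC, ← mulVec_mulVec, hξ, mulVec_smul]
  have hGS : G * Sop R s = Sop R s * G := by
    unfold Sop
    refine mint_comm (Sop_integrand_continuous R s) fun u => ?_
    rw [Matrix.mul_smul, Matrix.smul_mul, hGc]
  have hGM : G * Mop R M = Mop R M * G := by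
    unfold Mop
    refine mint_comm (Mop_integrand_continuous R M) fun v => ?_
    exact R.comm_tp hGc (lev_posDef hM 0 v)
  have hSM : Sop R s * Mop R M = Mop R M * Sop R s := by
    unfold Sop
    symm
    refine mint_comm (Sop_integrand_continuous R s) fun u => ?_
    rw [Matrix.mul_smul, Matrix.smul_mul, Mop_comm]
  obtain ⟨ξ, hξK, ν, κ, μ, hHW, hκ, hμ⟩ := R.exists_hw K hKne
    (fun X => stab _ (R.comm_dp hGc X)) (Sop R s) (Mop R M) hSM
    (R.comm_dp (Sop_comm R s)) (R.comm_dp (Mop_comm R M)) (stab _ hGS) (stab _ hGM)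
  have hc := core s hM htr hHW hκ hμ
  have h1 : star ξ ⬝ᵥ (Λ *ᵥ ξ) = ∑ i, star (wv ξ i) ⬝ᵥ (B *ᵥ wv ξ i) := ptr_dot B ξ
  have h2 : 0 ≤ (star ξ ⬝ᵥ (Λ *ᵥ ξ)).re := by rw [h1]; exact hc
  have h3 : star ξ ⬝ᵥ (G *ᵥ ξ) = ((2 * (star ξ ⬝ᵥ (Λ *ᵥ ξ)).re : ℝ) : ℂ) := by
    rw [hG, add_mulVec, dotProduct_add, ← star_mulVec_dot]
    have h4 : star (Λ *ᵥ ξ) ⬝ᵥ ξ = conj (star ξ ⬝ᵥ (Λ *ᵥ ξ)) := by
      simp only [dotProduct, Pi.star_apply, map_sum, map_mul]
      refine Finset.sum_congr rfl fun x _ => ?_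
      have : conj (star (ξ x)) = ξ x := star_star _
      rw [this, mul_comm]; rfl
    rw [h4, Complex.add_conj]
  rw [(memK ξ).mp hξK, dotProduct_smul, dot_self, smul_eq_mul] at h3
  have h5 : lam * nsq ξ = 2 * (star ξ ⬝ᵥ (Λ *ᵥ ξ)).re := by exact_mod_cast h3
  have h6 := nsq_pos hHW.ne
  nlinarith

end Pool.Agent.Helper49_Channels
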