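import Pool.Agent.Helper49_Channels.Q1Final
import Pool.Agent.Helper49_Channels.DefsDep

/-!
# The lower bound `1 = ‖T_Dep‖² ≤ ‖T_cHaar^k‖²` (known part of Q1 of MP_a4cf75_mp)
-/

open MeasureTheory Matrix TopologicalSpace
open scoped Kronecker ComplexConjugate ComplexOrder

namespace Pool.Agent.Helper49_Channels

set_option linter.unusedSectionVars false

variable {d e : ℕ}

theorem hsSq_tpow {X : Type} [Fintype X] [DecidableEq X] (t : ℕ) (C : Matrix X X ℂ) :
    hsSq (tpow t C) = hsSq C ^ t := by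
  have h : ((hsSq (tpow t C) : ℝ) : ℂ) = ((hsSq C ^ t : ℝ) : ℂ) := by
    rw [← hsSq_trace, tpow_conjTranspose, ← tpow_mul, tpow_trace, hsSq_trace]
    push_cast
    rfl
  exact_mod_cast h

theorem hsSq_momentDep (t d : ℕ) (hd : 1 ≤ d) : hsSq (momentDep t d) = 1 := by
  set C : Matrix (Fin d × Fin d) (Fin d × Fin d) ℂ :=
    Matrix.of fun a b => (if b.1 = b.2 then 1 else 0) / (d : ℂ) * (if a.1 = a.2 then 1 else 0)
    with hC
  have h1 : momentDep t d = tpow t C := by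
    ext a b
    simp only [momentDep, tensorPow, tpow, of_apply]
    refine Finset.prod_congr rfl fun s _ => ?_
    show (((Matrix.single (b s).1 (b s).2 (1 : ℂ)).trace / (d : ℂ)) •
      (1 : Matrix (Fin d) (Fin d) ℂ)) (a s).1 (a s).2 = _
    rw [Matrix.smul_apply, Matrix.one_apply, smul_eq_mul]
    congr 2
    by_cases hb : (b s).1 = (b s).2
    · rw [if_pos hb, hb, Matrix.trace_single_eq_same]
    · rw [if_neg hb, Matrix.trace_single_eq_of_ne _ _ _ hb]
  rw [h1, hsSq_tpow]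
  have h2 : hsSq C = 1 := by
    have hd0 : (d : ℝ) ≠ 0 := by exact_mod_cast (by omega : d ≠ 0)
    unfold hsSq
    have h3 : ∀ a b : Fin d × Fin d, ‖C a b‖ ^ 2 =
        (if a.1 = a.2 then (1:ℝ) else 0) * ((if b.1 = b.2 then (1:ℝ) else 0) * ((d : ℝ) ^ 2)⁻¹) := by
      intro a b
      simp only [hC, of_apply]
      by_cases ha : a.1 = a.2 <;> by_cases hb : b.1 = b.2 <;> simp [ha, hb]
    simp only [h3]
    have h4 : ∑ x : Fin d × Fin d, (if x.1 = x.2 then (1:ℝ) else 0) = d := by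
      rw [Fintype.sum_prod_type]
      simp
    simp only [← Finset.mul_sum, ← Finset.sum_mul, h4]
    field_simp
  rw [h2, one_pow]

/-- A matrix fixing a nonzero row vector has Hilbert-Schmidt norm at least one. -/
theorem one_le_hsSq_of_fixed {κ : Type} [Fintype κ] {A : Matrix κ κ ℂ} {v : κ → ℂ}
    (hv : 0 < ∑ a, ‖v a‖ ^ 2) (h : v ᵥ* A = v) : 1 ≤ hsSq A := by
  have h1 : ∀ b, ‖v b‖ ^ 2 ≤ (∑ a, ‖v a‖ ^ 2) * ∑ a, ‖A a b‖ ^ 2 := by
    intro b
    have h2 : ‖v b‖ ≤ ∑ a, ‖v a‖ * ‖A a b‖ := by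
      have h3 : v b = ∑ a, v a * A a b := by
        conv_lhs => rw [← h]
        rfl
      rw [h3]
      refine (norm_sum_le _ _).trans (le_of_eq ?_)
      simp only [norm_mul]
    calc ‖v b‖ ^ 2 ≤ (∑ a, ‖v a‖ * ‖A a b‖) ^ 2 :=
          pow_le_pow_left₀ (norm_nonneg _) h2 2
      _ ≤ _ := Finset.sum_mul_sq_le_sq_mul_sq _ _ _
  have h4 : ∑ b, ‖v b‖ ^ 2 ≤ (∑ a, ‖v a‖ ^ 2) * hsSq A := by
    refine (Finset.sum_le_sum fun b _ => h1 b).trans (le_of_eq ?_)
    rw [← Finset.mul_sum, Finset.sum_comm]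
    rfl
  exact (le_mul_iff_one_le_right hv).mp h4

/-- Components of the identity operator on `(C^d)^{⊗ t}`. -/
def vId (t d : ℕ) (a : Fin t → Fin d × Fin d) : ℂ := ∏ s, if (a s).1 = (a s).2 then 1 else 0

theorem vId_tpow (t : ℕ) {E : Type} [Fintype E] (K : E → Matrix (Fin d) (Fin d) ℂ)
    (hK : ∑ m, (K m)ᴴ * K m = 1) : vId t d ᵥ* tpow t (Cm K) = vId t d := by
  ext b
  simp only [vecMul, dotProduct, vId, tpow, of_apply, ← Finset.prod_mul_distrib]
  have h1 : ∏ s, ∑ x : Fin d × Fin d, (if x.1 = x.2 then (1:ℂ) else 0) * Cm K x (b s) =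
      ∑ a : Fin t → Fin d × Fin d, ∏ s, (if (a s).1 = (a s).2 then (1:ℂ) else 0) *
        Cm K (a s) (b s) := by
    rw [Finset.prod_univ_sum, Fintype.piFinset_univ]
  rw [← h1]
  refine Finset.prod_congr rfl fun s _ => ?_
  have h2 := congrFun (congrFun hK (b s).2) (b s).1
  simp only [Matrix.sum_apply, Matrix.mul_apply, conjTranspose_apply] at h2
  rw [Fintype.sum_prod_type]
  simp only [ite_mul, one_mul, zero_mul, Finset.sum_ite_eq, Finset.mem_univ, if_true, Cm, of_apply]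
  rw [Finset.sum_comm]
  have h3 : ∀ y : E, ∑ x : Fin d, K y x (b s).1 * conj (K y x (b s).2) =
      ∑ x : Fin d, star (K y x (b s).2) * K y x (b s).1 := by
    intro y
    refine Finset.sum_congr rfl fun x _ => ?_
    rw [mul_comm]; rfl
  simp only [h3]
  rw [h2, Matrix.one_apply]
  by_cases hb : (b s).1 = (b s).2
  · simp [hb]
  · rw [if_neg hb, if_neg (Ne.symm hb)]

theorem vId_TC (t : ℕ) (he : 0 < e) : vId t d ᵥ* TC t d he = vId t d := by
  have hc := TC_integrand_continuous (d := d) t he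
  ext b
  have h1 : (vId t d ᵥ* TC t d he) b = ∫ V, (vId t d ᵥ* tpow t (Cm (KV he V.1))) b
      ∂(haarProb (Fin d × Fin e)) := by
    simp only [vecMul, dotProduct, TC, gint, of_apply]
    rw [integral_finsetSum _ fun a _ =>
      (integrable_of_continuous (hc.matrix_elem a b)).const_mul _]
    simp only [integral_const_mul]
  rw [h1]
  have h2 : ∀ V : Matrix.unitaryGroup (Fin d × Fin e) ℂ,
      vId t d ᵥ* tpow t (Cm (KV he V.1)) = vId t d := fun V => vId_tpow t _ (KV_kraus he V)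
  simp only [h2]
  simp

theorem one_le_N (t k d e : ℕ) (hd : 1 ≤ d) (he : 1 ≤ e) : 1 ≤ N t k d e := by
  have he0 : 0 < e := he
  unfold N
  rw [momentCHaar_eq t d he0]
  have h1 : ∀ k : ℕ, vId t d ᵥ* (TC t d he0 ^ k) = vId t d := by
    intro k
    induction k with
    | zero => rw [pow_zero, vecMul_one]
    | succ k ih => rw [pow_succ, ← vecMul_vecMul, ih, vId_TC]
  refine one_le_hsSq_of_fixed (v := vId t d) ?_ (h1 k)
  have h2 : ‖vId t d (fun _ => (⟨0, hd⟩, ⟨0, hd⟩))‖ ^ 2 = 1 := by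
    simp [vId]
  refine lt_of_lt_of_le one_pos ?_
  rw [← h2]
  exact Finset.single_le_sum (f := fun a => ‖vId t d a‖ ^ 2) (fun a _ => by positivity)
    (Finset.mem_univ _)

end Pool.Agent.Helper49_Channels
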