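import Pool.Agent.Helper49_Channels.Q1Elim

/-!
# Monotonicity of the weighted diagonal averages (towards Q1 of MP_a4cf75_mp)

For a highest weight vector `ξ` and positive definite `M`, the averages
`R_j = ∫ ⟨ξ, tp(v M v†) ξ⟩ (v M v†)_{jj} dv` are non-increasing in `j`.
-/

open MeasureTheory Matrix TopologicalSpace
open scoped Kronecker ComplexConjugate ComplexOrder

namespace Pool.Agent.Helper49_Channels

set_option linter.unusedSectionVars false

variable {d : ℕ} {ι : Type} [Fintype ι] [DecidableEq ι]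

open PRep (E E_star)

namespace PRep

variable (R : PRep d ι) {ξ : ι → ℂ} {ν : Fin d → ℝ}

theorem dot_dp (A : Matrix (Fin d) (Fin d) ℂ) (ζ η : ι → ℂ) :
    Star.star ζ ⬝ᵥ (R.dp A *ᵥ η) = Star.star (R.dp Aᴴ *ᵥ ζ) ⬝ᵥ η := by
  rw [star_mulVec_dot, ← R.dp_star, conjTranspose_conjTranspose]

theorem HW.lower_left (h : R.HW ξ ν) {a b : Fin d} (hab : b < a) (η : ι → ℂ) :
    Star.star ξ ⬝ᵥ (R.dp (E a b) *ᵥ η) = 0 := by
  rw [R.dot_dp, E_star, h.raise b a hab]; simp

theorem HW.weight_left (h : R.HW ξ ν) (a : Fin d) (η : ι → ℂ) :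
    Star.star ξ ⬝ᵥ (R.dp (E a a) *ᵥ η) = ν a * (Star.star ξ ⬝ᵥ η) := by
  rw [R.dot_dp, E_star, h.weight, star_smul, smul_dotProduct, smul_eq_mul]
  simp

end PRep

variable (R : PRep d ι) {ξ : ι → ℂ} {ν : Fin d → ℝ} {M : Matrix (Fin d) (Fin d) ℂ}

/-- The weight function. -/
noncomputable def Phi (R : PRep d ι) (ξ : ι → ℂ) (M : Matrix (Fin d) (Fin d) ℂ)
    (v : Matrix.unitaryGroup (Fin d) ℂ) : ℂ :=
  star ξ ⬝ᵥ (R.tp (v.1 * M * v.1ᴴ) *ᵥ ξ)

theorem tp_ycol_fix (h : R.HW ξ ν) {k : Fin d} {m : Matrix (Fin d) (Fin d) ℂ}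
    (hm : Iso k m) : R.tp ((1 + ycol k m)ᴴ) *ᵥ ξ = ξ := by
  rw [conjTranspose_add, conjTranspose_one]
  refine R.tp_unipotent ?_ ?_
  · rw [← conjTranspose_mul, ycol_sq, conjTranspose_zero]
  · have h1 : (ycol k m)ᴴ = ∑ a, (star (ycol k m a k)) • E k a := by
      ext x y
      rw [Matrix.sum_apply, conjTranspose_apply]
      simp only [Matrix.smul_apply, E, single_apply, smul_eq_mul]
      by_cases hx : x = k
      · subst hx; simp
      · simp [ycol, hx, Ne.symm hx]
    rw [h1, map_sum, Matrix.sum_mulVec]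
    refine Finset.sum_eq_zero fun a _ => ?_
    rw [map_smul, smul_mulVec]
    by_cases ha : k < a
    · rw [h.raise k a ha, smul_zero]
    · have : ycol k m a k = 0 := by
        simp only [ycol, of_apply]
        by_cases hak : a = k
        · simp [hak]
        · have hlt : (a : ℕ) < k := lt_of_le_of_ne (not_lt.mp ha) fun h => hak (Fin.ext h)
          rw [hm a k hak (Or.inl hlt)]; simp
      rw [this]; simp

theorem phi_lev (h : R.HW ξ ν) (hM : M.PosDef) (k : ℕ) (hk : k ≤ d)
    (v : Matrix.unitaryGroup (Fin d) ℂ) :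
    star ξ ⬝ᵥ (R.tp (lev M k v) *ᵥ ξ) = Phi R ξ M v := by
  induction k with
  | zero => rfl
  | succ k ih =>
    have hkd : k < d := hk
    rw [← ih hkd.le]
    have hstep : lev M (k + 1) v = elim ⟨k, hkd⟩ (lev M k v) := by simp [lev, hkd]
    rw [hstep]
    set m := lev M k v with hm
    have hmp : m.PosDef := lev_posDef hM k v
    have hiso : Iso k m := lev_iso hM k hkd.le v
    have hc := elim_conj (k := ⟨k, hkd⟩) hmp.1 (posDef_diag_ne hmp _)
    have hfix := tp_ycol_fix R h (k := ⟨k, hkd⟩) (m := m) hiso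
    conv_rhs => rw [hc]
    rw [R.mul, R.mul, ← mulVec_mulVec, hfix, ← mulVec_mulVec]
    have : ∀ η : ι → ℂ, star ξ ⬝ᵥ (R.tp (1 + ycol ⟨k, hkd⟩ m) *ᵥ η) = star ξ ⬝ᵥ η := by
      intro η
      have h1 := star_mulVec_dot (R.tp ((1 + ycol ⟨k, hkd⟩ m)ᴴ)) ξ η
      rw [hfix, ← R.star, conjTranspose_conjTranspose] at h1
      exact h1.symm
    rw [this]

theorem continuous_dot {F : Matrix.unitaryGroup (Fin d) ℂ → Matrix ι ι ℂ} (hF : Continuous F)
    (ζ ξ : ι → ℂ) : Continuous fun v => ζ ⬝ᵥ (F v *ᵥ ξ) :=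
  Continuous.dotProduct continuous_const (hF.matrix_mulVec continuous_const)

theorem phi_continuous : Continuous (Phi R ξ M) := by
  refine continuous_dot ?_ _ _
  refine R.cont.comp ?_
  have h1 : Continuous (fun v : Matrix.unitaryGroup (Fin d) ℂ => v.1) := continuous_subtype_val
  exact (h1.matrix_mul continuous_const).matrix_mul h1.matrix_conjTranspose

theorem ucurve_fixes {k : ℕ} {X : Matrix (Fin d) (Fin d) ℂ} (c : UCurve X)
    (hX : ∀ a b : Fin d, ((a : ℕ) < k ∨ (b : ℕ) < k) → X a b = 0) (θ : ℝ) :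
    Fixes k (c.w θ).1 := by
  have hR : ∀ x, MDeriv (fun θ => (c.w θ).1) ((c.w x).1 * X) x := by
    intro x
    refine MDeriv.of_shift ?_
    refine (c.deriv_zero.const_mul (c.w x).1).congr fun s => ?_
    rw [c.add]; rfl
  intro a b hab
  have hder : ∀ x, HasDerivAt (fun θ => (c.w θ).1 a b) 0 x := by
    intro x
    rcases hab with ha | hb
    · have := c.deriv x a b
      have h0 : (X * (c.w x).1) a b = 0 := by
        rw [Matrix.mul_apply]
        exact Finset.sum_eq_zero fun e _ => by rw [hX a e (Or.inl ha), zero_mul]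
      rwa [h0] at this
    · have := hR x a b
      have h0 : ((c.w x).1 * X) a b = 0 := by
        rw [Matrix.mul_apply]
        exact Finset.sum_eq_zero fun e _ => by rw [hX e b (Or.inr hb), mul_zero]
      rwa [h0] at this
  have h1 := is_const_of_deriv_eq_zero (f := fun θ => (c.w θ).1 a b)
    (fun x => (hder x).differentiableAt) (fun x => (hder x).deriv) θ 0
  simp only [c.zero] at h1
  rw [h1]; rfl

/-- The basic integral identity at level `k`. -/
theorem level_identity (h : R.HW ξ ν) (hM : M.PosDef) (k : ℕ) (hk : k ≤ d)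
    (p : Matrix (Fin d) (Fin d) ℂ → ℂ)
    (p' : Matrix (Fin d) (Fin d) ℂ → Matrix (Fin d) (Fin d) ℂ →ₗ[ℂ] ℂ)
    (hp : ∀ (g : ℝ → Matrix (Fin d) (Fin d) ℂ) (g' : Matrix (Fin d) (Fin d) ℂ) (x : ℝ),
      (g x).PosDef → MDeriv g g' x → HasDerivAt (fun θ => p (g θ)) (p' (g x) g') x)
    (hpc : Continuous fun v => p (lev M k v))
    (hpc' : ∀ X, Continuous fun v => p' (lev M k v) (X * lev M k v - lev M k v * X))
    (X : Matrix (Fin d) (Fin d) ℂ)
    (hX : ∀ a b : Fin d, ((a : ℕ) < k ∨ (b : ℕ) < k) → X a b = 0) :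
    ∫ v, (p' (lev M k v) (X * lev M k v - lev M k v * X) * Phi R ξ M v +
      p (lev M k v) * (star ξ ⬝ᵥ ((R.dp X * R.tp (lev M k v) -
        R.tp (lev M k v) * R.dp X) *ᵥ ξ))) ∂(haarProb (Fin d)) = 0 := by
  set G : Matrix (Fin d) (Fin d) ℂ → Matrix.unitaryGroup (Fin d) ℂ → ℂ := fun X v =>
    p' (lev M k v) (X * lev M k v - lev M k v * X) * Phi R ξ M v +
      p (lev M k v) * (star ξ ⬝ᵥ ((R.dp X * R.tp (lev M k v) -
        R.tp (lev M k v) * R.dp X) *ᵥ ξ)) with hG
  have hlc := lev_continuous hM k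
  have htc : Continuous fun v => R.tp (lev M k v) := R.cont.comp hlc
  have hGc : ∀ X, Continuous (G X) := by
    intro X
    refine ((hpc' X).mul (phi_continuous R)).add (hpc.mul ?_)
    refine continuous_dot ?_ _ _
    exact (continuous_const.matrix_mul htc).sub (htc.matrix_mul continuous_const)
  have hGadd : ∀ X Y v, G (X + Y) v = G X v + G Y v := by
    intro X Y v
    simp only [hG]
    have h1 : (X + Y) * lev M k v - lev M k v * (X + Y) =
        (X * lev M k v - lev M k v * X) + (Y * lev M k v - lev M k v * Y) := by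
      rw [Matrix.add_mul, Matrix.mul_add]; abel
    have h2 : R.dp (X + Y) * R.tp (lev M k v) - R.tp (lev M k v) * R.dp (X + Y) =
        (R.dp X * R.tp (lev M k v) - R.tp (lev M k v) * R.dp X) +
        (R.dp Y * R.tp (lev M k v) - R.tp (lev M k v) * R.dp Y) := by
      rw [map_add, Matrix.add_mul, Matrix.mul_add]; abel
    rw [h1, h2, map_add, add_mulVec, dotProduct_add]
    ring
  have hGsmul : ∀ (c : ℂ) X v, G (c • X) v = c * G X v := by
    intro c X v
    simp only [hG]
    have h1 : (c • X) * lev M k v - lev M k v * (c • X) =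
        c • (X * lev M k v - lev M k v * X) := by
      rw [Matrix.smul_mul, Matrix.mul_smul, smul_sub]
    have h2 : R.dp (c • X) * R.tp (lev M k v) - R.tp (lev M k v) * R.dp (c • X) =
        c • (R.dp X * R.tp (lev M k v) - R.tp (lev M k v) * R.dp X) := by
      rw [map_smul, Matrix.smul_mul, Matrix.mul_smul, smul_sub]
    rw [h1, h2, map_smul, smul_mulVec, dotProduct_smul, smul_eq_mul, smul_eq_mul]
    ring
  let I : Matrix (Fin d) (Fin d) ℂ →ₗ[ℂ] ℂ :=
    { toFun := fun X => ∫ v, G X v ∂(haarProb (Fin d))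
      map_add' := by
        intro X Y
        simp only [hGadd]
        exact integral_add (integrable_of_continuous (hGc X)) (integrable_of_continuous (hGc Y))
      map_smul' := by
        intro c X
        simp only [hGsmul, RingHom.id_apply, smul_eq_mul]
        exact integral_const_mul c _ }
  have key := eq_zero_of_skew I
    (fun X => ∀ a b : Fin d, ((a : ℕ) < k ∨ (b : ℕ) < k) → X a b = 0)
    (fun X Y hX hY a b hab => by rw [Matrix.add_apply, hX a b hab, hY a b hab, add_zero])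
    (fun c X hX a b hab => by rw [Matrix.smul_apply, hX a b hab, smul_zero])
    (fun X hX a b hab => by rw [conjTranspose_apply, hX b a hab.symm, star_zero]) ?_ X hX
  · exact key
  · intro X hXs hXk
    obtain ⟨c⟩ := exists_ucurve hXs
    show ∫ v, G X v ∂(haarProb (Fin d)) = 0
    refine integral_deriv_left c (f := fun v => p (lev M k v) *
      (star ξ ⬝ᵥ (R.tp (lev M k v) *ᵥ ξ))) (hpc.mul (continuous_dot htc _ _)) (hGc X) ?_
    intro v
    have hlev : ∀ θ, lev M k (c.w θ * v) = (c.w θ).1 * lev M k v * (c.w θ).1ᴴ := fun θ =>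
      lev_equivariant k (c.w θ) v (ucurve_fixes c hXk θ)
    have hm : MDeriv (fun θ => (c.w θ).1 * lev M k v * (c.w θ).1ᴴ)
        (X * lev M k v - lev M k v * X) 0 := by
      have := (c.deriv_zero.mul_const (lev M k v)).mul c.deriv_zero.conjTranspose
      simp only [c.zero] at this
      have h1 : (1 : Matrix.unitaryGroup (Fin d) ℂ).1 = (1 : Matrix (Fin d) (Fin d) ℂ) := rfl
      rw [h1, conjTranspose_one, Matrix.mul_one, Matrix.one_mul, hXs, Matrix.mul_neg,
        ← sub_eq_add_neg] at this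
      exact this
    have h0 : (c.w 0).1 * lev M k v * (c.w 0).1ᴴ = lev M k v := by
      rw [c.zero]
      have h1 : (1 : Matrix.unitaryGroup (Fin d) ℂ).1 = (1 : Matrix (Fin d) (Fin d) ℂ) := rfl
      rw [h1, conjTranspose_one, Matrix.mul_one, Matrix.one_mul]
    have hp1 := hp _ _ 0 (by rw [h0]; exact lev_posDef hM k v) hm
    have ht := R.deriv hm
    rw [h0] at ht hp1
    rw [map_sub, R.D_mul_left, R.D_mul_right] at ht
    have hdot : HasDerivAt (fun θ => star ξ ⬝ᵥ (R.tp ((c.w θ).1 * lev M k v *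
        (c.w θ).1ᴴ) *ᵥ ξ)) (star ξ ⬝ᵥ ((R.dp X * R.tp (lev M k v) -
        R.tp (lev M k v) * R.dp X) *ᵥ ξ)) 0 := by
      simp only [dotProduct, mulVec]
      refine HasDerivAt.fun_sum fun i _ => ?_
      refine HasDerivAt.const_mul _ ?_
      refine HasDerivAt.fun_sum fun j _ => ?_
      exact (ht i j).mul_const _
    have hfin := hp1.mul hdot
    simp only [h0] at hfin
    have hval : G X v = p' (lev M k v) (X * lev M k v - lev M k v * X) *
        (star ξ ⬝ᵥ (R.tp (lev M k v) *ᵥ ξ)) + p (lev M k v) *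
        (star ξ ⬝ᵥ ((R.dp X * R.tp (lev M k v) - R.tp (lev M k v) * R.dp X) *ᵥ ξ)) := by
      simp only [hG]
      rw [phi_lev R h hM k hk v]
    rw [hval]
    refine hfin.congr_of_eventuallyEq (Filter.Eventually.of_forall fun θ => ?_)
    simp only [Pi.mul_apply, hlev]

end Pool.Agent.Helper49_Channels
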