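import Pool.Agent.Helper49_Channels.Q1Level

/-!
# Monotonicity of the weighted diagonal averages, part 2
-/

open MeasureTheory Matrix TopologicalSpace
open scoped Kronecker ComplexConjugate ComplexOrder

namespace Pool.Agent.Helper49_Channels

set_option linter.unusedSectionVars false

variable {d : ℕ} {ι : Type} [Fintype ι] [DecidableEq ι]

open PRep (E E_star)

variable (R : PRep d ι) {ξ : ι → ℂ} {ν : Fin d → ℝ} {M : Matrix (Fin d) (Fin d) ℂ}

/-- The quantity `⟨ξ, dp(E_{aj}) tp(m) ξ⟩`. -/
noncomputable def gq (R : PRep d ι) (ξ : ι → ℂ) (a j : Fin d)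
    (m : Matrix (Fin d) (Fin d) ℂ) : ℂ :=
  star ξ ⬝ᵥ (R.dp (E a j) *ᵥ (R.tp m *ᵥ ξ))

theorem comm_apply (h : R.HW ξ ν) {a j : Fin d} (haj : a < j) (m : Matrix (Fin d) (Fin d) ℂ) :
    star ξ ⬝ᵥ ((R.dp (E a j) * R.tp m - R.tp m * R.dp (E a j)) *ᵥ ξ) = gq R ξ a j m := by
  rw [sub_mulVec, ← mulVec_mulVec, ← mulVec_mulVec, h.raise a j haj, mulVec_zero, sub_zero]
  rfl

theorem E_support {k : ℕ} {a j : Fin d} (ha : k ≤ a) (hj : k ≤ j) (x y : Fin d)
    (h : (x : ℕ) < k ∨ (y : ℕ) < k) : E a j x y = 0 := by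
  have h1 : ¬(a = x ∧ j = y) := by
    rintro ⟨rfl, rfl⟩
    omega
  simp [E, single_apply, h1]

/-- Integral identity (I1). -/
theorem identity_one (h : R.HW ξ ν) (hM : M.PosDef) {k j : Fin d} (hkj : k < j) :
    ∫ v, ((lev M k v j j - lev M k v k k) * Phi R ξ M v +
      lev M k v k j * gq R ξ k j (lev M k v)) ∂(haarProb (Fin d)) = 0 := by
  have hc : ∀ a b, Continuous fun v => lev M k v a b := fun a b =>
    (lev_continuous hM k).matrix_elem a b
  have key := level_identity R h hM k k.2.le (fun m => m k j)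
    (fun _ => Matrix.entryLinearMap ℂ ℂ k j)
    (fun g g' x _ hg => by simpa using hg k j) (hc k j)
    (fun X => by
      have h1 := ((continuous_const (y := X)).matrix_mul (lev_continuous hM k)).sub
        ((lev_continuous hM k).matrix_mul (continuous_const (y := X)))
      exact h1.matrix_elem k j)
    (E k j) (E_support le_rfl hkj.le)
  rw [← key]
  refine integral_congr_ae (Filter.Eventually.of_forall fun v => ?_)
  simp only [Matrix.entryLinearMap_apply, Matrix.sub_apply, E_mul_apply, mul_E_apply, if_true]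
  rw [comm_apply R h hkj]

/-- Integral identity (I2). -/
theorem identity_two (h : R.HW ξ ν) (hM : M.PosDef) {k a j : Fin d} (hka : k < a) (haj : a < j) :
    ∫ v, ((-lev M k v k a * lev M k v a k + lev M k v k j * lev M k v j k) *
        (lev M k v k k)⁻¹ * Phi R ξ M v +
      lev M k v k j * lev M k v a k * (lev M k v k k)⁻¹ * gq R ξ a j (lev M k v))
      ∂(haarProb (Fin d)) = 0 := by
  have hkj : k < j := hka.trans haj
  have hc : ∀ a b, Continuous fun v => lev M k v a b := fun a b =>
    (lev_continuous hM k).matrix_elem a b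
  have hne : ∀ v, lev M k v k k ≠ 0 := fun v => posDef_diag_ne (lev_posDef hM k v) k
  have hci : Continuous fun v => (lev M k v k k)⁻¹ := (hc k k).inv₀ hne
  have key := level_identity R h hM k k.2.le (fun m => m k j * m a k * (m k k)⁻¹)
    (fun m =>
      (m a k * (m k k)⁻¹) • Matrix.entryLinearMap ℂ ℂ k j +
      (m k j * (m k k)⁻¹) • Matrix.entryLinearMap ℂ ℂ a k -
      (m k j * m a k * (m k k)⁻¹ * (m k k)⁻¹) • Matrix.entryLinearMap ℂ ℂ k k)
    (fun g g' x hg0 hg => by
      have hne : g x k k ≠ 0 := posDef_diag_ne hg0 k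
      have h1 := ((hg k j).mul (hg a k)).mul ((hg k k).inv hne)
      refine h1.congr_deriv ?_
      simp only [LinearMap.sub_apply, LinearMap.add_apply, LinearMap.smul_apply,
        Matrix.entryLinearMap_apply, smul_eq_mul, Pi.mul_apply, Pi.inv_apply]
      field_simp
      ring)
    (((hc k j).mul (hc a k)).mul hci)
    (fun X => by
      have h1 := ((continuous_const (y := X)).matrix_mul (lev_continuous hM k)).sub
        ((lev_continuous hM k).matrix_mul (continuous_const (y := X)))
      simp only [LinearMap.sub_apply, LinearMap.add_apply, LinearMap.smul_apply,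
        Matrix.entryLinearMap_apply, smul_eq_mul]
      exact ((((hc a k).mul hci).mul (h1.matrix_elem k j)).add
        (((hc k j).mul hci).mul (h1.matrix_elem a k))).sub
        (((((hc k j).mul (hc a k)).mul hci).mul hci).mul (h1.matrix_elem k k)))
    (E a j) (E_support hka.le hkj.le)
  rw [← key]
  refine integral_congr_ae (Filter.Eventually.of_forall fun v => ?_)
  simp only [LinearMap.sub_apply, LinearMap.add_apply, LinearMap.smul_apply,
    Matrix.entryLinearMap_apply, Matrix.sub_apply, E_mul_apply, mul_E_apply, if_true, smul_eq_mul,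
    hka.ne, hkj.ne, if_false]
  rw [comm_apply R h haj]
  ring

/-- Pointwise identity (P1). -/
theorem identity_point (h : R.HW ξ ν) {k j : Fin d} (hkj : k < j)
    {m : Matrix (Fin d) (Fin d) ℂ} (hiso : Iso k m) (h0 : m k k ≠ 0) :
    gq R ξ k j m = (ν k - ν j) * (m j k * (m k k)⁻¹) * (star ξ ⬝ᵥ (R.tp m *ᵥ ξ)) -
      ∑ a ∈ Finset.Ioo k j, (m a k * (m k k)⁻¹) * gq R ξ a j m := by
  set A : Matrix (Fin d) (Fin d) ℂ := ∑ a, (m a k * (m k k)⁻¹) • E a j with hA
  set B : Matrix (Fin d) (Fin d) ℂ := ∑ b, (m j b * (m k k)⁻¹) • E k b with hB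
  have hAB : A * m = m * B := by
    ext x y
    rw [hA, hB, Finset.sum_mul, Finset.mul_sum, Matrix.sum_apply, Matrix.sum_apply]
    simp only [Matrix.smul_mul, Matrix.mul_smul, Matrix.smul_apply, E_mul_apply, mul_E_apply,
      smul_eq_mul]
    simp
    ring
  have h1 := R.intertwine hAB
  have h2 : star ξ ⬝ᵥ ((R.dp A * R.tp m) *ᵥ ξ) = star ξ ⬝ᵥ ((R.tp m * R.dp B) *ᵥ ξ) := by
    rw [h1]
  have hRHS : R.dp B *ᵥ ξ = ((m j k * (m k k)⁻¹) * ν k) • ξ := by
    rw [hB, map_sum, Matrix.sum_mulVec, Finset.sum_eq_single k]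
    · rw [map_smul, smul_mulVec, h.weight, smul_smul]
    · intro b _ hb
      rw [map_smul, smul_mulVec]
      by_cases hkb : k < b
      · rw [h.raise k b hkb, smul_zero]
      · have hlt : (b : ℕ) < k := lt_of_le_of_ne (not_lt.mp hkb) fun h => hb (Fin.ext h)
        have hjb : j ≠ b := by
          rintro rfl
          exact hkb hkj
        rw [hiso j b hjb (Or.inr hlt), zero_mul, zero_smul]
    · simp
  have hLHS : star ξ ⬝ᵥ ((R.dp A * R.tp m) *ᵥ ξ) =
      ∑ a, (m a k * (m k k)⁻¹) * gq R ξ a j m := by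
    rw [← mulVec_mulVec, hA, map_sum, Matrix.sum_mulVec, dotProduct_sum]
    refine Finset.sum_congr rfl fun a _ => ?_
    rw [map_smul, smul_mulVec, dotProduct_smul, smul_eq_mul]
    rfl
  have hsplit : ∑ a, (m a k * (m k k)⁻¹) * gq R ξ a j m =
      gq R ξ k j m + (m j k * (m k k)⁻¹) * (ν j * (star ξ ⬝ᵥ (R.tp m *ᵥ ξ))) +
        ∑ a ∈ Finset.Ioo k j, (m a k * (m k k)⁻¹) * gq R ξ a j m := by
    have hsub : ∑ a ∈ insert k (insert j (Finset.Ioo k j)),
        (m a k * (m k k)⁻¹) * gq R ξ a j m = ∑ a, (m a k * (m k k)⁻¹) * gq R ξ a j m := by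
      refine Finset.sum_subset (Finset.subset_univ _) ?_
      intro a _ ha
      simp only [Finset.mem_insert, Finset.mem_Ioo, not_or, not_and, not_lt] at ha
      obtain ⟨hak, haj, hIoo⟩ := ha
      by_cases hlt : a < k
      · rw [hiso a k hak (Or.inl hlt)]; simp
      · have hka : k < a := lt_of_le_of_ne (not_lt.mp hlt) (Ne.symm hak)
        have hja : j < a := lt_of_le_of_ne (hIoo hka) (Ne.symm haj)
        have : gq R ξ a j m = 0 := h.lower_left R hja _
        rw [this, mul_zero]
    rw [← hsub, Finset.sum_insert, Finset.sum_insert]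
    · have h3 : m k k * (m k k)⁻¹ = 1 := mul_inv_cancel₀ h0
      have h4 : gq R ξ j j m = ν j * (star ξ ⬝ᵥ (R.tp m *ᵥ ξ)) := h.weight_left R j _
      rw [h3, h4]
      ring
    · simp
    · simp [hkj.ne]
  rw [hLHS, hsplit, ← mulVec_mulVec, hRHS, mulVec_smul, dotProduct_smul, smul_eq_mul] at h2
  linear_combination h2

/-- `Q k j = ∫ Φ (m_k)_{jj}`. -/
noncomputable def Qc (R : PRep d ι) (ξ : ι → ℂ) (M : Matrix (Fin d) (Fin d) ℂ) (k : ℕ)
    (j : Fin d) : ℂ :=
  ∫ v, Phi R ξ M v * lev M k v j j ∂(haarProb (Fin d))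

/-- `u k j = ∫ Φ |(m_k)_{jk}|² / (m_k)_{kk}`. -/
noncomputable def uc (R : PRep d ι) (ξ : ι → ℂ) (M : Matrix (Fin d) (Fin d) ℂ) (k j : Fin d) :
    ℂ :=
  ∫ v, Phi R ξ M v * (lev M k v k j * lev M k v j k * (lev M k v k k)⁻¹) ∂(haarProb (Fin d))

theorem gq_continuous (hM : M.PosDef) (k : ℕ) (a j : Fin d) :
    Continuous fun v => gq R ξ a j (lev M k v) := by
  unfold gq
  have h : Continuous fun v => R.dp (E a j) * R.tp (lev M k v) :=
    continuous_const.matrix_mul (R.cont.comp (lev_continuous hM k))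
  simpa [mulVec_mulVec] using continuous_dot h (star ξ) ξ

/-- Relation (R1). -/
theorem relation_one (hM : M.PosDef) {k j : Fin d} (hkj : k < j) :
    Qc R ξ M (k + 1) j = Qc R ξ M k j - uc R ξ M k j := by
  have hc : ∀ a b, Continuous fun v => lev M k v a b := fun a b =>
    (lev_continuous hM k).matrix_elem a b
  have hne : ∀ v, lev M k v k k ≠ 0 := fun v => posDef_diag_ne (lev_posDef hM k v) k
  have hci : Continuous fun v => (lev M k v k k)⁻¹ := (hc k k).inv₀ hne
  unfold Qc uc
  rw [← integral_sub]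
  · refine integral_congr_ae (Filter.Eventually.of_forall fun v => ?_)
    simp only [lev_succ, elim, of_apply]
    rw [if_neg (fun h => hkj.ne h.1.symm)]
    ring
  · exact integrable_of_continuous ((phi_continuous R).mul (hc j j))
  · exact integrable_of_continuous
      ((phi_continuous R).mul (((hc k j).mul (hc j k)).mul hci))

theorem integral_four {fA fB fC fD : Matrix.unitaryGroup (Fin d) ℂ → ℂ}
    (hA : Integrable fA (haarProb (Fin d))) (hB : Integrable fB (haarProb (Fin d)))
    (hC : Integrable fC (haarProb (Fin d))) (hD : Integrable fD (haarProb (Fin d))) :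
    ∫ v, ((fA v - fB v) + (fC v - fD v)) ∂(haarProb (Fin d)) =
      (∫ v, fA v ∂(haarProb (Fin d)) - ∫ v, fB v ∂(haarProb (Fin d))) +
      (∫ v, fC v ∂(haarProb (Fin d)) - ∫ v, fD v ∂(haarProb (Fin d))) := by
  have h1 : Integrable (fun v => fA v - fB v) (haarProb (Fin d)) := hA.sub hB
  have h2 : Integrable (fun v => fC v - fD v) (haarProb (Fin d)) := hC.sub hD
  rw [integral_add h1 h2, integral_sub hA hB, integral_sub hC hD]

/-- Relation (R2). -/
theorem relation_two (h : R.HW ξ ν) (hM : M.PosDef) {k j : Fin d} (hkj : k < j) :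
    Qc R ξ M k k - Qc R ξ M k j =
      ((ν k - ν j) + ((Finset.Ioo k j).card : ℂ)) * uc R ξ M k j -
        ∑ a ∈ Finset.Ioo k j, uc R ξ M k a := by
  have hc : ∀ a b, Continuous fun v => lev M k v a b := fun a b =>
    (lev_continuous hM k).matrix_elem a b
  have hne : ∀ v, lev M k v k k ≠ 0 := fun v => posDef_diag_ne (lev_posDef hM k v) k
  have hci : Continuous fun v => (lev M k v k k)⁻¹ := (hc k k).inv₀ hne
  have hΦ := phi_continuous (M := M) (ξ := ξ) R
  have hg := fun a => gq_continuous (ξ := ξ) R hM k a j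
  have huint : ∀ a : Fin d, Integrable (fun v => Phi R ξ M v *
      (lev M k v k a * lev M k v a k * (lev M k v k k)⁻¹)) (haarProb (Fin d)) := fun a =>
    integrable_of_continuous (hΦ.mul (((hc k a).mul (hc a k)).mul hci))
  -- (I2) in terms of `uc`
  have hI2 : ∀ a ∈ Finset.Ioo k j, ∫ v, lev M k v k j * (lev M k v a k * (lev M k v k k)⁻¹) *
      gq R ξ a j (lev M k v) ∂(haarProb (Fin d)) = uc R ξ M k a - uc R ξ M k j := by
    intro a ha
    rw [Finset.mem_Ioo] at ha
    have h2 := identity_two R h hM ha.1 ha.2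
    have h3 : ∀ v, (-lev M k v k a * lev M k v a k + lev M k v k j * lev M k v j k) *
        (lev M k v k k)⁻¹ * Phi R ξ M v +
      lev M k v k j * lev M k v a k * (lev M k v k k)⁻¹ * gq R ξ a j (lev M k v) =
      (-(Phi R ξ M v * (lev M k v k a * lev M k v a k * (lev M k v k k)⁻¹)) +
        Phi R ξ M v * (lev M k v k j * lev M k v j k * (lev M k v k k)⁻¹)) +
      lev M k v k j * (lev M k v a k * (lev M k v k k)⁻¹) * gq R ξ a j (lev M k v) := by
      intro v; ring
    simp only [h3] at h2
    rw [integral_add, integral_add, integral_neg] at h2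
    · unfold uc
      linear_combination h2
    · exact (huint a).neg
    · exact huint j
    · exact (huint a).neg.add (huint j)
    · exact integrable_of_continuous (((hc k j).mul ((hc a k).mul hci)).mul (hg a))
  have h1 := identity_one R h hM hkj
  have h4 : ∀ v, (lev M k v j j - lev M k v k k) * Phi R ξ M v +
      lev M k v k j * gq R ξ k j (lev M k v) =
      (Phi R ξ M v * lev M k v j j - Phi R ξ M v * lev M k v k k) +
      ((ν k - ν j) * (Phi R ξ M v * (lev M k v k j * lev M k v j k * (lev M k v k k)⁻¹)) -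
        ∑ a ∈ Finset.Ioo k j, lev M k v k j * (lev M k v a k * (lev M k v k k)⁻¹) *
          gq R ξ a j (lev M k v)) := by
    intro v
    rw [identity_point R h hkj (lev_iso hM k k.2.le v) (hne v), phi_lev R h hM k k.2.le v,
      mul_sub, Finset.mul_sum]
    have : ∀ a, lev M k v k j * (lev M k v a k * (lev M k v k k)⁻¹ * gq R ξ a j (lev M k v)) =
        lev M k v k j * (lev M k v a k * (lev M k v k k)⁻¹) * gq R ξ a j (lev M k v) := by
      intro a; ring
    simp only [this]
    ring
  simp only [h4] at h1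
  have i1 : Integrable (fun v => Phi R ξ M v * lev M k v j j) (haarProb (Fin d)) :=
    integrable_of_continuous (hΦ.mul (hc j j))
  have i2 : Integrable (fun v => Phi R ξ M v * lev M k v k k) (haarProb (Fin d)) :=
    integrable_of_continuous (hΦ.mul (hc k k))
  have i3 : Integrable (fun v => ((ν k : ℂ) - ν j) * (Phi R ξ M v *
      (lev M k v k j * lev M k v j k * (lev M k v k k)⁻¹))) (haarProb (Fin d)) :=
    (huint j).const_mul _
  have i4 : ∀ a ∈ Finset.Ioo k j, Integrable (fun v => lev M k v k j *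
      (lev M k v a k * (lev M k v k k)⁻¹) * gq R ξ a j (lev M k v)) (haarProb (Fin d)) :=
    fun a _ => integrable_of_continuous (((hc k j).mul ((hc a k).mul hci)).mul (hg a))
  have i5 : Integrable (fun v => ∑ a ∈ Finset.Ioo k j, lev M k v k j *
      (lev M k v a k * (lev M k v k k)⁻¹) * gq R ξ a j (lev M k v)) (haarProb (Fin d)) :=
    integrable_finsetSum _ i4
  rw [integral_four i1 i2 i3 i5,
    integral_const_mul, integral_finsetSum _ i4, Finset.sum_congr rfl hI2,
    Finset.sum_sub_distrib, Finset.sum_const, nsmul_eq_mul] at h1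
  unfold Qc
  have hu : uc R ξ M k j = ∫ v, Phi R ξ M v *
      (lev M k v k j * lev M k v j k * (lev M k v k k)⁻¹) ∂(haarProb (Fin d)) := rfl
  rw [← hu] at h1
  linear_combination -h1

theorem posDef_tp {m : Matrix (Fin d) (Fin d) ℂ} (hm : m.PosDef) (ξ : ι → ℂ) :
    ∃ r : ℝ, 0 ≤ r ∧ star ξ ⬝ᵥ (R.tp m *ᵥ ξ) = (r : ℂ) := by
  obtain ⟨B, -, hB, hBB, -⟩ := exists_sqrt hm
  refine ⟨nsq (R.tp B *ᵥ ξ), nsq_nonneg _, ?_⟩
  rw [← hBB, R.mul, ← mulVec_mulVec]
  nth_rewrite 1 [← hB]
  rw [R.star, ← star_mulVec_dot, dot_self]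

theorem uc_nonneg (hM : M.PosDef) (k j : Fin d) : 0 ≤ (uc R ξ M k j).re := by
  have h : ∀ v, ∃ r : ℝ, 0 ≤ r ∧ Phi R ξ M v *
      (lev M k v k j * lev M k v j k * (lev M k v k k)⁻¹) = (r : ℂ) := by
    intro v
    obtain ⟨r, hr, hr'⟩ := posDef_tp R (lev_posDef hM 0 v) ξ
    have hp := lev_posDef hM k v
    have h1 : lev M k v k j * lev M k v j k = ((‖lev M k v k j‖ ^ 2 : ℝ) : ℂ) := by
      have : lev M k v j k = conj (lev M k v k j) := (hp.1.apply j k).symm
      rw [this, Complex.mul_conj']
      push_cast; rfl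
    have h2 : lev M k v k k = ((lev M k v k k).re : ℂ) :=
      (Complex.conj_eq_iff_re.mp (hp.1.apply k k)).symm
    have h3 : 0 < (lev M k v k k).re := by
      have := hp.diag_pos (i := k)
      exact (Complex.pos_iff.mp this).1
    refine ⟨r * (‖lev M k v k j‖ ^ 2 * ((lev M k v k k).re)⁻¹), by positivity, ?_⟩
    have h4 : Phi R ξ M v = (r : ℂ) := hr'
    rw [h4, h1, h2]
    push_cast
    simp
  choose r hr hr' using h
  unfold uc
  simp only [hr']
  rw [integral_complex_ofReal, Complex.ofReal_re]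
  exact integral_nonneg hr

/-- The weighted diagonal averages are non-increasing, at every level. -/
theorem Q_antitone (h : R.HW ξ ν) (hM : M.PosDef) (n : ℕ) :
    ∀ k : ℕ, d ≤ k + n → ∀ i j : Fin d, k ≤ i → (j : ℕ) = i + 1 →
      (Qc R ξ M k j).re ≤ (Qc R ξ M k i).re := by
  induction n with
  | zero => intro k hk i j hi hj; omega
  | succ n ih =>
    intro k hk i j hi hj
    by_cases hkd : k < d
    swap
    · omega
    set K : Fin d := ⟨k, hkd⟩ with hK
    have hij : i < j := by rw [Fin.lt_def]; omega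
    have hanti : Antitone ν := h.antitone
    rcases Nat.eq_or_lt_of_le hi with hki | hki
    · -- the pivot case
      have hiK : i = K := Fin.ext hki.symm
      have h2 := relation_two R h hM (k := K) (j := j) (hiK ▸ hij)
      have hempty : Finset.Ioo K j = ∅ := by
        rw [Finset.eq_empty_iff_forall_notMem]
        intro a ha
        rw [Finset.mem_Ioo, Fin.lt_def, Fin.lt_def] at ha
        have : (K : ℕ) = k := rfl
        omega
      rw [hempty] at h2
      simp only [Finset.card_empty, Nat.cast_zero, add_zero, Finset.sum_empty, sub_zero] at h2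
      have h3 := congrArg Complex.re h2
      have h4 : ((ν K : ℂ) - ν j) * uc R ξ M K j = ((ν K - ν j : ℝ) : ℂ) * uc R ξ M K j := by
        push_cast; rfl
      rw [h4, Complex.re_ofReal_mul, Complex.sub_re] at h3
      have h5 := uc_nonneg (ξ := ξ) R hM K j
      have h6 : ν j ≤ ν K := hanti (hiK ▸ hij.le)
      have h7 : (K : ℕ) = k := rfl
      rw [h7] at h3
      rw [hiK]
      nlinarith [mul_nonneg (sub_nonneg.mpr h6) h5]
    · have hKi : K < i := by rw [Fin.lt_def]; exact hki
      have hKj : K < j := hKi.trans hij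
      have hih := ih (k + 1) (by omega) i j hki hj
      have e7 : (K : ℕ) = k := rfl
      have r1i := congrArg Complex.re (relation_one (ξ := ξ) R hM hKi)
      have r1j := congrArg Complex.re (relation_one (ξ := ξ) R hM hKj)
      rw [e7, Complex.sub_re] at r1i r1j
      rw [r1i, r1j] at hih
      have r2i := relation_two R h hM hKi
      have r2j := relation_two R h hM hKj
      have hins : Finset.Ioo K j = insert i (Finset.Ioo K i) := by
        ext a
        rw [Finset.mem_insert, Finset.mem_Ioo, Finset.mem_Ioo, Fin.lt_def, Fin.lt_def,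
          Fin.lt_def, Fin.ext_iff]
        omega
      have hnot : i ∉ Finset.Ioo K i := by simp
      rw [hins, Finset.sum_insert hnot, Finset.card_insert_of_notMem hnot] at r2j
      have hcard : (Finset.Ioo K i).card = (i : ℕ) - k - 1 := by
        rw [Fin.card_Ioo]
      set c : ℕ := (Finset.Ioo K i).card with hc
      have q2i : ((ν K : ℂ) - ν i + (c : ℂ)) * uc R ξ M K i =
          ((ν K - ν i + c : ℝ) : ℂ) * uc R ξ M K i := by push_cast; rfl
      have q2j : ((ν K : ℂ) - ν j + ((c + 1 : ℕ) : ℂ)) * uc R ξ M K j =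
          ((ν K - ν j + (c + 1) : ℝ) : ℂ) * uc R ξ M K j := by push_cast; rfl
      have s2i := congrArg Complex.re r2i
      have s2j := congrArg Complex.re r2j
      rw [q2i, Complex.sub_re, Complex.sub_re, Complex.re_ofReal_mul, e7] at s2i
      rw [q2j, Complex.sub_re, Complex.sub_re, Complex.re_ofReal_mul, Complex.add_re, e7] at s2j
      set A : ℝ := ν K - ν j + (c + 1) + 1 with hA
      set B : ℝ := ν K - ν i + c + 1 with hB
      set ui := (uc R ξ M K i).re
      set uj := (uc R ξ M K j).re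
      set Qi := (Qc R ξ M k i).re
      set Qj := (Qc R ξ M k j).re
      set QK := (Qc R ξ M k K).re
      set S := (∑ a ∈ Finset.Ioo K i, uc R ξ M K a).re
      have hνi : ν j ≤ ν i := hanti hij.le
      have hνK : ν i ≤ ν K := hanti hKi.le
      have hc0 : (0:ℝ) ≤ c := by positivity
      have hB1 : 1 ≤ B := by rw [hB]; linarith
      have hAB : B + 1 ≤ A := by rw [hA, hB]; linarith
      have hui : 0 ≤ ui := uc_nonneg R hM K i
      -- Q_i - Q_j = (A - 1) u_j - B u_i
      have e1 : Qi - Qj = (A - 1) * uj - B * ui := by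
        rw [hA, hB]
        linear_combination s2j - s2i
      have e2 : (B + 1) * ui ≤ A * uj := by linarith
      have hApos : 0 < A := by linarith
      have e3 : 0 ≤ A * ((A - 1) * uj - B * ui) := by
        have : A * ((A - 1) * uj - B * ui) =
            (A - 1) * (A * uj - (B + 1) * ui) + (A - B - 1) * ui := by ring
        rw [this]
        have h1 : 0 ≤ (A - 1) * (A * uj - (B + 1) * ui) :=
          mul_nonneg (by linarith) (by linarith)
        have h2 : 0 ≤ (A - B - 1) * ui := mul_nonneg (by linarith) hui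
        linarith
      have e4 : 0 ≤ (A - 1) * uj - B * ui := by
        by_contra hcon
        push Not at hcon
        nlinarith [mul_pos_of_neg_of_neg (neg_lt_zero.mpr hApos) hcon]
      linarith

/-- Monotonicity of `R_j = ∫ Φ (v M v†)_{jj}`. -/
theorem R_antitone (h : R.HW ξ ν) (hM : M.PosDef) {i j : Fin d} (hij : i ≤ j) :
    (Qc R ξ M 0 j).re ≤ (Qc R ξ M 0 i).re := by
  obtain ⟨i, hi⟩ := i
  obtain ⟨j, hj⟩ := j
  have hij' : i ≤ j := hij
  clear hij
  induction j, hij' using Nat.le_induction with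
  | base => exact le_rfl
  | succ n hn ih =>
    exact (Q_antitone R h hM d 0 (by omega) ⟨n, by omega⟩ ⟨n + 1, hj⟩ (by simp) rfl).trans
      (ih (by omega))

end Pool.Agent.Helper49_Channels
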