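import Pool.Agent.Helper49_Channels.Q1Mono

/-!
# Averaged operators (towards Q1 of MP_a4cf75_mp)
-/

open MeasureTheory Matrix TopologicalSpace
open scoped Kronecker ComplexConjugate ComplexOrder

namespace Pool.Agent.Helper49_Channels

set_option linter.unusedSectionVars false

variable {d : ℕ} {ι : Type} [Fintype ι] [DecidableEq ι]

open PRep (E E_star)

/-- Entrywise Haar integral of a matrix-valued function. -/
noncomputable def mint {κ : Type} (F : Matrix.unitaryGroup (Fin d) ℂ → Matrix κ κ ℂ) :
    Matrix κ κ ℂ :=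
  Matrix.of fun x y => ∫ u, F u x y ∂(haarProb (Fin d))

theorem integrable_entry {κ : Type} {F : Matrix.unitaryGroup (Fin d) ℂ → Matrix κ κ ℂ}
    (hF : Continuous F) (x y : κ) : Integrable (fun u => F u x y) (haarProb (Fin d)) :=
  integrable_of_continuous (hF.matrix_elem x y)

theorem mint_mul_left {F : Matrix.unitaryGroup (Fin d) ℂ → Matrix ι ι ℂ} (hF : Continuous F)
    (A : Matrix ι ι ℂ) : mint (fun u => A * F u) = A * mint F := by
  ext x y
  simp only [mint, of_apply, Matrix.mul_apply]
  rw [integral_finsetSum _ fun c _ => (integrable_entry hF c y).const_mul _]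
  simp only [integral_const_mul]

theorem mint_mul_right {F : Matrix.unitaryGroup (Fin d) ℂ → Matrix ι ι ℂ} (hF : Continuous F)
    (A : Matrix ι ι ℂ) : mint (fun u => F u * A) = mint F * A := by
  ext x y
  simp only [mint, of_apply, Matrix.mul_apply]
  rw [integral_finsetSum _ fun c _ => (integrable_entry hF x c).mul_const _]
  simp only [integral_mul_const]

theorem mint_comm {F : Matrix.unitaryGroup (Fin d) ℂ → Matrix ι ι ℂ} (hF : Continuous F)
    {A : Matrix ι ι ℂ} (h : ∀ u, A * F u = F u * A) : A * mint F = mint F * A := by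
  rw [← mint_mul_left hF, ← mint_mul_right hF]
  simp only [h]

theorem mint_left (F : Matrix.unitaryGroup (Fin d) ℂ → Matrix ι ι ℂ)
    (w : Matrix.unitaryGroup (Fin d) ℂ) : mint (fun u => F (w * u)) = mint F := by
  ext x y
  exact integral_left (fun u => F u x y) w

theorem mint_right (F : Matrix.unitaryGroup (Fin d) ℂ → Matrix ι ι ℂ)
    (w : Matrix.unitaryGroup (Fin d) ℂ) : mint (fun u => F (u * w)) = mint F := by
  ext x y
  exact integral_right (fun u => F u x y) w

theorem mint_dot {F : Matrix.unitaryGroup (Fin d) ℂ → Matrix ι ι ℂ} (hF : Continuous F)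
    (ζ ξ : ι → ℂ) : ζ ⬝ᵥ (mint F *ᵥ ξ) = ∫ u, ζ ⬝ᵥ (F u *ᵥ ξ) ∂(haarProb (Fin d)) := by
  simp only [mint, dotProduct, mulVec, of_apply]
  rw [integral_finsetSum]
  · refine Finset.sum_congr rfl fun x _ => ?_
    rw [integral_const_mul, integral_finsetSum _ fun y _ => (integrable_entry hF x y).mul_const _]
    simp only [integral_mul_const]
  · intro x _
    exact (integrable_finsetSum _ fun y _ => (integrable_entry hF x y).mul_const _).const_mul _

theorem mint_trace {F : Matrix.unitaryGroup (Fin d) ℂ → Matrix ι ι ℂ} (hF : Continuous F) :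
    (mint F).trace = ∫ u, (F u).trace ∂(haarProb (Fin d)) := by
  simp only [mint, Matrix.trace, diag_apply, of_apply]
  rw [integral_finsetSum _ fun x _ => integrable_entry hF x x]

theorem continuous_val : Continuous (fun u : Matrix.unitaryGroup (Fin d) ℂ => u.1) :=
  continuous_subtype_val

theorem continuous_trace : Continuous (fun u : Matrix.unitaryGroup (Fin d) ℂ => u.1.trace) :=
  continuous_val.matrix_trace

/-- `∫ conj (Tr u) ^ p • tp u du`. -/
noncomputable def Sop (R : PRep d ι) (p : ℕ) : Matrix ι ι ℂ :=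
  mint fun u => (conj u.1.trace) ^ p • R.tp u.1

/-- `∫ tp (v M v†) dv`. -/
noncomputable def Mop (R : PRep d ι) (M : Matrix (Fin d) (Fin d) ℂ) : Matrix ι ι ℂ :=
  mint fun v => R.tp (v.1 * M * v.1ᴴ)

variable (R : PRep d ι)

theorem tp_continuous : Continuous (fun u : Matrix.unitaryGroup (Fin d) ℂ => R.tp u.1) :=
  R.cont.comp continuous_val

theorem conj_trace_continuous :
    Continuous (fun u : Matrix.unitaryGroup (Fin d) ℂ => conj u.1.trace) :=
  Complex.continuous_conj.comp continuous_trace

theorem Sop_integrand_continuous (p : ℕ) :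
    Continuous (fun u : Matrix.unitaryGroup (Fin d) ℂ => (conj u.1.trace) ^ p • R.tp u.1) :=
  (conj_trace_continuous.pow p).smul (tp_continuous R)

theorem Mop_integrand_continuous (M : Matrix (Fin d) (Fin d) ℂ) :
    Continuous (fun v : Matrix.unitaryGroup (Fin d) ℂ => R.tp (v.1 * M * v.1ᴴ)) :=
  R.cont.comp ((continuous_val.matrix_mul continuous_const).matrix_mul
    continuous_val.matrix_conjTranspose)

theorem Sop_comm (p : ℕ) (v : Matrix.unitaryGroup (Fin d) ℂ) :
    Sop R p * R.tp v.1 = R.tp v.1 * Sop R p := by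
  have hc := Sop_integrand_continuous R p
  unfold Sop
  rw [← mint_mul_left hc, ← mint_mul_right hc]
  have h1 := mint_left (fun u : Matrix.unitaryGroup (Fin d) ℂ =>
    R.tp v.1 * ((conj u.1.trace) ^ p • R.tp u.1)) v⁻¹
  have h2 := mint_right (fun u : Matrix.unitaryGroup (Fin d) ℂ =>
    ((conj u.1.trace) ^ p • R.tp u.1) * R.tp v.1) v⁻¹
  rw [← h1, ← h2]
  congr 1
  funext u
  have e1 : (v⁻¹ * u).1 = v⁻¹.1 * u.1 := rfl
  have e2 : (u * v⁻¹).1 = u.1 * v⁻¹.1 := rfl
  have e3 : v.1 * v⁻¹.1 = 1 := by
    have : (v * v⁻¹).1 = v.1 * v⁻¹.1 := rfl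
    rw [← this, mul_inv_cancel]; rfl
  have e4 : v⁻¹.1 * v.1 = 1 := by
    have : (v⁻¹ * v).1 = v⁻¹.1 * v.1 := rfl
    rw [← this, inv_mul_cancel]; rfl
  rw [e1, e2, Matrix.trace_mul_comm u.1, Matrix.smul_mul, Matrix.mul_smul, ← R.mul, ← R.mul,
    Matrix.mul_assoc, e4, Matrix.mul_one, ← Matrix.mul_assoc, e3, Matrix.one_mul]

theorem Mop_comm (M : Matrix (Fin d) (Fin d) ℂ) (w : Matrix.unitaryGroup (Fin d) ℂ) :
    Mop R M * R.tp w.1 = R.tp w.1 * Mop R M := by
  have hc := Mop_integrand_continuous R M
  unfold Mop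
  rw [← mint_mul_left hc, ← mint_mul_right hc]
  have h1 := mint_left (fun v : Matrix.unitaryGroup (Fin d) ℂ =>
    R.tp (v.1 * M * v.1ᴴ) * R.tp w.1) w
  rw [← h1]
  congr 1
  funext v
  have e1 : (w * v).1 = w.1 * v.1 := rfl
  rw [e1, ← R.mul, ← R.mul, conjTranspose_mul]
  congr 1
  have e2 := unitary_conjTranspose_mul w
  calc w.1 * v.1 * M * (v.1ᴴ * w.1ᴴ) * w.1 = w.1 * (v.1 * M * v.1ᴴ) * (w.1ᴴ * w.1) := by
        simp only [Matrix.mul_assoc]
    _ = _ := by rw [e2, Matrix.mul_one]

/-- The Schwinger-Dyson identity. -/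
theorem Sop_dp (p : ℕ) (a b : Fin d) :
    Sop R (p + 1) * R.dp (E a b) =
      ((p : ℂ) + 1) • mint fun u => ((conj u.1.trace) ^ p * conj (u.1 a b)) • R.tp u.1 := by
  have hS := Sop_integrand_continuous R (p + 1)
  have hent : ∀ a b, Continuous fun u : Matrix.unitaryGroup (Fin d) ℂ => conj (u.1 a b) :=
    fun a b => Complex.continuous_conj.comp (continuous_val.matrix_elem a b)
  have hL : ∀ X : Matrix (Fin d) (Fin d) ℂ, Continuous fun u : Matrix.unitaryGroup (Fin d) ℂ =>
      ∑ a, ∑ b, X a b * conj (u.1 a b) := fun X =>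
    continuous_finsetSum _ fun a _ => continuous_finsetSum _ fun b _ =>
      continuous_const.mul (hent a b)
  ext x y
  -- the linear functional
  have hFc : ∀ X : Matrix (Fin d) (Fin d) ℂ, Continuous fun u : Matrix.unitaryGroup (Fin d) ℂ =>
      (conj u.1.trace) ^ (p + 1) * (R.tp u.1 * R.dp X) x y -
        ((p : ℂ) + 1) * ((conj u.1.trace) ^ p * (∑ a, ∑ b, X a b * conj (u.1 a b)) *
          R.tp u.1 x y) := by
    intro X
    refine ((conj_trace_continuous.pow _).mul
      (((tp_continuous R).matrix_mul continuous_const).matrix_elem x y)).sub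
      (continuous_const.mul (((conj_trace_continuous.pow _).mul (hL X)).mul
        ((tp_continuous R).matrix_elem x y)))
  let I : Matrix (Fin d) (Fin d) ℂ →ₗ[ℂ] ℂ :=
    { toFun := fun X => ∫ u, ((conj u.1.trace) ^ (p + 1) * (R.tp u.1 * R.dp X) x y -
        ((p : ℂ) + 1) * ((conj u.1.trace) ^ p * (∑ a, ∑ b, X a b * conj (u.1 a b)) *
          R.tp u.1 x y)) ∂(haarProb (Fin d))
      map_add' := by
        intro X Y
        rw [← integral_add (integrable_of_continuous (hFc X)) (integrable_of_continuous (hFc Y))]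
        refine integral_congr_ae (Filter.Eventually.of_forall fun u => ?_)
        simp only [map_add, Matrix.mul_add, Matrix.add_apply, add_mul, Finset.sum_add_distrib]
        ring
      map_smul' := by
        intro c X
        rw [RingHom.id_apply, smul_eq_mul, ← integral_const_mul]
        refine integral_congr_ae (Filter.Eventually.of_forall fun u => ?_)
        simp only [map_smul, Matrix.mul_smul, Matrix.smul_apply, smul_eq_mul]
        have : ∑ a, ∑ b, c * X a b * conj (u.1 a b) = c * ∑ a, ∑ b, X a b * conj (u.1 a b) := by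
          rw [Finset.mul_sum]
          refine Finset.sum_congr rfl fun a _ => ?_
          rw [Finset.mul_sum]
          refine Finset.sum_congr rfl fun b _ => by ring
        rw [this]
        ring }
  have key := eq_zero_of_skew I (fun _ => True) (fun _ _ _ _ => trivial) (fun _ _ _ => trivial)
    (fun _ _ => trivial) ?_ (E a b) trivial
  · have hI : I (E a b) = ∫ u, ((conj u.1.trace) ^ (p + 1) * (R.tp u.1 * R.dp (E a b)) x y -
        ((p : ℂ) + 1) * ((conj u.1.trace) ^ p * (conj (u.1 a b)) *
          R.tp u.1 x y)) ∂(haarProb (Fin d)) := by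
      refine integral_congr_ae (Filter.Eventually.of_forall fun u => ?_)
      simp only
      congr 3
      simp [E, single_apply, Finset.sum_ite_eq, ite_and]
    rw [hI, integral_sub, integral_const_mul] at key
    · unfold Sop
      rw [← mint_mul_right hS]
      simp only [mint, of_apply, Matrix.smul_apply, Matrix.smul_mul, smul_eq_mul]
      linear_combination key
    · exact integrable_of_continuous ((conj_trace_continuous.pow _).mul
        (((tp_continuous R).matrix_mul continuous_const).matrix_elem x y))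
    · exact integrable_of_continuous (continuous_const.mul (((conj_trace_continuous.pow _).mul
        (hent a b)).mul ((tp_continuous R).matrix_elem x y)))
  · intro X hX _
    obtain ⟨c⟩ := exists_ucurve hX
    show ∫ u, _ ∂(haarProb (Fin d)) = 0
    refine integral_deriv_right c
      (f := fun u => (conj u.1.trace) ^ (p + 1) * R.tp u.1 x y)
      ((conj_trace_continuous.pow _).mul ((tp_continuous R).matrix_elem x y)) (hFc X) ?_
    intro u
    have h1 : MDeriv (fun θ => u.1 * (c.w θ).1) (u.1 * X) 0 := c.deriv_zero.const_mul u.1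
    have h0 : u.1 * (c.w 0).1 = u.1 := by
      rw [c.zero]; exact Matrix.mul_one _
    have h2 := R.deriv h1
    rw [h0, R.D_mul_right] at h2
    have h3 := (h1.trace).star
    have h4 := (h3.pow (p + 1)).mul (h2 x y)
    simp only [h0] at h4
    refine h4.congr_deriv ?_
    have h5 : conj (u.1 * X).trace = -∑ a, ∑ b, X a b * conj (u.1 a b) := by
      simp only [Matrix.trace, diag_apply, Matrix.mul_apply, map_sum, map_mul]
      rw [← Finset.sum_neg_distrib]
      refine Finset.sum_congr rfl fun a _ => ?_
      rw [← Finset.sum_neg_distrib]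
      refine Finset.sum_congr rfl fun b _ => ?_
      have h8 : star (X b a) = -X a b := by
        have := congrFun (congrFun hX a) b
        rwa [conjTranspose_apply, Matrix.neg_apply] at this
      have h9 : conj (X b a) = -X a b := h8
      rw [h9]
      ring
    have h6 : star (u.1 * X).trace = -∑ a, ∑ b, X a b * conj (u.1 a b) := h5
    rw [h6]
    simp only [Pi.pow_apply, Nat.add_sub_cancel, h0]
    push_cast
    have h7 : star u.1.trace = conj u.1.trace := rfl
    rw [h7]
    ring

end Pool.Agent.Helper49_Channels
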