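import Pool.Agent.Helper49_Channels.Q1Key2

/-!
# The path inequality `Re E [conj(Tr u)^t (Tr uM)^t] ≤ E |Tr u|^{2t}`
-/

open MeasureTheory Matrix TopologicalSpace
open scoped Kronecker ComplexConjugate ComplexOrder

namespace Pool.Agent.Helper49_Channels

set_option linter.unusedSectionVars false

variable {d : ℕ}

/-- `D_t = E |Tr u|^{2t}`. -/
noncomputable def Dmom (d t : ℕ) : ℝ := ∫ u, ‖u.1.trace‖ ^ (2 * t) ∂(haarProb (Fin d))

theorem conj_mul_pow (z : ℂ) (t : ℕ) : (conj z) ^ t * z ^ t = ((‖z‖ ^ (2 * t) : ℝ) : ℂ) := by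
  rw [← mul_pow, Complex.conj_mul', pow_mul]
  push_cast
  rfl

theorem Dmom_eq (d t : ℕ) : ((Dmom d t : ℝ) : ℂ) =
    ∫ u, (conj u.1.trace) ^ t * u.1.trace ^ t ∂(haarProb (Fin d)) := by
  unfold Dmom
  rw [← integral_complex_ofReal]
  refine integral_congr_ae (Filter.Eventually.of_forall fun u => ?_)
  simp only [conj_mul_pow]

theorem line_continuous (A Y : Matrix (Fin d) (Fin d) ℂ) :
    Continuous fun θ : ℝ => A + (θ : ℂ) • Y :=
  continuous_const.add (Complex.continuous_ofReal.smul continuous_const)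

/-- The path argument. -/
theorem path_ineq (t : ℕ) {M : Matrix (Fin d) (Fin d) ℂ} (hM : M.PosDef)
    (htr : M.trace = d) :
    (∫ u, (conj u.1.trace) ^ t * (u.1 * M).trace ^ t ∂(haarProb (Fin d))).re ≤ Dmom d t := by
  rcases Nat.eq_zero_or_pos t with rfl | ht
  · simp [Dmom]
  obtain ⟨s, rfl⟩ : ∃ s, t = s + 1 := ⟨t - 1, by omega⟩
  set L : ℝ → Matrix (Fin d) (Fin d) ℂ := fun θ => M + (θ : ℂ) • (1 - M) with hL
  set F : ℝ → ℂ := fun θ => ∫ u, (conj u.1.trace) ^ (s + 1) * (u.1 * L θ).trace ^ (s + 1)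
    ∂(haarProb (Fin d)) with hF
  set F' : ℝ → ℂ := fun θ => ∫ u, (conj u.1.trace) ^ (s + 1) *
    (((s + 1 : ℕ) : ℂ) * (u.1 * L θ).trace ^ s * (u.1 * (1 - M)).trace)
    ∂(haarProb (Fin d)) with hF'
  have hLc : Continuous L := line_continuous _ _
  have hder : ∀ θ, HasDerivAt F (F' θ) θ := by
    intro θ
    refine hasDerivAt_haar_integral (f := fun θ u => (conj u.1.trace) ^ (s + 1) *
        (u.1 * L θ).trace ^ (s + 1))
      (f' := fun θ u => (conj u.1.trace) ^ (s + 1) *
        (((s + 1 : ℕ) : ℂ) * (u.1 * L θ).trace ^ s * (u.1 * (1 - M)).trace)) θ ?_ ?_ ?_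
    · intro θ u
      have h1 : MDeriv (fun θ => u.1 * L θ) (u.1 * (1 - M)) θ :=
        (PRep.mderiv_line M (1 - M) θ).const_mul u.1
      have h2 := (h1.trace.pow (s + 1)).const_mul ((conj u.1.trace) ^ (s + 1))
      simpa using h2
    · intro θ
      exact (conj_trace_continuous.pow _).mul
        ((continuous_val.matrix_mul continuous_const).matrix_trace.pow _)
    · have hv : Continuous fun p : ℝ × Matrix.unitaryGroup (Fin d) ℂ => p.2.1 :=
        continuous_val.comp continuous_snd
      have hl : Continuous fun p : ℝ × Matrix.unitaryGroup (Fin d) ℂ => L p.1 :=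
        hLc.comp continuous_fst
      exact ((conj_trace_continuous.comp continuous_snd).pow _).mul
        ((continuous_const.mul ((hv.matrix_mul hl).matrix_trace.pow _)).mul
          (hv.matrix_mul continuous_const).matrix_trace)
  have hre : ∀ θ, HasDerivAt (fun θ => (F θ).re) (F' θ).re θ := fun θ => by
    exact Complex.reCLM.hasFDerivAt.comp_hasDerivAt θ (hder θ)
  have hmono : MonotoneOn (fun θ => (F θ).re) (Set.Icc 0 1) := by
    refine monotoneOn_of_deriv_nonneg (convex_Icc 0 1)
      (fun θ _ => (hre θ).continuousAt.continuousWithinAt)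
      (fun θ _ => (hre θ).differentiableAt.differentiableWithinAt) ?_
    intro θ hθ
    rw [interior_Icc] at hθ
    rw [(hre θ).deriv]
    have h1θ : 0 < 1 - θ := by linarith [hθ.2]
    -- `L θ = (1 - θ) M + θ 1`
    have hLeq : L θ = ((1 - θ : ℝ) : ℂ) • M + ((θ : ℝ) : ℂ) • (1 : Matrix (Fin d) (Fin d) ℂ) := by
      simp only [hL]
      ext i j
      simp only [Matrix.add_apply, Matrix.smul_apply, Matrix.sub_apply, smul_eq_mul]
      push_cast
      ring
    have hLp : (L θ).PosDef := by
      rw [hLeq]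
      refine (hM.smul ?_).add ((PosDef.one).smul ?_)
      · exact_mod_cast h1θ
      · exact_mod_cast hθ.1
    have hLtr : (L θ).trace = d := by
      rw [hLeq, Matrix.trace_add, Matrix.trace_smul, Matrix.trace_smul, htr, Matrix.trace_one]
      simp only [Fintype.card_fin, smul_eq_mul]
      push_cast
      ring
    have hkey := key_ineq s hLp hLtr
    have h1L : 1 - L θ = ((1 - θ : ℝ) : ℂ) • (1 - M) := by
      rw [hLeq]
      ext i j
      simp only [Matrix.add_apply, Matrix.smul_apply, Matrix.sub_apply, smul_eq_mul]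
      push_cast
      ring
    have hI : ∫ u, (conj u.1.trace) ^ (s + 1) * ((u.1 * L θ).trace ^ s *
        (u.1 * (1 - L θ)).trace) ∂(haarProb (Fin d)) =
        (((1 - θ) / (s + 1) : ℝ) : ℂ) * F' θ := by
      simp only [hF']
      rw [← integral_const_mul]
      refine integral_congr_ae (Filter.Eventually.of_forall fun u => ?_)
      simp only [h1L, Matrix.mul_smul, Matrix.trace_smul, smul_eq_mul]
      have : ((s : ℂ) + 1) ≠ 0 := by exact_mod_cast Nat.succ_ne_zero s
      push_cast
      field_simp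
    rw [hI, Complex.re_ofReal_mul] at hkey
    have h2 : 0 < (1 - θ) / ((s : ℝ) + 1) := by positivity
    by_contra hcon
    push Not at hcon
    nlinarith [mul_neg_of_pos_of_neg h2 hcon]
  have h01 := hmono (Set.left_mem_Icc.mpr zero_le_one) (Set.right_mem_Icc.mpr zero_le_one)
    zero_le_one
  have e0 : F 0 = ∫ u, (conj u.1.trace) ^ (s + 1) * (u.1 * M).trace ^ (s + 1)
      ∂(haarProb (Fin d)) := by
    simp [hF, hL]
  have e1 : F 1 = ((Dmom d (s + 1) : ℝ) : ℂ) := by
    rw [Dmom_eq]
    simp [hF, hL]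
  simp only at h01
  rw [e0, e1, Complex.ofReal_re] at h01
  exact h01

end Pool.Agent.Helper49_Channels
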