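import Pool.Agent.Helper49_Channels.Q1Op

/-!
# The triangular recursion and positivity (towards Q1 of MP_a4cf75_mp)
-/

open MeasureTheory Matrix TopologicalSpace
open scoped Kronecker ComplexConjugate ComplexOrder

namespace Pool.Agent.Helper49_Channels

set_option linter.unusedSectionVars false

variable {d : ℕ} {ι : Type} [Fintype ι] [DecidableEq ι]

open PRep (E E_star)

/-- Partial sums of a monotone sequence of total zero are nonpositive; the solution of the
triangular system has nonnegative sum. -/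
theorem cheb (d : ℕ) (z r q : ℕ → ℝ) (hq : ∀ m < d, 1 ≤ q m)
    (hqd : ∀ m, m + 1 < d → q (m + 1) + 1 ≤ q m)
    (hrec : ∀ m < d, q m * z m + ∑ b ∈ Finset.range m, z b = r m)
    (hr : ∀ m, m + 1 < d → r m ≤ r (m + 1))
    (hsum : ∑ m ∈ Finset.range d, r m = 0) : 0 ≤ ∑ m ∈ Finset.range d, z m := by
  have hmono : ∀ a b, a ≤ b → b < d → r a ≤ r b := by
    intro a b hab hb
    induction b, hab using Nat.le_induction with
    | base => exact le_rfl
    | succ n hn ih => exact (ih (by omega)).trans (hr n hb)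
  have hneg : ∀ m, m ≤ d → ∑ b ∈ Finset.range m, r b ≤ 0 := by
    intro m hm
    rcases Nat.eq_or_lt_of_le hm with rfl | hlt
    · exact hsum.le
    by_contra hcon
    push Not at hcon
    have h1 : ∑ b ∈ Finset.range m, r b ≤ m * r m := by
      calc ∑ b ∈ Finset.range m, r b ≤ ∑ _b ∈ Finset.range m, r m :=
            Finset.sum_le_sum fun b hb => hmono b m (Finset.mem_range.mp hb).le hlt
        _ = m * r m := by simp
    have h2 : 0 < r m := by
      by_contra h
      push Not at h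
      have : (m : ℝ) * r m ≤ 0 := mul_nonpos_of_nonneg_of_nonpos (by positivity) h
      linarith
    have h3 : ∑ b ∈ Finset.range d, r b = ∑ b ∈ Finset.range m, r b +
        ∑ b ∈ Finset.Ico m d, r b := (Finset.sum_range_add_sum_Ico _ hm).symm
    have h4 : 0 ≤ ∑ b ∈ Finset.Ico m d, r b := Finset.sum_nonneg fun b hb => by
      rw [Finset.mem_Ico] at hb
      exact h2.le.trans (hmono m b hb.1 hb.2)
    linarith
  rcases Nat.eq_zero_or_pos d with rfl | hd
  · simp
  have key : ∀ m, m < d → (∑ b ∈ Finset.range (m + 1), r b) / q m ≤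
      ∑ b ∈ Finset.range (m + 1), z b := by
    intro m
    induction m with
    | zero =>
      intro h0
      have h1 := hrec 0 h0
      have h2 := hq 0 h0
      simp only [Finset.range_zero, Finset.sum_empty, add_zero] at h1
      simp only [zero_add, Finset.range_one, Finset.sum_singleton]
      rw [div_le_iff₀ (by linarith), ← h1]
      linarith [mul_comm (q 0) (z 0)]
    | succ m ih =>
      intro hm
      have ih := ih (by omega)
      have h1 := hrec (m + 1) hm
      have h2 := hq (m + 1) hm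
      have h3 := hq m (by omega)
      have h4 := hqd m hm
      have h5 := hneg (m + 1) hm.le
      set P := ∑ b ∈ Finset.range (m + 1), z b
      set ρ := ∑ b ∈ Finset.range (m + 1), r b
      rw [Finset.sum_range_succ, Finset.sum_range_succ z, div_le_iff₀ (by linarith)]
      -- need ρ + r ≤ (P + z) q
      have h6 : ρ / q m * (q (m + 1) - 1) ≤ P * (q (m + 1) - 1) :=
        mul_le_mul_of_nonneg_right ih (by linarith)
      have h7 : ρ ≤ ρ / q m * (q (m + 1) - 1) := by
        rw [div_mul_eq_mul_div, le_div_iff₀ (by linarith)]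
        nlinarith
      have h8 : (P + z (m + 1)) * q (m + 1) = P * (q (m + 1) - 1) + r (m + 1) := by
        rw [← h1]; ring
      rw [h8]
      linarith
  obtain ⟨n, rfl⟩ : ∃ n, d = n + 1 := ⟨d - 1, by omega⟩
  have h := key n (by omega)
  rw [hsum, zero_div] at h
  exact h

/-- The vector `ξ ⊗ e_b`. -/
def wv (ξ : ι → ℂ) (b : Fin d) : ι × Fin d → ℂ := fun x => if x.2 = b then ξ x.1 else 0

theorem wv_smul (c : ℂ) (ξ : ι → ℂ) (b : Fin d) : wv (c • ξ) b = c • wv ξ b := by
  funext x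
  simp [wv]

theorem wv_zero (b : Fin d) : wv (0 : ι → ℂ) b = 0 := by
  funext x
  simp [wv]

theorem kron_wv (A : Matrix ι ι ℂ) (g : Matrix (Fin d) (Fin d) ℂ) (ξ : ι → ℂ) (b : Fin d) :
    (A ⊗ₖ g) *ᵥ wv ξ b = fun x => (A *ᵥ ξ) x.1 * g x.2 b := by
  funext x
  simp only [mulVec, dotProduct, wv, kroneckerMap_apply, Fintype.sum_prod_type]
  rw [Finset.sum_mul]
  refine Finset.sum_congr rfl fun y _ => ?_
  simp
  ring

theorem dot_wv (ζ : ι × Fin d → ℂ) (ξ : ι → ℂ) (b : Fin d) :
    star (wv ξ b) ⬝ᵥ ζ = star ξ ⬝ᵥ fun x => ζ (x, b) := by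
  simp only [dotProduct, wv, Pi.star_apply, Fintype.sum_prod_type]
  refine Finset.sum_congr rfl fun y _ => ?_
  rw [Finset.sum_eq_single b]
  · simp
  · intro c _ hc; simp [hc]
  · simp

variable (R : PRep d ι) {ξ : ι → ℂ} {ν : Fin d → ℝ} {M : Matrix (Fin d) (Fin d) ℂ}

theorem tensor_dp_wv (a b c : Fin d) (ξ : ι → ℂ) :
    R.tensor.dp (E a b) *ᵥ wv ξ c =
      wv (R.dp (E a b) *ᵥ ξ) c + if b = c then wv ξ a else 0 := by
  rw [R.tensor_dp, add_mulVec, kron_wv, kron_wv]
  funext x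
  simp only [Pi.add_apply, one_mulVec, E, single_apply, wv, one_apply]
  by_cases hbc : b = c
  · simp only [hbc, if_true, wv, and_true]
    by_cases h1 : x.2 = c
    · by_cases h2 : a = c
      · simp [h1, h2]
      · have h3 : ¬ c = a := fun h => h2 h.symm
        simp [h1, h2, h3]
    · by_cases h2 : a = x.2
      · simp [h1, ← h2]
      · have h3 : ¬ x.2 = a := fun h => h2 h.symm
        simp [h1, h2, h3]
  · simp only [hbc, if_false, and_false, Pi.zero_apply]
    by_cases h1 : x.2 = c <;> simp [h1]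

/-- Schwinger-Dyson identity applied to `ξ ⊗ e_b`. -/
theorem sd_wv (p : ℕ) (i : Fin d) (ξ : ι → ℂ) :
    ∑ b, (Sop R.tensor (p + 1) * R.tensor.dp (E i b)) *ᵥ wv ξ b =
      ((p : ℂ) + 1) • wv (Sop R p *ᵥ ξ) i := by
  have hent : ∀ a b, Continuous fun u : Matrix.unitaryGroup (Fin d) ℂ => conj (u.1 a b) :=
    fun a b => Complex.continuous_conj.comp (continuous_val.matrix_elem a b)
  funext x
  obtain ⟨x, c⟩ := x
  simp only [Sop_dp, smul_mulVec, Finset.sum_apply, Pi.smul_apply, smul_eq_mul]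
  rw [← Finset.mul_sum]
  congr 1
  -- rewrite as integrals via `mint_dot` with a basis vector
  have hF : ∀ b, Continuous fun u : Matrix.unitaryGroup (Fin d) ℂ =>
      ((conj u.1.trace) ^ p * conj (u.1 i b)) • R.tensor.tp u.1 := fun b =>
    ((conj_trace_continuous.pow p).mul (hent i b)).smul (tp_continuous R.tensor)
  have h1 : ∀ b, (mint (fun u : Matrix.unitaryGroup (Fin d) ℂ =>
      ((conj u.1.trace) ^ p * conj (u.1 i b)) • R.tensor.tp u.1) *ᵥ wv ξ b) (x, c) =
      ∫ u, (conj u.1.trace) ^ p * (R.tp u.1 *ᵥ ξ) x * (u.1 c b * conj (u.1 i b))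
        ∂(haarProb (Fin d)) := by
    intro b
    have h2 := mint_dot (hF b) (Pi.single (x, c) 1) (wv ξ b)
    rw [single_one_dotProduct] at h2
    rw [h2]
    refine integral_congr_ae (Filter.Eventually.of_forall fun u => ?_)
    simp only [single_one_dotProduct, smul_mulVec, Pi.smul_apply, smul_eq_mul]
    have : R.tensor.tp u.1 = R.tp u.1 ⊗ₖ u.1 := rfl
    rw [this, kron_wv]
    ring
  simp only [h1]
  have hint : ∀ b, Integrable (fun u : Matrix.unitaryGroup (Fin d) ℂ =>
      (conj u.1.trace) ^ p * (R.tp u.1 *ᵥ ξ) x * (u.1 c b * conj (u.1 i b)))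
      (haarProb (Fin d)) := by
    intro b
    refine integrable_of_continuous (((conj_trace_continuous.pow p).mul ?_).mul
      ((continuous_val.matrix_elem c b).mul (hent i b)))
    exact (continuous_apply x).comp ((tp_continuous R).matrix_mulVec continuous_const)
  rw [← integral_finsetSum _ fun b _ => hint b]
  have h3 : ∀ u : Matrix.unitaryGroup (Fin d) ℂ,
      ∑ b, (conj u.1.trace) ^ p * (R.tp u.1 *ᵥ ξ) x * (u.1 c b * conj (u.1 i b)) =
      if c = i then (conj u.1.trace) ^ p * (R.tp u.1 *ᵥ ξ) x else 0 := by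
    intro u
    rw [← Finset.mul_sum]
    have h4 : ∑ b, u.1 c b * conj (u.1 i b) = (1 : Matrix (Fin d) (Fin d) ℂ) c i := by
      rw [← unitary_mul_conjTranspose u, Matrix.mul_apply]
      rfl
    rw [h4, one_apply]
    split_ifs <;> simp
  simp only [h3, wv]
  by_cases hci : c = i
  · simp only [hci, if_true]
    have h5 := mint_dot (Sop_integrand_continuous R p) (Pi.single x 1) ξ
    rw [single_one_dotProduct] at h5
    unfold Sop
    rw [h5]
    refine integral_congr_ae (Filter.Eventually.of_forall fun u => ?_)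
    simp only [single_one_dotProduct, smul_mulVec, Pi.smul_apply, smul_eq_mul]
  · simp [hci]

/-- The triangular recursion. -/
theorem recursion (p : ℕ) (h : R.HW ξ ν) {κ : ℂ} (hκ : Sop R p *ᵥ ξ = κ • ξ)
    {X : Matrix (ι × Fin d) (ι × Fin d) ℂ}
    (hX : ∀ u : Matrix.unitaryGroup (Fin d) ℂ, X * R.tensor.tp u.1 = R.tensor.tp u.1 * X)
    (i : Fin d) :
    ((ν i : ℂ) + 1 + ((Finset.Ioi i).card : ℂ)) *
        (star (wv ξ i) ⬝ᵥ ((X * Sop R.tensor (p + 1)) *ᵥ wv ξ i)) +
      ∑ b ∈ Finset.Iio i, (star (wv ξ b) ⬝ᵥ ((X * Sop R.tensor (p + 1)) *ᵥ wv ξ b)) =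
      ((p : ℂ) + 1) * κ * (star (wv ξ i) ⬝ᵥ (X *ᵥ wv ξ i)) := by
  set S := Sop R.tensor (p + 1) with hS
  have hXS : ∀ Y, (X * S) * R.tensor.dp Y = R.tensor.dp Y * (X * S) := by
    intro Y
    refine R.tensor.comm_dp (fun u => ?_) Y
    rw [Matrix.mul_assoc, hS, Sop_comm, ← Matrix.mul_assoc, hX, Matrix.mul_assoc]
  have hsd := sd_wv R p i ξ
  rw [hκ, wv_smul] at hsd
  have h1 : star (wv ξ i) ⬝ᵥ (X *ᵥ (∑ b, (S * R.tensor.dp (E i b)) *ᵥ wv ξ b)) =
      ((p : ℂ) + 1) * κ * (star (wv ξ i) ⬝ᵥ (X *ᵥ wv ξ i)) := by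
    rw [hsd, mulVec_smul, mulVec_smul, dotProduct_smul, dotProduct_smul, smul_eq_mul,
      smul_eq_mul]
    ring
  rw [← h1, mulVec_sum, dotProduct_sum]
  -- each term
  have hterm : ∀ b, star (wv ξ i) ⬝ᵥ (X *ᵥ ((S * R.tensor.dp (E i b)) *ᵥ wv ξ b)) =
      star (wv ξ i) ⬝ᵥ ((X * S) *ᵥ (R.tensor.dp (E i b) *ᵥ wv ξ b)) := by
    intro b
    rw [mulVec_mulVec, mulVec_mulVec, Matrix.mul_assoc]
  simp only [hterm]
  have hgt : ∀ b, i < b → star (wv ξ i) ⬝ᵥ ((X * S) *ᵥ (R.tensor.dp (E i b) *ᵥ wv ξ b)) =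
      star (wv ξ i) ⬝ᵥ ((X * S) *ᵥ wv ξ i) := by
    intro b hb
    rw [tensor_dp_wv, h.raise i b hb, wv_zero]
    simp
  have heq : star (wv ξ i) ⬝ᵥ ((X * S) *ᵥ (R.tensor.dp (E i i) *ᵥ wv ξ i)) =
      ((ν i : ℂ) + 1) * (star (wv ξ i) ⬝ᵥ ((X * S) *ᵥ wv ξ i)) := by
    rw [tensor_dp_wv, h.weight, wv_smul]
    simp only [if_true]
    rw [mulVec_add, mulVec_smul, dotProduct_add, dotProduct_smul, smul_eq_mul]
    ring
  have hlt : ∀ b, b < i → star (wv ξ i) ⬝ᵥ ((X * S) *ᵥ (R.tensor.dp (E i b) *ᵥ wv ξ b)) =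
      star (wv ξ b) ⬝ᵥ ((X * S) *ᵥ wv ξ b) := by
    intro b hb
    rw [mulVec_mulVec, hXS, ← mulVec_mulVec, R.tensor.dot_dp, E_star, tensor_dp_wv,
      h.raise b i hb, wv_zero]
    simp
  have hsplit : ∀ f : Fin d → ℂ, ∑ b, f b = ∑ b ∈ Finset.Iio i, f b + f i +
      ∑ b ∈ Finset.Ioi i, f b := by
    intro f
    have h2 : (Finset.univ : Finset (Fin d)) =
        (insert i (Finset.Iio i)) ∪ Finset.Ioi i := by
      ext b
      simp only [Finset.mem_univ, Finset.mem_union, Finset.mem_insert, Finset.mem_Iio,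
        Finset.mem_Ioi, true_iff]
      rcases lt_trichotomy b i with hh | hh | hh
      · exact Or.inl (Or.inr hh)
      · exact Or.inl (Or.inl hh)
      · exact Or.inr hh
    rw [h2, Finset.sum_union, Finset.sum_insert (by simp)]
    · ring
    · rw [Finset.disjoint_left]
      intro b hb hb'
      simp only [Finset.mem_insert, Finset.mem_Iio] at hb
      rw [Finset.mem_Ioi] at hb'
      rcases hb with rfl | hb
      · exact lt_irrefl _ hb'
      · exact lt_asymm hb hb'
  rw [hsplit, heq, Finset.sum_congr rfl fun b hb => hlt b (Finset.mem_Iio.mp hb),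
    Finset.sum_congr rfl fun b hb => hgt b (Finset.mem_Ioi.mp hb), Finset.sum_const,
    nsmul_eq_mul]
  ring

end Pool.Agent.Helper49_Channels
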