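import Pool.Agent.Helper49_Channels.Q1Basic

/-!
# Polynomial representations of `M_d` (towards Q1 of MP_a4cf75_mp)

A bare-hands structure containing exactly what is needed of the maps `g ↦ g ^ {⊗ s}`:
multiplicativity, compatibility with adjoints and the derivative.
-/

open MeasureTheory Matrix TopologicalSpace
open scoped Kronecker ComplexConjugate ComplexOrder

namespace Pool.Agent.Helper49_Channels

/-- A differentiable multiplicative `*`-map from `M_d` to `M_ι`. -/
structure PRep (d : ℕ) (ι : Type) [Fintype ι] [DecidableEq ι] where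
  tp : Matrix (Fin d) (Fin d) ℂ → Matrix ι ι ℂ
  D : Matrix (Fin d) (Fin d) ℂ → Matrix (Fin d) (Fin d) ℂ →ₗ[ℂ] Matrix ι ι ℂ
  one : tp 1 = 1
  mul : ∀ g h, tp (g * h) = tp g * tp h
  star : ∀ g, tp gᴴ = (tp g)ᴴ
  deriv : ∀ {g : ℝ → Matrix (Fin d) (Fin d) ℂ} {g' : Matrix (Fin d) (Fin d) ℂ} {x : ℝ},
    MDeriv g g' x → MDeriv (fun θ => tp (g θ)) (D (g x) g') x
  cont : Continuous tp

namespace PRep

variable {d : ℕ} {ι : Type} [Fintype ι] [DecidableEq ι] (R : PRep d ι)

/-- The derivative of the representation at the identity. -/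
def dp : Matrix (Fin d) (Fin d) ℂ →ₗ[ℂ] Matrix ι ι ℂ := R.D 1

theorem mderiv_line (A Y : Matrix (Fin d) (Fin d) ℂ) (x : ℝ) :
    MDeriv (fun θ : ℝ => A + (θ : ℂ) • Y) Y x := by
  intro i j
  have h1 : HasDerivAt (fun θ : ℝ => (θ : ℂ) * Y i j) (1 * Y i j) x :=
    (Complex.ofRealCLM.hasDerivAt (x := x)).mul_const (Y i j)
  have h2 := h1.const_add (A i j)
  simpa using h2

theorem D_mul_left (g Y : Matrix (Fin d) (Fin d) ℂ) : R.D g (Y * g) = R.dp Y * R.tp g := by
  have h1 : MDeriv (fun θ : ℝ => (1 + (θ : ℂ) • Y) * g) (Y * g) 0 :=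
    (mderiv_line 1 Y 0).mul_const g
  have h2 := R.deriv h1
  have h3 : MDeriv (fun θ : ℝ => R.tp (1 + (θ : ℂ) • Y) * R.tp g) (R.dp Y * R.tp g) 0 := by
    have := (R.deriv (mderiv_line 1 Y 0)).mul_const (R.tp g)
    simpa [dp] using this
  have h4 : MDeriv (fun θ : ℝ => R.tp ((1 + (θ : ℂ) • Y) * g)) (R.dp Y * R.tp g) 0 :=
    h3.congr fun θ => R.mul _ _
  have h5 := h2.unique h4
  simpa using h5

theorem D_mul_right (g Y : Matrix (Fin d) (Fin d) ℂ) : R.D g (g * Y) = R.tp g * R.dp Y := by
  have h1 : MDeriv (fun θ : ℝ => g * (1 + (θ : ℂ) • Y)) (g * Y) 0 :=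
    (mderiv_line 1 Y 0).const_mul g
  have h2 := R.deriv h1
  have h3 : MDeriv (fun θ : ℝ => R.tp g * R.tp (1 + (θ : ℂ) • Y)) (R.tp g * R.dp Y) 0 := by
    have := (R.deriv (mderiv_line 1 Y 0)).const_mul (R.tp g)
    simpa [dp] using this
  have h4 : MDeriv (fun θ : ℝ => R.tp (g * (1 + (θ : ℂ) • Y))) (R.tp g * R.dp Y) 0 :=
    h3.congr fun θ => R.mul _ _
  have h5 := h2.unique h4
  simpa using h5

theorem intertwine {A B m : Matrix (Fin d) (Fin d) ℂ} (h : A * m = m * B) :
    R.dp A * R.tp m = R.tp m * R.dp B := by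
  rw [← R.D_mul_left, ← R.D_mul_right, h]

theorem dp_star (X : Matrix (Fin d) (Fin d) ℂ) : R.dp Xᴴ = (R.dp X)ᴴ := by
  have h1 := (R.deriv (mderiv_line 1 X 0)).conjTranspose
  have h2 := R.deriv (mderiv_line 1 Xᴴ 0)
  have h3 : MDeriv (fun θ : ℝ => R.tp (1 + (θ : ℂ) • Xᴴ))
      (R.D (1 + ((0 : ℝ) : ℂ) • X) X)ᴴ 0 := by
    refine h1.congr fun θ => ?_
    rw [← R.star]
    congr 1
    simp
  have h4 := h2.unique h3
  simpa [dp] using h4

theorem dp_comm (X Y : Matrix (Fin d) (Fin d) ℂ) :
    R.dp X * R.dp Y - R.dp Y * R.dp X = R.dp (X * Y - Y * X) := by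
  have hm := mderiv_line (1 : Matrix (Fin d) (Fin d) ℂ) X 0
  have hlin : ∀ (Z W : Matrix (Fin d) (Fin d) ℂ),
      MDeriv (fun θ : ℝ => R.dp (Z + (θ : ℂ) • W)) (R.dp W) 0 := by
    intro Z W i j
    have h1 : HasDerivAt (fun θ : ℝ => (θ : ℂ) * R.dp W i j) (1 * R.dp W i j) 0 :=
      (Complex.ofRealCLM.hasDerivAt (x := (0:ℝ))).mul_const (R.dp W i j)
    have h2 := h1.const_add (R.dp Z i j)
    simpa [map_add, map_smul] using h2
  have htp : MDeriv (fun θ : ℝ => R.tp (1 + (θ : ℂ) • X)) (R.dp X) 0 := by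
    simpa [dp] using R.deriv hm
  have hL := (hlin Y (X * Y)).mul htp
  have hR := htp.mul (hlin Y (Y * X))
  have hEq : ∀ θ : ℝ, R.tp (1 + (θ : ℂ) • X) * R.dp (Y + (θ : ℂ) • (Y * X)) =
      R.dp (Y + (θ : ℂ) • (X * Y)) * R.tp (1 + (θ : ℂ) • X) := by
    intro θ
    symm
    apply R.intertwine
    simp only [Matrix.add_mul, Matrix.mul_add, Matrix.one_mul, Matrix.mul_one,
      Matrix.smul_mul, Matrix.mul_smul, Matrix.mul_assoc]
  have h := hL.unique (hR.congr fun θ => (hEq θ).symm)
  simp only [Complex.ofReal_zero, zero_smul, add_zero, R.one, Matrix.mul_one,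
    Matrix.one_mul] at h
  rw [map_sub]
  have h' : R.dp X * R.dp Y = R.dp (X * Y) + R.dp Y * R.dp X - R.dp (Y * X) := by
    rw [h]; abel
  rw [h']; abel

theorem tp_unipotent {X : Matrix (Fin d) (Fin d) ℂ} (hX : X * X = 0) {ξ : ι → ℂ}
    (h : R.dp X *ᵥ ξ = 0) : R.tp (1 + X) *ᵥ ξ = ξ := by
  have hder : ∀ x : ℝ, MDeriv (fun θ : ℝ => R.tp (1 + (θ : ℂ) • X) * replicateCol Unit ξ) 0 x := by
    intro x
    have h1 := (R.deriv (mderiv_line 1 X x)).mul_const (replicateCol Unit ξ)
    have h2 : R.D (1 + (x : ℂ) • X) X = R.tp (1 + (x : ℂ) • X) * R.dp X := by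
      rw [← R.D_mul_right]
      congr 1
      simp [Matrix.add_mul, hX]
    rw [h2, Matrix.mul_assoc] at h1
    have h3 : R.dp X * replicateCol Unit ξ = 0 := by
      rw [← replicateCol_mulVec, h]; simp
    rw [h3, Matrix.mul_zero] at h1
    exact h1
  have h1 := MDeriv.eq_const hder 1 0
  simp only [Complex.ofReal_one, one_smul, Complex.ofReal_zero, zero_smul, add_zero, R.one,
    Matrix.one_mul] at h1
  rw [← replicateCol_mulVec] at h1
  exact replicateCol_injective h1

/-- Operators commuting with all `tp u`, `u` unitary, commute with `dp X` for all `X`. -/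
theorem comm_dp {C : Matrix ι ι ℂ}
    (hC : ∀ u : Matrix.unitaryGroup (Fin d) ℂ, C * R.tp u.1 = R.tp u.1 * C)
    (X : Matrix (Fin d) (Fin d) ℂ) : C * R.dp X = R.dp X * C := by
  have key := eq_zero_of_skew (V := Matrix ι ι ℂ)
    ((LinearMap.mulLeft ℂ C - LinearMap.mulRight ℂ C).comp R.dp) (fun _ => True)
    (fun _ _ _ _ => trivial) (fun _ _ _ => trivial) (fun _ _ => trivial) ?_ X trivial
  · simpa [sub_eq_zero] using key
  · intro Y hY _
    obtain ⟨c⟩ := exists_ucurve hY
    have h1 : MDeriv (fun θ => R.tp (c.w θ).1) (R.dp Y) 0 := by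
      have := R.deriv c.deriv_zero
      simpa [dp, c.zero] using this
    have h2 := (h1.const_mul C).unique ((h1.mul_const C).congr fun θ => hC _)
    simp [h2]

/-- Operators commuting with all `tp u`, `u` unitary, commute with `tp M`, `M` positive
definite. -/
theorem comm_tp {C : Matrix ι ι ℂ}
    (hC : ∀ u : Matrix.unitaryGroup (Fin d) ℂ, C * R.tp u.1 = R.tp u.1 * C)
    {M : Matrix (Fin d) (Fin d) ℂ} (hM : M.PosDef) : C * R.tp M = R.tp M * C := by
  obtain ⟨V, l, hVl, hl⟩ := exists_spectral hM.1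
  have hl := hl hM
  set c : Fin d → ℂ := fun i => (Real.log (l i) : ℂ) with hc
  set H := V.1 * diagonal c * V.1ᴴ with hH
  have hg1 : specCurve V c 1 = M := by
    rw [hVl]
    unfold specCurve
    congr 3
    funext i
    rw [hc]
    simp only [Complex.ofReal_one, one_mul]
    rw [← Complex.ofReal_exp, Real.exp_log (hl i)]
  have hneg : ∀ θ : ℝ, specCurve V (fun i => -c i) θ = specCurve V c (-θ) := by
    intro θ
    unfold specCurve
    congr 3
    funext i
    congr 1
    push_cast
    ring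
  have hkg : ∀ θ : ℝ, specCurve V c θ * specCurve V (fun i => -c i) θ = 1 := by
    intro θ
    rw [hneg, ← specCurve_add]
    simp [specCurve_zero]
  have hcomm : ∀ θ : ℝ, specCurve V (fun i => -c i) θ * H = H * specCurve V (fun i => -c i) θ := by
    intro θ
    have hV := unitary_conjTranspose_mul V
    rw [hH]
    unfold specCurve
    calc V.1 * diagonal (fun i => Complex.exp (θ * -c i)) * V.1ᴴ * (V.1 * diagonal c * V.1ᴴ)
        = V.1 * (diagonal (fun i => Complex.exp (θ * -c i)) * (V.1ᴴ * V.1) * diagonal c) *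
            V.1ᴴ := by simp only [Matrix.mul_assoc]
      _ = V.1 * (diagonal c * (V.1ᴴ * V.1) * diagonal (fun i => Complex.exp (θ * -c i))) *
            V.1ᴴ := by
          rw [hV, Matrix.mul_one, Matrix.mul_one, diagonal_mul_diagonal, diagonal_mul_diagonal]
          congr 3
          funext i
          ring
      _ = _ := by simp only [Matrix.mul_assoc]
  have hder : ∀ x : ℝ, MDeriv (fun θ : ℝ => R.tp (specCurve V (fun i => -c i) θ) * C *
      R.tp (specCurve V c θ)) 0 x := by
    intro x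
    have h1 := specCurve_deriv V (fun i => -c i) x
    have h1' : V.1 * diagonal (fun i => -c i) * V.1ᴴ * specCurve V (fun i => -c i) x =
        specCurve V (fun i => -c i) x * (-H) := by
      have : V.1 * diagonal (fun i => -c i) * V.1ᴴ = -H := by
        rw [hH]
        have : diagonal (fun i => -c i) = -diagonal c := by
          ext i j
          by_cases hij : i = j
          · subst hij; simp
          · simp [diagonal_apply_ne _ hij]
        rw [this, Matrix.mul_neg, Matrix.neg_mul]
      rw [this, Matrix.mul_neg, hcomm, Matrix.neg_mul]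
    rw [h1'] at h1
    have h2 := R.deriv h1
    rw [R.D_mul_right] at h2
    have h3 := R.deriv (specCurve_deriv V c x)
    rw [R.D_mul_left] at h3
    have h4 := (h2.mul_const C).mul h3
    have h5 := R.comm_dp hC H
    have h6 : R.tp (specCurve V (fun i => -c i) x) * R.dp (-H) * C * R.tp (specCurve V c x) +
        R.tp (specCurve V (fun i => -c i) x) * C * (R.dp (V.1 * diagonal c * V.1ᴴ) *
          R.tp (specCurve V c x)) = 0 := by
      rw [← hH, map_neg]
      have : R.tp (specCurve V (fun i => -c i) x) * C * (R.dp H * R.tp (specCurve V c x)) =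
          R.tp (specCurve V (fun i => -c i) x) * (C * R.dp H) * R.tp (specCurve V c x) := by
        simp only [Matrix.mul_assoc]
      rw [this, h5]
      simp only [Matrix.mul_neg, Matrix.neg_mul, Matrix.mul_assoc]
      simp
    rw [h6] at h4
    exact h4
  have h1 := MDeriv.eq_const hder 1 0
  simp only [specCurve_zero, R.one, Matrix.one_mul, Matrix.mul_one] at h1
  have h2 : R.tp (specCurve V c 1) * (R.tp (specCurve V (fun i => -c i) 1) * C *
      R.tp (specCurve V c 1)) = R.tp (specCurve V c 1) * C := by rw [h1]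
  rw [← hg1, ← h2, ← Matrix.mul_assoc, ← Matrix.mul_assoc, ← R.mul, hkg, R.one, Matrix.one_mul]

/-- The representation `g ↦ tp g ⊗ g`. -/
def tensor : PRep d (ι × Fin d) where
  tp g := R.tp g ⊗ₖ g
  D g :=
    { toFun := fun Y => R.D g Y ⊗ₖ g + R.tp g ⊗ₖ Y
      map_add' := by
        intro X Y
        rw [map_add, add_kronecker, kronecker_add]
        abel
      map_smul' := by
        intro c X
        rw [map_smul, smul_kronecker, kronecker_smul, RingHom.id_apply, smul_add] }
  one := by rw [R.one, one_kronecker_one]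
  mul g h := by rw [R.mul, mul_kronecker_mul]
  star g := by rw [R.star, conjTranspose_kronecker]
  deriv h := (R.deriv h).kronecker h
  cont := by
    refine continuous_matrix fun i j => ?_
    exact (R.cont.matrix_elem i.1 j.1).mul (continuous_id.matrix_elem i.2 j.2)

theorem tensor_dp (X : Matrix (Fin d) (Fin d) ℂ) :
    R.tensor.dp X = R.dp X ⊗ₖ (1 : Matrix (Fin d) (Fin d) ℂ) +
      (1 : Matrix ι ι ℂ) ⊗ₖ X := by
  show R.D 1 X ⊗ₖ (1 : Matrix (Fin d) (Fin d) ℂ) + R.tp 1 ⊗ₖ X = _
  rw [R.one]; rfl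

end PRep

/-- The representation `g ↦ g ^ {⊗ s}`. -/
def powRep (d s : ℕ) : PRep d (Fin s → Fin d) where
  tp g := Matrix.of fun w w' => ∏ i, g (w i) (w' i)
  D g :=
    { toFun := fun Y => Matrix.of fun w w' =>
        ∑ i, (∏ j ∈ Finset.univ.erase i, g (w j) (w' j)) * Y (w i) (w' i)
      map_add' := by
        intro X Y
        ext w w'
        simp [mul_add, Finset.sum_add_distrib]
      map_smul' := by
        intro c X
        ext w w'
        simp only [Matrix.smul_apply, of_apply, smul_eq_mul, RingHom.id_apply, Finset.mul_sum]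
        refine Finset.sum_congr rfl fun i _ => by ring }
  one := by
    ext w w'
    by_cases h : w = w'
    · subst h; simp
    · rw [one_apply_ne h]
      obtain ⟨i, hi⟩ := Function.ne_iff.mp h
      exact Finset.prod_eq_zero (Finset.mem_univ i) (one_apply_ne hi)
  mul g h := by
    ext w w'
    simp only [of_apply, Matrix.mul_apply, ← Finset.prod_mul_distrib]
    rw [Finset.prod_univ_sum]
    simp
  star g := by
    ext w w'
    simp
  deriv := by
    intro g g' x h w w'
    have := HasDerivAt.fun_finsetProd (u := Finset.univ)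
      (f := fun (i : Fin s) θ => g θ (w i) (w' i)) (f' := fun i => g' (w i) (w' i)) (x := x)
      (fun i _ => h (w i) (w' i))
    simpa using this
  cont := by
    refine continuous_matrix fun w w' => ?_
    have h : ∀ i : Fin s, Continuous fun a : Matrix (Fin d) (Fin d) ℂ => a (w i) (w' i) :=
      fun i => continuous_id.matrix_elem (w i) (w' i)
    exact continuous_finsetProd Finset.univ fun i _ => h i

theorem powRep_trace (d s : ℕ) (g : Matrix (Fin d) (Fin d) ℂ) :
    ((powRep d s).tp g).trace = g.trace ^ s := by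
  simp only [powRep, Matrix.trace, diag_apply, of_apply]
  rw [← Fin.prod_const, Finset.prod_univ_sum]
  simp

theorem powRep_dp_single (d s : ℕ) (a : Fin d) :
    (powRep d s).dp (single a a 1) =
      diagonal fun w => ((Finset.univ.filter fun i => w i = a).card : ℂ) := by
  ext w w'
  have hdef : (powRep d s).dp (single a a 1) w w' =
      ∑ i, (∏ j ∈ Finset.univ.erase i, (1 : Matrix (Fin d) (Fin d) ℂ) (w j) (w' j)) *
        (single a a (1:ℂ)) (w i) (w' i) := rfl
  rw [hdef]
  by_cases h : w = w'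
  · subst h
    simp [single_apply, Finset.sum_boole, eq_comm]
  · rw [diagonal_apply_ne _ h]
    obtain ⟨k, hk⟩ := Function.ne_iff.mp h
    refine Finset.sum_eq_zero fun i _ => ?_
    by_cases hi : k = i
    · subst hi
      have : (single a a (1:ℂ)) (w k) (w' k) = 0 := by
        rw [single_apply, if_neg]
        rintro ⟨h1, h2⟩
        exact hk (h1.symm.trans h2)
      rw [this, mul_zero]
    · have : (∏ j ∈ Finset.univ.erase i, (1 : Matrix (Fin d) (Fin d) ℂ) (w j) (w' j)) = 0 :=
        Finset.prod_eq_zero (Finset.mem_erase.mpr ⟨hi, Finset.mem_univ k⟩) (one_apply_ne hk)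
      rw [this, zero_mul]

end Pool.Agent.Helper49_Channels
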