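import Pool.Agent.Helper49_Channels.Q1Path

/-!
# The moment inequality `E |Tr (u A)|^{2t} ≤ E |Tr u|^{2t} (‖A‖² / d)^t`
-/

open MeasureTheory Matrix TopologicalSpace
open scoped Kronecker ComplexConjugate ComplexOrder

namespace Pool.Agent.Helper49_Channels

set_option linter.unusedSectionVars false

variable {d : ℕ}

/-- `E |Tr (u P)|^{2t} = E [(Tr u P²)^t (conj Tr u)^t]` for positive `P`. -/
theorem exists_root (t : ℕ) {M : Matrix (Fin d) (Fin d) ℂ} (hM : M.PosDef) :
    ∃ P Q : Matrix (Fin d) (Fin d) ℂ, Pᴴ = P ∧ P * P = M ∧ P * Q = 1 ∧ Q * P = 1 ∧ Qᴴ = Q ∧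
      ∫ u, (conj (u.1 * P).trace) ^ t * (u.1 * P).trace ^ t ∂(haarProb (Fin d)) =
      ∫ u, (conj u.1.trace) ^ t * (u.1 * M).trace ^ t ∂(haarProb (Fin d)) := by
  obtain ⟨V, c, hc⟩ := exists_logCurve hM
  set cc : Fin d → ℂ := fun i => (c i : ℂ) with hcc
  set g : ℝ → Matrix (Fin d) (Fin d) ℂ := specCurve V cc with hg
  set H := V.1 * diagonal cc * V.1ᴴ with hH
  have hgH : ∀ θ : ℝ, (g θ)ᴴ = g θ := by
    intro θ
    rw [hg, specCurve_conjTranspose]
    simp [hcc]
  have hHH : Hᴴ = H := by
    rw [hH, conjTranspose_mul, conjTranspose_mul, conjTranspose_conjTranspose,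
      diagonal_conjTranspose, Matrix.mul_assoc]
    congr 3
    funext i
    simp [hcc]
  have hgd : ∀ x, MDeriv g (H * g x) x := fun x => specCurve_deriv V cc x
  have hgc : Continuous g := specCurve_continuous V cc
  have h0 : g 0 = 1 := specCurve_zero V cc
  have hadd : ∀ s t, g (s + t) = g s * g t := fun s t => specCurve_add V cc s t
  rcases Nat.eq_zero_or_pos t with rfl | ht
  · refine ⟨g (1/2), g (-(1/2)), hgH _, ?_, ?_, ?_, hgH _, by simp⟩
    · rw [← hadd, ← hc]; norm_num
    · rw [← hadd, ← h0]; norm_num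
    · rw [← hadd, ← h0]; norm_num
  obtain ⟨s, rfl⟩ : ∃ s, t = s + 1 := ⟨t - 1, by omega⟩
  set f : ℝ → Matrix.unitaryGroup (Fin d) ℂ → ℂ := fun θ u =>
    (conj (u.1 * g (1 - θ)).trace) ^ (s + 1) * (u.1 * g θ).trace ^ (s + 1) with hf
  set K : ℝ → ℂ := fun θ => ∫ u, f θ u ∂(haarProb (Fin d)) with hK
  -- derivative of the integrand
  set f' : ℝ → Matrix.unitaryGroup (Fin d) ℂ → ℂ := fun θ u =>
    ((s + 1 : ℕ) : ℂ) * (conj (u.1 * g (1 - θ)).trace) ^ s *
      (-conj (u.1 * (H * g (1 - θ))).trace) * (u.1 * g θ).trace ^ (s + 1) +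
    (conj (u.1 * g (1 - θ)).trace) ^ (s + 1) *
      (((s + 1 : ℕ) : ℂ) * (u.1 * g θ).trace ^ s * (u.1 * (H * g θ)).trace) with hf'
  have hder : ∀ θ, HasDerivAt K (∫ u, f' θ u ∂(haarProb (Fin d))) θ := by
    intro θ
    refine hasDerivAt_haar_integral (f := f) (f' := f') θ ?_ ?_ ?_
    · intro θ u
      have h1 : HasDerivAt (fun θ => (u.1 * g θ).trace) (u.1 * (H * g θ)).trace θ :=
        ((hgd θ).const_mul u.1).trace
      have h2 : HasDerivAt (fun θ => (u.1 * g θ).trace) (u.1 * (H * g (1 - θ))).trace (1 - θ) :=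
        ((hgd (1 - θ)).const_mul u.1).trace
      have h3 : HasDerivAt (fun θ => (u.1 * g (1 - θ)).trace)
          (-(u.1 * (H * g (1 - θ))).trace) θ := by
        exact h2.comp_const_sub 1 θ
      have h5 : HasDerivAt (fun θ => conj (u.1 * g (1 - θ)).trace)
          (-conj (u.1 * (H * g (1 - θ))).trace) θ := by
        have h6 := h3.star
        rw [star_neg] at h6
        exact h6
      have h7 := (h5.fun_pow (s + 1)).fun_mul (h1.fun_pow (s + 1))
      simp only [Nat.add_sub_cancel] at h7
      exact h7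
    · intro θ
      exact ((Complex.continuous_conj.comp
        (continuous_val.matrix_mul continuous_const).matrix_trace).pow _).mul
        ((continuous_val.matrix_mul continuous_const).matrix_trace.pow _)
    · have hv : Continuous fun p : ℝ × Matrix.unitaryGroup (Fin d) ℂ => p.2.1 :=
        continuous_val.comp continuous_snd
      have hl : Continuous fun p : ℝ × Matrix.unitaryGroup (Fin d) ℂ => g p.1 :=
        hgc.comp continuous_fst
      have hl' : Continuous fun p : ℝ × Matrix.unitaryGroup (Fin d) ℂ => g (1 - p.1) :=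
        hgc.comp (continuous_const.sub continuous_fst)
      have t1 : Continuous fun p : ℝ × Matrix.unitaryGroup (Fin d) ℂ =>
          (p.2.1 * g p.1).trace := (hv.matrix_mul hl).matrix_trace
      have t2 : Continuous fun p : ℝ × Matrix.unitaryGroup (Fin d) ℂ =>
          conj (p.2.1 * g (1 - p.1)).trace :=
        Complex.continuous_conj.comp (hv.matrix_mul hl').matrix_trace
      have t3 : Continuous fun p : ℝ × Matrix.unitaryGroup (Fin d) ℂ =>
          (p.2.1 * (H * g p.1)).trace :=
        (hv.matrix_mul (continuous_const.matrix_mul hl)).matrix_trace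
      have t4 : Continuous fun p : ℝ × Matrix.unitaryGroup (Fin d) ℂ =>
          conj (p.2.1 * (H * g (1 - p.1))).trace :=
        Complex.continuous_conj.comp (hv.matrix_mul (continuous_const.matrix_mul hl')).matrix_trace
      exact (((continuous_const.mul (t2.pow _)).mul t4.neg).mul (t1.pow _)).add
        ((t2.pow _).mul ((continuous_const.mul (t1.pow _)).mul t3))
  have hzero : ∀ θ, ∫ u, f' θ u ∂(haarProb (Fin d)) = 0 := by
    intro θ
    have hX : (Complex.I • H)ᴴ = -(Complex.I • H) := by
      rw [conjTranspose_smul, hHH]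
      simp
    obtain ⟨w⟩ := exists_ucurve hX
    set B := g θ
    set C := g (1 - θ)
    have hc1 : Continuous fun u : Matrix.unitaryGroup (Fin d) ℂ => (u.1 * B).trace :=
      (continuous_val.matrix_mul continuous_const).matrix_trace
    have hc2 : Continuous fun u : Matrix.unitaryGroup (Fin d) ℂ => conj (u.1 * C).trace :=
      Complex.continuous_conj.comp (continuous_val.matrix_mul continuous_const).matrix_trace
    have hc3 : Continuous fun u : Matrix.unitaryGroup (Fin d) ℂ => (u.1 * (H * B)).trace :=
      (continuous_val.matrix_mul continuous_const).matrix_trace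
    have hc4 : Continuous fun u : Matrix.unitaryGroup (Fin d) ℂ => conj (u.1 * (H * C)).trace :=
      Complex.continuous_conj.comp (continuous_val.matrix_mul continuous_const).matrix_trace
    have hcf : Continuous fun u : Matrix.unitaryGroup (Fin d) ℂ =>
        (conj (u.1 * C).trace) ^ (s + 1) * (u.1 * B).trace ^ (s + 1) :=
      (hc2.pow _).mul (hc1.pow _)
    have hch : Continuous fun u : Matrix.unitaryGroup (Fin d) ℂ => Complex.I * f' θ u :=
      continuous_const.mul ((((continuous_const.mul (hc2.pow _)).mul hc4.neg).mul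
        (hc1.pow _)).add ((hc2.pow _).mul ((continuous_const.mul (hc1.pow _)).mul hc3)))
    have key := integral_deriv_right w hcf hch ?_
    · rw [integral_const_mul] at key
      exact (mul_eq_zero.mp key).resolve_left Complex.I_ne_zero
    · intro u
      have h0 : MDeriv (fun θ => u.1 * (w.w θ).1) (u.1 * (Complex.I • H)) 0 :=
        w.deriv_zero.const_mul u.1
      have e0 : u.1 * (w.w 0).1 = u.1 := by rw [w.zero]; exact Matrix.mul_one _
      have h1 := (h0.mul_const B).trace
      have e1 : (u.1 * (Complex.I • H) * B).trace = Complex.I * (u.1 * (H * B)).trace := by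
        rw [Matrix.mul_smul, Matrix.smul_mul, Matrix.trace_smul, smul_eq_mul, Matrix.mul_assoc]
      have e2 : star (u.1 * (Complex.I • H) * C).trace =
          -Complex.I * conj (u.1 * (H * C)).trace := by
        rw [Matrix.mul_smul, Matrix.smul_mul, Matrix.trace_smul, smul_eq_mul, Matrix.mul_assoc,
          star_mul']
        have : star Complex.I = -Complex.I := Complex.conj_I
        rw [this]; rfl
      have h2 : HasDerivAt (fun θ => conj (u.1 * (w.w θ).1 * C).trace)
          (-Complex.I * conj (u.1 * (H * C)).trace) 0 := by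
        have h6 := ((h0.mul_const C).trace).star
        rw [e2] at h6
        exact h6
      rw [e1] at h1
      have h3 := (h2.fun_pow (s + 1)).fun_mul (h1.fun_pow (s + 1))
      simp only [Nat.add_sub_cancel, e0] at h3
      refine h3.congr_deriv ?_
      simp only [hf']
      ring
  have hKconst : K (1/2) = K 1 :=
    is_const_of_deriv_eq_zero (fun x => (hder x).differentiableAt)
      (fun x => by rw [(hder x).deriv, hzero]) _ _
  refine ⟨g (1/2), g (-(1/2)), hgH _, ?_, ?_, ?_, hgH _, ?_⟩
  · rw [← hadd, ← hc]; norm_num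
  · rw [← hadd, ← h0]; norm_num
  · rw [← hadd, ← h0]; norm_num
  · have e1 : K (1/2) = ∫ u, (conj (u.1 * g (1/2)).trace) ^ (s + 1) *
        (u.1 * g (1/2)).trace ^ (s + 1) ∂(haarProb (Fin d)) := by
      simp only [hK, hf]; norm_num
    have e2 : K 1 = ∫ u, (conj u.1.trace) ^ (s + 1) * (u.1 * M).trace ^ (s + 1)
        ∂(haarProb (Fin d)) := by
      simp only [hK, hf, sub_self, h0, Matrix.mul_one, hc]
    rw [← e1, hKconst, e2]

end Pool.Agent.Helper49_Channels
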