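import Pool.Agent.Helper49_Channels.Q1Star

/-!
# The moment inequality `E |Tr (u A)|^{2t} ≤ E |Tr u|^{2t} (‖A‖² / d)^t`
-/

open MeasureTheory Matrix TopologicalSpace
open scoped Kronecker ComplexConjugate ComplexOrder

namespace Pool.Agent.Helper49_Channels

set_option linter.unusedSectionVars false

variable {d : ℕ}

theorem hsSq_eq_trace (A : Matrix (Fin d) (Fin d) ℂ) : (A * Aᴴ).trace = ((hsSq A : ℝ) : ℂ) := by
  unfold hsSq
  simp only [Matrix.trace, Matrix.diag_apply, Matrix.mul_apply, conjTranspose_apply]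
  push_cast
  refine Finset.sum_congr rfl fun i _ => Finset.sum_congr rfl fun j _ => ?_
  have := Complex.mul_conj' (A i j)
  rw [← this]; rfl

theorem Dmom_nonneg (d t : ℕ) : 0 ≤ Dmom d t :=
  integral_nonneg fun _ => by positivity

theorem integral_left_real (f : Matrix.unitaryGroup (Fin d) ℂ → ℝ)
    (W : Matrix.unitaryGroup (Fin d) ℂ) :
    ∫ V, f (W * V) ∂(haarProb (Fin d)) = ∫ V, f V ∂(haarProb (Fin d)) :=
  integral_mul_left_eq_self f W

theorem star_ineq_inv (hd : 1 ≤ d) (t : ℕ) {A B : Matrix (Fin d) (Fin d) ℂ} (hAB : A * B = 1) :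
    ∫ u, ‖(u.1 * A).trace‖ ^ (2 * t) ∂(haarProb (Fin d)) ≤ Dmom d t * (hsSq A / d) ^ t := by
  have hd0 : (0 : ℝ) < d := by exact_mod_cast hd
  have hpos : (A * Aᴴ).PosDef := by
    refine PosDef.mul_conjTranspose_self A fun v w h => ?_
    have h1 : (v ᵥ* A) ᵥ* B = (w ᵥ* A) ᵥ* B := by rw [show v ᵥ* A = w ᵥ* A from h]
    rwa [vecMul_vecMul, vecMul_vecMul, hAB, vecMul_one, vecMul_one] at h1
  have hn : 0 < hsSq A := by
    have : Nonempty (Fin d) := ⟨⟨0, hd⟩⟩
    have h1 := hpos.trace_pos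
    rw [hsSq_eq_trace] at h1
    exact_mod_cast h1
  set c : ℝ := d / hsSq A with hc
  have hc0 : 0 < c := div_pos hd0 hn
  set M : Matrix (Fin d) (Fin d) ℂ := (c : ℂ) • (A * Aᴴ) with hM
  have hMp : M.PosDef := by
    refine hpos.smul ?_
    exact_mod_cast hc0
  have hMtr : M.trace = d := by
    rw [hM, Matrix.trace_smul, hsSq_eq_trace, smul_eq_mul, hc]
    have : ((hsSq A : ℝ) : ℂ) ≠ 0 := by exact_mod_cast hn.ne'
    push_cast
    field_simp
  obtain ⟨P, Q, hP, hPP, hPQ, hQP, hQ, hint⟩ := exists_root t hMp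
  set r : ℝ := Real.sqrt c with hr
  have hr2 : r * r = c := Real.mul_self_sqrt hc0.le
  have hr2' : (r : ℂ) * (r : ℂ) = (c : ℂ) := by exact_mod_cast hr2
  set W0 : Matrix (Fin d) (Fin d) ℂ := (r : ℂ) • (Q * A) with hW0
  have hWW : W0 * W0ᴴ = 1 := by
    rw [hW0, conjTranspose_smul, conjTranspose_mul, hQ, Matrix.smul_mul, Matrix.mul_smul,
      smul_smul]
    have : star (r : ℂ) = (r : ℂ) := Complex.conj_ofReal r
    rw [this, hr2']
    calc (c : ℂ) • (Q * A * (Aᴴ * Q)) = Q * M * Q := by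
          rw [hM, Matrix.mul_smul, Matrix.smul_mul]
          simp only [Matrix.mul_assoc]
      _ = (Q * P) * (P * Q) := by rw [← hPP]; simp only [Matrix.mul_assoc]
      _ = 1 := by rw [hPQ, hQP, Matrix.one_mul]
  let W : Matrix.unitaryGroup (Fin d) ℂ := ⟨W0, by
    rw [Matrix.mem_unitaryGroup_iff, Matrix.star_eq_conjTranspose]; exact hWW⟩
  have hA : (r : ℂ) • A = P * W0 := by
    rw [hW0, Matrix.mul_smul, ← Matrix.mul_assoc, hPQ, Matrix.one_mul]
  have h1 : ∀ u : Matrix.unitaryGroup (Fin d) ℂ,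
      c ^ t * ‖(u.1 * A).trace‖ ^ (2 * t) = ‖((W * u).1 * P).trace‖ ^ (2 * t) := by
    intro u
    have e1 : ((W * u).1 * P).trace = (r : ℂ) * (u.1 * A).trace := by
      have : (W * u).1 = W0 * u.1 := rfl
      rw [this, Matrix.mul_assoc, Matrix.trace_mul_comm, Matrix.mul_assoc, ← hA, Matrix.mul_smul,
        Matrix.trace_smul, smul_eq_mul]
    have e2 : ‖(r : ℂ)‖ = r := by
      rw [Complex.norm_real, Real.norm_of_nonneg (Real.sqrt_nonneg c)]
    rw [e1, norm_mul, e2, mul_pow, pow_mul r, pow_two, hr2]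
  have h2 : c ^ t * ∫ u, ‖(u.1 * A).trace‖ ^ (2 * t) ∂(haarProb (Fin d)) =
      ∫ u, ‖(u.1 * P).trace‖ ^ (2 * t) ∂(haarProb (Fin d)) := by
    rw [← integral_const_mul, ← integral_left_real (fun u => ‖(u.1 * P).trace‖ ^ (2 * t)) W]
    exact integral_congr_ae (Filter.Eventually.of_forall h1)
  have h3 : ((∫ u, ‖(u.1 * P).trace‖ ^ (2 * t) ∂(haarProb (Fin d)) : ℝ) : ℂ) =
      ∫ u, (conj u.1.trace) ^ t * (u.1 * M).trace ^ t ∂(haarProb (Fin d)) := by
    rw [← hint, ← integral_complex_ofReal]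
    refine integral_congr_ae (Filter.Eventually.of_forall fun u => ?_)
    simp only [conj_mul_pow]
  have h4 := path_ineq t hMp hMtr
  rw [← h3, Complex.ofReal_re, ← h2] at h4
  have h5 : (hsSq A / d) ^ t = (c ^ t)⁻¹ := by
    rw [← inv_pow, hc, inv_div]
  rw [h5, ← div_eq_mul_inv, le_div_iff₀ (by positivity), mul_comm]
  exact h4

theorem continuous_trace_pow (t : ℕ) (A : Matrix (Fin d) (Fin d) ℂ) :
    Continuous fun u : Matrix.unitaryGroup (Fin d) ℂ => ‖(u.1 * A).trace‖ ^ (2 * t) :=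
  ((continuous_val.matrix_mul continuous_const).matrix_trace.norm).pow _

theorem star_ineq (hd : 1 ≤ d) (t : ℕ) (A : Matrix (Fin d) (Fin d) ℂ) :
    ∫ u, ‖(u.1 * A).trace‖ ^ (2 * t) ∂(haarProb (Fin d)) ≤ Dmom d t * (hsSq A / d) ^ t := by
  have hline : Continuous fun ε : ℂ => A + ε • (1 : Matrix (Fin d) (Fin d) ℂ) :=
    continuous_const.add (continuous_id.smul continuous_const)
  have hc1 : Continuous fun ε : ℂ => ∫ u, ‖(u.1 * (A + ε • (1 : Matrix (Fin d) (Fin d) ℂ))).trace‖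
      ^ (2 * t) ∂(haarProb (Fin d)) := by
    have h := continuous_parametric_integral_of_continuous (μ := haarProb (Fin d))
      (f := fun (ε : ℂ) (u : Matrix.unitaryGroup (Fin d) ℂ) =>
        ‖(u.1 * (A + ε • (1 : Matrix (Fin d) (Fin d) ℂ))).trace‖ ^ (2 * t)) ?_
        (s := Set.univ) isCompact_univ
    · simpa using h
    · have hv : Continuous fun p : ℂ × Matrix.unitaryGroup (Fin d) ℂ => p.2.1 :=
        continuous_val.comp continuous_snd
      have hl : Continuous fun p : ℂ × Matrix.unitaryGroup (Fin d) ℂ =>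
          A + p.1 • (1 : Matrix (Fin d) (Fin d) ℂ) := hline.comp continuous_fst
      exact ((hv.matrix_mul hl).matrix_trace.norm).pow _
  have hc2 : Continuous fun ε : ℂ => Dmom d t *
      (hsSq (A + ε • (1 : Matrix (Fin d) (Fin d) ℂ)) / d) ^ t := by
    unfold hsSq
    refine continuous_const.mul (Continuous.pow (Continuous.div_const ?_ _) _)
    refine continuous_finset_sum _ fun i _ => continuous_finset_sum _ fun j _ => ?_
    exact ((hline.matrix_elem i j).norm).pow _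
  have hev : ∀ᶠ ε in nhdsWithin (0 : ℂ) {0}ᶜ,
      ∫ u, ‖(u.1 * (A + ε • (1 : Matrix (Fin d) (Fin d) ℂ))).trace‖
        ^ (2 * t) ∂(haarProb (Fin d)) ≤
      Dmom d t * (hsSq (A + ε • (1 : Matrix (Fin d) (Fin d) ℂ)) / d) ^ t := by
    have hfin := Polynomial.finite_setOfPred_isRoot (Matrix.charpoly_monic (-A)).ne_zero
    have h1 := nhdsNE_le_cofinite (0 : ℂ) hfin.compl_mem_cofinite
    filter_upwards [h1] with ε hε
    have hdet : (A + ε • (1 : Matrix (Fin d) (Fin d) ℂ)).det ≠ 0 := by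
      intro h0
      apply hε
      show Polynomial.eval ε (-A).charpoly = 0
      rw [Matrix.eval_charpoly, sub_neg_eq_add, add_comm, ← h0]
      congr 2
      ext i j
      simp [Matrix.scalar_apply, Matrix.diagonal_apply, Matrix.one_apply]
    have hu : IsUnit (A + ε • (1 : Matrix (Fin d) (Fin d) ℂ)).det := isUnit_iff_ne_zero.mpr hdet
    exact star_ineq_inv hd t (Matrix.mul_nonsing_inv _ hu)
  have h0 := le_of_tendsto_of_tendsto ((hc1.tendsto 0).mono_left nhdsWithin_le_nhds)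
    ((hc2.tendsto 0).mono_left nhdsWithin_le_nhds) hev
  simpa using h0

end Pool.Agent.Helper49_Channels
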