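import Pool.Agent.Helper49_Channels.Haar

open MeasureTheory Matrix TopologicalSpace
open scoped Kronecker ComplexConjugate

namespace Pool.Agent.Helper49_Channels

variable {n : Type} [Fintype n] [DecidableEq n]

/-- Diagonal unitary. -/
def diagU (z : n → ℂ) (hz : ∀ i, conj (z i) * z i = 1) : Matrix.unitaryGroup n ℂ :=
  ⟨Matrix.diagonal z, by
    rw [Matrix.mem_unitaryGroup_iff']
    rw [Matrix.star_eq_conjTranspose, Matrix.diagonal_conjTranspose, Matrix.diagonal_mul_diagonal]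
    rw [← Matrix.diagonal_one]
    congr 1
    funext i
    exact hz i⟩

theorem diagU_mul_apply (z : n → ℂ) (hz : ∀ i, conj (z i) * z i = 1)
    (V : Matrix.unitaryGroup n ℂ) (i j : n) : (diagU z hz * V).1 i j = z i * V.1 i j := by
  show (Matrix.diagonal z * V.1) i j = _
  rw [Matrix.diagonal_mul]

/-- Permutation unitary: `(permU σ * V) i j = V (σ i) j`. -/
def permU (σ : Equiv.Perm n) : Matrix.unitaryGroup n ℂ :=
  ⟨Matrix.of fun i j => if σ i = j then 1 else 0, by
    rw [Matrix.mem_unitaryGroup_iff]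
    ext i j
    simp only [Matrix.mul_apply, Matrix.star_apply, Matrix.of_apply, Matrix.one_apply]
    simp [apply_ite star]⟩

theorem permU_mul_apply (σ : Equiv.Perm n)
    (V : Matrix.unitaryGroup n ℂ) (i j : n) : (permU σ * V).1 i j = V.1 (σ i) j := by
  show ((Matrix.of fun i j => if σ i = j then (1:ℂ) else 0) * V.1) i j = _
  simp [Matrix.mul_apply]

/-- Fourth-order moment. -/
noncomputable def mom (a1 a2 c1 c2 b1 b2 d1 d2 : n) : ℂ :=
  ∫ V, V.1 a1 b1 * V.1 a2 b2 * conj (V.1 c1 d1) * conj (V.1 c2 d2) ∂(haarProb n)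

theorem mom_perm (σ : Equiv.Perm n) (a1 a2 c1 c2 b1 b2 d1 d2 : n) :
    mom (σ a1) (σ a2) (σ c1) (σ c2) b1 b2 d1 d2 = mom a1 a2 c1 c2 b1 b2 d1 d2 := by
  have h := integral_left (fun V : Matrix.unitaryGroup n ℂ =>
    V.1 a1 b1 * V.1 a2 b2 * conj (V.1 c1 d1) * conj (V.1 c2 d2)) (permU σ)
  simp only [permU_mul_apply] at h
  exact h

theorem mom_diag (z : n → ℂ) (hz : ∀ i, conj (z i) * z i = 1)
    (a1 a2 c1 c2 b1 b2 d1 d2 : n) :
    (z a1 * z a2 * conj (z c1) * conj (z c2)) * mom a1 a2 c1 c2 b1 b2 d1 d2 =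
      mom a1 a2 c1 c2 b1 b2 d1 d2 := by
  have h := integral_left (fun V : Matrix.unitaryGroup n ℂ =>
    V.1 a1 b1 * V.1 a2 b2 * conj (V.1 c1 d1) * conj (V.1 c2 d2)) (diagU z hz)
  simp only [diagU_mul_apply, map_mul] at h
  unfold mom
  rw [← integral_const_mul, ← h]
  refine integral_congr_ae (Filter.Eventually.of_forall fun V => ?_)
  simp only
  ring

/-- The phase `I` in position `p`. -/
def ph (p : n) : n → ℂ := fun i => if i = p then Complex.I else 1

theorem ph_unit (p : n) : ∀ i, conj (ph p i) * ph p i = 1 := by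
  intro i
  unfold ph
  split_ifs <;> simp

theorem mom_zero (a1 a2 c1 c2 b1 b2 d1 d2 : n)
    (h : ¬ ((a1 = c1 ∧ a2 = c2) ∨ (a1 = c2 ∧ a2 = c1))) :
    mom a1 a2 c1 c2 b1 b2 d1 d2 = 0 := by
  have key : ∀ (z : n → ℂ) (hz : ∀ i, conj (z i) * z i = 1),
      z a1 * z a2 * conj (z c1) * conj (z c2) ≠ 1 → mom a1 a2 c1 c2 b1 b2 d1 d2 = 0 := by
    intro z hz hne
    have h1 := mom_diag z hz a1 a2 c1 c2 b1 b2 d1 d2
    by_contra h0
    exact hne (mul_right_cancel₀ h0 (by rw [h1, one_mul]))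
  have hI1 : Complex.I ≠ 1 := by
    intro h; have := congrArg Complex.re h; simp at this
  have hm1 : (-1 : ℂ) ≠ 1 := by norm_num
  by_cases h1 : a1 = c1
  · have h2 : a2 ≠ c2 := fun h2 => h (Or.inl ⟨h1, h2⟩)
    refine key (ph a2) (ph_unit a2) ?_
    subst h1
    have e1 : ph a2 c2 = 1 := by simp [ph, h2.symm]
    have e2 : ph a2 a2 = Complex.I := by simp [ph]
    have e3 := ph_unit a2 a1
    rw [e1, e2]
    intro hh
    apply hI1
    calc Complex.I = (conj (ph a2 a1) * ph a2 a1) * Complex.I := by rw [e3, one_mul]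
      _ = ph a2 a1 * Complex.I * conj (ph a2 a1) * conj (1:ℂ) := by simp; ring
      _ = 1 := hh
  · by_cases h2 : a1 = c2
    · have h3 : a2 ≠ c1 := fun h3 => h (Or.inr ⟨h2, h3⟩)
      refine key (ph a2) (ph_unit a2) ?_
      subst h2
      have e1 : ph a2 c1 = 1 := by simp [ph, h3.symm]
      have e2 : ph a2 a2 = Complex.I := by simp [ph]
      have e3 := ph_unit a2 a1
      rw [e1, e2]
      intro hh
      apply hI1
      calc Complex.I = (conj (ph a2 a1) * ph a2 a1) * Complex.I := by rw [e3, one_mul]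
        _ = ph a2 a1 * Complex.I * conj (1:ℂ) * conj (ph a2 a1) := by simp; ring
        _ = 1 := hh
    · refine key (ph a1) (ph_unit a1) ?_
      have e1 : ph a1 c1 = 1 := by simp [ph, Ne.symm h1]
      have e2 : ph a1 c2 = 1 := by simp [ph, Ne.symm h2]
      have e3 : ph a1 a1 = Complex.I := by simp [ph]
      rw [e1, e2, e3]
      by_cases h3 : a2 = a1
      · subst h3
        rw [e3]; simpa using hm1
      · have e4 : ph a1 a2 = 1 := by simp [ph, h3]
        rw [e4]; simpa using hI1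

/-- Two-transitivity of the symmetric group. -/
theorem exists_perm {p q p' q' : n} (h : p ≠ q) (h' : p' ≠ q') :
    ∃ σ : Equiv.Perm n, σ p = p' ∧ σ q = q' := by
  refine ⟨Equiv.swap (Equiv.swap p p' q) q' * Equiv.swap p p', ?_, ?_⟩
  · simp only [Equiv.Perm.coe_mul, Function.comp_apply, Equiv.swap_apply_left]
    apply Equiv.swap_apply_of_ne_of_ne
    · intro hh
      have : Equiv.swap p p' p = Equiv.swap p p' q := by
        rw [Equiv.swap_apply_left]; exact hh
      exact h ((Equiv.swap p p').injective this)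
    · exact h'
  · simp

/-- Matrix of the Hadamard rotation in the plane `(p, q)`. -/
noncomputable def hadM (p q : n) : Matrix n n ℂ := Matrix.of fun i j =>
    if i = p then ((Real.sqrt 2)⁻¹ : ℝ) * ((if j = p then 1 else 0) + (if j = q then 1 else 0))
    else if i = q then
      ((Real.sqrt 2)⁻¹ : ℝ) * ((if j = p then 1 else 0) - (if j = q then 1 else 0))
    else if j = i then 1 else 0

theorem sq_half : (((Real.sqrt 2)⁻¹ : ℝ) : ℂ) * (((Real.sqrt 2)⁻¹ : ℝ) : ℂ) = 1 / 2 := by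
  rw [← Complex.ofReal_mul, ← mul_inv, Real.mul_self_sqrt (by norm_num)]
  norm_num

theorem hadM_sum (p q i : n) (f : n → ℂ) :
    ∑ k, hadM p q i k * f k =
      if i = p then ((Real.sqrt 2)⁻¹ : ℝ) * (f p + f q)
      else if i = q then ((Real.sqrt 2)⁻¹ : ℝ) * (f p - f q) else f i := by
  unfold hadM
  simp only [Matrix.of_apply]
  split_ifs with h1 h2
  · simp [mul_add, add_mul, Finset.sum_add_distrib]
  · simp [mul_sub, sub_mul, Finset.sum_sub_distrib]
  · simp

/-- Hadamard rotation in the plane `(p, q)`. -/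
noncomputable def hadU (p q : n) (h : p ≠ q) : Matrix.unitaryGroup n ℂ :=
  ⟨hadM p q, by
    rw [Matrix.mem_unitaryGroup_iff]
    ext i j
    simp only [Matrix.mul_apply, Matrix.star_apply, Matrix.one_apply]
    rw [hadM_sum]
    have hs := sq_half
    have hstar : star (((Real.sqrt 2)⁻¹ : ℝ) : ℂ) = (((Real.sqrt 2)⁻¹ : ℝ) : ℂ) :=
      Complex.conj_ofReal _
    have h' := h.symm
    unfold hadM
    simp only [Matrix.of_apply]
    generalize (((Real.sqrt 2)⁻¹ : ℝ) : ℂ) = s at hs hstar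
    by_cases hip : i = p
    · subst hip
      by_cases hji : j = i
      · subst hji
        simp [h, h', hstar]
        linear_combination 2 * hs
      · by_cases hjq : j = q
        · subst hjq
          simp [h, h', hstar]
        · simp [hji, hjq, Ne.symm hji, Ne.symm hjq]
    · by_cases hiq : i = q
      · subst hiq
        by_cases hji : j = i
        · subst hji
          simp [h, h', hstar]
          linear_combination 2 * hs
        · by_cases hjp : j = p
          · subst hjp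
            simp [h, h', hstar]
          · simp [hji, hjp, Ne.symm hji, Ne.symm hjp, h']
      · by_cases hjp : j = p
        · subst hjp
          simp [hip, hiq]
        · by_cases hjq : j = q
          · subst hjq
            simp [hip, hiq, h']
          · simp [hip, hiq, hjp, hjq]⟩

theorem hadU_mul_apply (p q : n) (h : p ≠ q) (V : Matrix.unitaryGroup n ℂ) (j : n) :
    (hadU p q h * V).1 p j = ((Real.sqrt 2)⁻¹ : ℝ) * (V.1 p j + V.1 q j) := by
  have := hadM_sum p q p (fun k => V.1 k j)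
  simp only [if_true] at this
  exact this

theorem continuous_term (a1 a2 c1 c2 b1 b2 d1 d2 : n) :
    Continuous (fun V : Matrix.unitaryGroup n ℂ =>
      V.1 a1 b1 * V.1 a2 b2 * conj (V.1 c1 d1) * conj (V.1 c2 d2)) := by
  have h1 := continuous_entry a1 b1
  have h2 := continuous_entry a2 b2
  have h3 := (continuous_entry c1 d1)
  have h4 := (continuous_entry c2 d2)
  exact ((h1.mul h2).mul (Complex.continuous_conj.comp h3)).mul (Complex.continuous_conj.comp h4)

theorem mom_had (p q : n) (h : p ≠ q) (b1 b2 d1 d2 : n) :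
    mom p p p p b1 b2 d1 d2 =
      mom p q p q b1 b2 d1 d2 + mom p q q p b1 b2 d1 d2 := by
  have h0 := integral_left (fun V : Matrix.unitaryGroup n ℂ =>
    V.1 p b1 * V.1 p b2 * conj (V.1 p d1) * conj (V.1 p d2)) (hadU p q h)
  simp only [hadU_mul_apply, map_mul, map_add, Complex.conj_ofReal] at h0
  have hs := sq_half
  generalize (((Real.sqrt 2)⁻¹ : ℝ) : ℂ) = s at hs h0
  have h1 : ∀ V : Matrix.unitaryGroup n ℂ,
      s * (V.1 p b1 + V.1 q b1) * (s * (V.1 p b2 + V.1 q b2)) *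
        (s * (conj (V.1 p d1) + conj (V.1 q d1))) * (s * (conj (V.1 p d2) + conj (V.1 q d2))) =
      (1 / 4) * ∑ x1 : Bool, ∑ x2 : Bool, ∑ y1 : Bool, ∑ y2 : Bool,
        V.1 (cond x1 p q) b1 * V.1 (cond x2 p q) b2 * conj (V.1 (cond y1 p q) d1) *
          conj (V.1 (cond y2 p q) d2) := by
    intro V
    have : (1 / 4 : ℂ) = (s * s) * (s * s) := by rw [hs]; norm_num
    rw [this]
    simp only [Fintype.sum_bool, cond_true, cond_false]
    ring
  rw [integral_congr_ae (Filter.Eventually.of_forall h1), integral_const_mul] at h0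
  have hint : ∀ a1 a2 c1 c2 : n, Integrable (fun V : Matrix.unitaryGroup n ℂ =>
      V.1 a1 b1 * V.1 a2 b2 * conj (V.1 c1 d1) * conj (V.1 c2 d2)) (haarProb n) :=
    fun a1 a2 c1 c2 => integrable_of_continuous (continuous_term a1 a2 c1 c2 b1 b2 d1 d2)
  rw [integral_finsetSum _ (fun x1 _ => integrable_finsetSum _ fun x2 _ =>
    integrable_finsetSum _ fun y1 _ => integrable_finsetSum _ fun y2 _ => hint _ _ _ _)] at h0
  have h2 : ∀ x1 : Bool, ∫ V : Matrix.unitaryGroup n ℂ, ∑ x2 : Bool, ∑ y1 : Bool, ∑ y2 : Bool,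
        V.1 (cond x1 p q) b1 * V.1 (cond x2 p q) b2 * conj (V.1 (cond y1 p q) d1) *
          conj (V.1 (cond y2 p q) d2) ∂(haarProb n) =
        ∑ x2 : Bool, ∑ y1 : Bool, ∑ y2 : Bool,
          mom (cond x1 p q) (cond x2 p q) (cond y1 p q) (cond y2 p q) b1 b2 d1 d2 := by
    intro x1
    rw [integral_finsetSum _ (fun x2 _ =>
      integrable_finsetSum _ fun y1 _ => integrable_finsetSum _ fun y2 _ => hint _ _ _ _)]
    refine Finset.sum_congr rfl fun x2 _ => ?_
    rw [integral_finsetSum _ (fun y1 _ => integrable_finsetSum _ fun y2 _ => hint _ _ _ _)]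
    refine Finset.sum_congr rfl fun y1 _ => ?_
    rw [integral_finsetSum _ (fun y2 _ => hint _ _ _ _)]
    rfl
  rw [Finset.sum_congr rfl (fun x1 _ => h2 x1)] at h0
  change _ = mom p p p p b1 b2 d1 d2 at h0
  simp only [Fintype.sum_bool, cond_true, cond_false] at h0
  have h' := h.symm
  rw [mom_zero p p p q b1 b2 d1 d2 (by simp [h, h']), mom_zero p p q p b1 b2 d1 d2 (by simp [h, h']),
    mom_zero p p q q b1 b2 d1 d2 (by simp [h, h']), mom_zero p q p p b1 b2 d1 d2 (by simp [h, h']),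
    mom_zero p q q q b1 b2 d1 d2 (by simp [h, h']), mom_zero q p p p b1 b2 d1 d2 (by simp [h, h']),
    mom_zero q p q q b1 b2 d1 d2 (by simp [h, h']), mom_zero q q p p b1 b2 d1 d2 (by simp [h, h']),
    mom_zero q q p q b1 b2 d1 d2 (by simp [h, h']), mom_zero q q q p b1 b2 d1 d2 (by simp [h, h'])] at h0
  have e1 : mom q q q q b1 b2 d1 d2 = mom p p p p b1 b2 d1 d2 := by
    have := mom_perm (Equiv.swap p q) p p p p b1 b2 d1 d2
    simpa using this
  have e2 : mom q p q p b1 b2 d1 d2 = mom p q p q b1 b2 d1 d2 := by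
    have := mom_perm (Equiv.swap p q) p q p q b1 b2 d1 d2
    simpa using this
  have e3 : mom q p p q b1 b2 d1 d2 = mom p q q p b1 b2 d1 d2 := by
    have := mom_perm (Equiv.swap p q) p q q p b1 b2 d1 d2
    simpa using this
  rw [e1, e2, e3] at h0
  linear_combination (-2) * h0

/-- The structure of the fourth moment: it is an isotropic tensor. -/
theorem mom_form (p0 q0 : n) (h0 : p0 ≠ q0) (a1 a2 c1 c2 b1 b2 d1 d2 : n) :
    mom a1 a2 c1 c2 b1 b2 d1 d2 =
      mom p0 q0 p0 q0 b1 b2 d1 d2 * (if a1 = c1 ∧ a2 = c2 then 1 else 0) +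
      mom p0 q0 q0 p0 b1 b2 d1 d2 * (if a1 = c2 ∧ a2 = c1 then 1 else 0) := by
  by_cases h : (a1 = c1 ∧ a2 = c2) ∨ (a1 = c2 ∧ a2 = c1)
  · by_cases h12 : a1 = a2
    · subst h12
      have hc : c1 = a1 ∧ c2 = a1 := by
        rcases h with h | h
        · exact ⟨h.1.symm, h.2.symm⟩
        · exact ⟨h.2.symm, h.1.symm⟩
      rw [hc.1, hc.2]
      simp only [and_self, if_true, mul_one]
      have e : mom a1 a1 a1 a1 b1 b2 d1 d2 = mom p0 p0 p0 p0 b1 b2 d1 d2 := by
        have := mom_perm (Equiv.swap p0 a1) p0 p0 p0 p0 b1 b2 d1 d2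
        simpa using this
      rw [e, mom_had p0 q0 h0]
    · obtain ⟨σ, hσ1, hσ2⟩ := exists_perm h0 h12
      rcases h with h | h
      · obtain ⟨rfl, rfl⟩ := h
        have := mom_perm σ p0 q0 p0 q0 b1 b2 d1 d2
        rw [hσ1, hσ2] at this
        simp [this, h12, Ne.symm h12]
      · obtain ⟨rfl, rfl⟩ := h
        have := mom_perm σ p0 q0 q0 p0 b1 b2 d1 d2
        rw [hσ1, hσ2] at this
        simp [this, h12, Ne.symm h12]
  · rw [mom_zero _ _ _ _ _ _ _ _ h]
    rw [not_or] at h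
    simp [h.1, h.2]

theorem sum_mom1 (b1 b2 d1 d2 : n) :
    ∑ a1 : n, ∑ a2 : n, mom a1 a2 a1 a2 b1 b2 d1 d2 =
      (if b1 = d1 then 1 else 0) * (if b2 = d2 then 1 else 0) := by
  have hint : ∀ a1 a2 c1 c2 : n, Integrable (fun V : Matrix.unitaryGroup n ℂ =>
      V.1 a1 b1 * V.1 a2 b2 * conj (V.1 c1 d1) * conj (V.1 c2 d2)) (haarProb n) :=
    fun a1 a2 c1 c2 => integrable_of_continuous (continuous_term a1 a2 c1 c2 b1 b2 d1 d2)
  have h1 : ∑ a1 : n, ∑ a2 : n, mom a1 a2 a1 a2 b1 b2 d1 d2 =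
      ∫ V : Matrix.unitaryGroup n ℂ, ∑ a1 : n, ∑ a2 : n,
        V.1 a1 b1 * V.1 a2 b2 * conj (V.1 a1 d1) * conj (V.1 a2 d2) ∂(haarProb n) := by
    rw [integral_finsetSum _ (fun a1 _ => integrable_finsetSum _ fun a2 _ => hint _ _ _ _)]
    refine Finset.sum_congr rfl fun a1 _ => ?_
    rw [integral_finsetSum _ (fun a2 _ => hint _ _ _ _)]
    rfl
  rw [h1]
  have h2 : ∀ V : Matrix.unitaryGroup n ℂ, ∑ a1 : n, ∑ a2 : n,
        V.1 a1 b1 * V.1 a2 b2 * conj (V.1 a1 d1) * conj (V.1 a2 d2) =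
      (if b1 = d1 then 1 else 0) * (if b2 = d2 then 1 else 0) := by
    intro V
    rw [← col_orthonormal V b1 d1, ← col_orthonormal V b2 d2, Finset.sum_mul_sum]
    refine Finset.sum_congr rfl fun a1 _ => Finset.sum_congr rfl fun a2 _ => ?_
    ring
  rw [integral_congr_ae (Filter.Eventually.of_forall h2)]
  simp

theorem sum_mom2 (b1 b2 d1 d2 : n) :
    ∑ a1 : n, ∑ a2 : n, mom a1 a2 a2 a1 b1 b2 d1 d2 =
      (if b1 = d2 then 1 else 0) * (if b2 = d1 then 1 else 0) := by
  rw [← sum_mom1 b1 b2 d2 d1]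
  refine Finset.sum_congr rfl fun a1 _ => Finset.sum_congr rfl fun a2 _ => ?_
  unfold mom
  refine integral_congr_ae (Filter.Eventually.of_forall fun V => ?_)
  simp only
  ring

/-- The fourth moments of a Haar unitary (Weingarten formula for `t = 2`). -/
theorem mom_eq (hn : 2 ≤ Fintype.card n) (a1 a2 c1 c2 b1 b2 d1 d2 : n) :
    mom a1 a2 c1 c2 b1 b2 d1 d2 =
      (((if b1 = d1 then 1 else 0) * (if b2 = d2 then 1 else 0) -
        (if b1 = d2 then 1 else 0) * (if b2 = d1 then 1 else 0) / (Fintype.card n : ℂ)) /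
          ((Fintype.card n : ℂ) ^ 2 - 1)) * (if a1 = c1 ∧ a2 = c2 then 1 else 0) +
      (((if b1 = d2 then 1 else 0) * (if b2 = d1 then 1 else 0) -
        (if b1 = d1 then 1 else 0) * (if b2 = d2 then 1 else 0) / (Fintype.card n : ℂ)) /
          ((Fintype.card n : ℂ) ^ 2 - 1)) * (if a1 = c2 ∧ a2 = c1 then 1 else 0) := by
  have hne : Nontrivial n := Fintype.one_lt_card_iff_nontrivial.mp (by omega)
  obtain ⟨p0, q0, h0⟩ := exists_pair_ne n
  have hA := sum_mom1 b1 b2 d1 d2
  have hB := sum_mom2 b1 b2 d1 d2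
  have f1 := fun a1 a2 : n => mom_form p0 q0 h0 a1 a2 a1 a2 b1 b2 d1 d2
  have f2 := fun a1 a2 : n => mom_form p0 q0 h0 a1 a2 a2 a1 b1 b2 d1 d2
  rw [mom_form p0 q0 h0 a1 a2 c1 c2 b1 b2 d1 d2]
  generalize mom p0 q0 p0 q0 b1 b2 d1 d2 = x at *
  generalize mom p0 q0 q0 p0 b1 b2 d1 d2 = y at *
  simp only [f1] at hA
  simp only [f2] at hB
  generalize ((if b1 = d1 then (1:ℂ) else 0) * (if b2 = d2 then 1 else 0)) = A at *
  generalize ((if b1 = d2 then (1:ℂ) else 0) * (if b2 = d1 then 1 else 0)) = B at *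
  have s1 : ∀ a1 : n, ∑ a2 : n, (if a1 = a2 ∧ a2 = a1 then (1:ℂ) else 0) = 1 := by
    intro a1
    rw [Finset.sum_eq_single a1]
    · simp
    · intro b _ hb; simp [hb]
    · simp
  simp only [and_self, if_true, mul_one, Finset.sum_add_distrib, Finset.sum_const, ← Finset.mul_sum,
    s1, Finset.card_univ, nsmul_eq_mul] at hA hB
  set D : ℂ := (Fintype.card n : ℂ) with hD
  have hD0 : D ≠ 0 := by
    rw [hD]; exact_mod_cast (by omega : Fintype.card n ≠ 0)
  have hD1 : D ^ 2 - 1 ≠ 0 := by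
    have h3 : (D ^ 2 - 1) = ((Fintype.card n : ℤ) ^ 2 - 1 : ℤ) := by rw [hD]; push_cast; rfl
    rw [h3]
    have h4 : ((Fintype.card n : ℤ) ^ 2 - 1 : ℤ) ≠ 0 := by
      have : (2:ℤ) ≤ Fintype.card n := by exact_mod_cast hn
      nlinarith
    exact_mod_cast h4
  have ex : x = (A - B / D) / (D ^ 2 - 1) := by
    rw [← hA, ← hB]
    field_simp
    ring
  have ey : y = (B - A / D) / (D ^ 2 - 1) := by
    rw [← hA, ← hB]
    field_simp
    ring
  rw [ex, ey]

end Pool.Agent.Helper49_Channels
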